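import Pool.Agent.H7.PM.G1

set_option autoImplicit false
open MeasureTheory Metric Filter
open scoped ComplexConjugate ENNReal Topology

/-! Rotations of the large primes, conditional second moments. -/

namespace Pool.Agent.H7.PL

open Pool.Agent.Helper873.OneVar Pool.Agent.Helper873.Product Pool.Agent.Helper873.Embed
  Pool.Agent.Helper873.Mean Pool.Agent.Helper873.Alg Pool.Agent.Helper873.Monomial
  Pool.Agent.H7.PM

lemma map_add_tor (v : Tor) : Measure.map (fun z : Tor => fun j => z j + v j) tor = tor := by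
  have h := Measure.infinitePi_map_pi (μ := fun _ : ℕ => AddCircle.haarAddCircle (T := 1))
    (f := fun j x => x + v j) (fun j => measurable_add_const _)
  have e : (fun j : ℕ => Measure.map (fun x => x + v j) (AddCircle.haarAddCircle (T := 1))) =
      fun _ : ℕ => AddCircle.haarAddCircle (T := 1) := by
    funext j
    exact map_add_right_eq_self _ _
  rw [h]
  congr 1

lemma continuous_add_tor (v : Tor) : Continuous (fun z : Tor => z + v) :=
  continuous_id.add continuous_const

/-- invariance under translations -/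
lemma int_add (v : Tor) (f : Tor → ℝ)
    (hf : Continuous f) : ∫ z, f (z + v) ∂tor = ∫ z, f z ∂tor := by
  have h := integral_map (μ := tor) (φ := fun z : Tor => fun j => z j + v j)
    (continuous_add_tor v).measurable.aemeasurable (f := f)
    (by rw [map_add_tor]
        exact hf.aestronglyMeasurable)
  rw [map_add_tor] at h
  exact h.symm

/-- rotation of the large primes -/
def rt (M : ℕ) (w : Tor) : Tor := fun j => if j < M then 0 else w j

lemma continuous_rt (M : ℕ) : Continuous (rt M) := by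
  refine continuous_pi fun j => ?_
  unfold rt
  by_cases h : j < M
  · simp only [if_pos h]; exact continuous_const
  · simp only [if_neg h]; exact continuous_apply j

/-- conditional second moments -/
lemma cond {p : ℝ} (hp : 0 < p) (hp2 : p ≤ 2) (M : ℕ) (X : Tor → ℂ) (hX : Continuous X)
    (Bd : Tor → ℝ) (hI : Integrable (fun z => Bd z ^ (p / 2)) tor)
    (h : ∀ z, ∫ w, ‖X (z + rt M w)‖ ^ 2 ∂tor ≤ Bd z) :
    ∫ z, ‖X z‖ ^ p ∂tor ≤ ∫ z, Bd z ^ (p / 2) ∂tor := by
  have hc : Continuous fun q : Tor × Tor => ‖X (q.1 + rt M q.2)‖ ^ p :=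
    (hX.comp (continuous_fst.add ((continuous_rt M).comp continuous_snd))).norm.rpow_const
      fun _ => Or.inr hp.le
  have h1 : ∀ w : Tor, ∫ z, ‖X (z + rt M w)‖ ^ p ∂tor = ∫ z, ‖X z‖ ^ p ∂tor := fun w =>
    int_add (rt M w) (fun z => ‖X z‖ ^ p) (continuous_norm_rpow hX hp.le)
  have h2 : ∫ z, ‖X z‖ ^ p ∂tor = ∫ w, ∫ z, ‖X (z + rt M w)‖ ^ p ∂tor ∂tor := by
    simp_rw [h1]
    simp
  have h3 : ∫ w, ∫ z, ‖X (z + rt M w)‖ ^ p ∂tor ∂tor =
      ∫ z, ∫ w, ‖X (z + rt M w)‖ ^ p ∂tor ∂tor := by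
    have h4 : Integrable (fun q : Tor × Tor => ‖X (q.1 + rt M q.2)‖ ^ p) (tor.prod tor) :=
      hc.integrable_of_hasCompactSupport (HasCompactSupport.of_compactSpace _)
    exact (integral_integral_swap (f := fun z w => ‖X (z + rt M w)‖ ^ p) h4).symm
  rw [h2, h3]
  refine integral_mono_of_nonneg (Eventually.of_forall fun z => integral_nonneg fun w =>
    by positivity) hI (Eventually.of_forall fun z => ?_)
  have hXz : Continuous fun w => X (z + rt M w) :=
    hX.comp (continuous_const.add (continuous_rt M))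
  have hj := (Real.concaveOn_rpow (p := p / 2) (by positivity) (by linarith)).le_map_integral
    (μ := (tor : Measure Tor)) (f := fun w => ‖X (z + rt M w)‖ ^ 2)
    ((Real.continuous_rpow_const (by positivity)).continuousOn) isClosed_Ici
    (Eventually.of_forall fun w => by simp only [Set.mem_Ici]; positivity)
    (integrable_tor' (hXz.norm.pow 2))
    (integrable_tor' ((Real.continuous_rpow_const (by positivity)).comp (hXz.norm.pow 2)))
  have e : ∀ w, (‖X (z + rt M w)‖ ^ 2) ^ (p / 2) = ‖X (z + rt M w)‖ ^ p := by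
    intro w
    rw [← Real.rpow_natCast, ← Real.rpow_mul (norm_nonneg _)]
    congr 1
    push_cast
    ring
  simp_rw [e] at hj
  refine hj.trans ?_
  exact Real.rpow_le_rpow (integral_nonneg fun w => by positivity) (h z) (by positivity)

lemma orth' (m n : ℕ) (hm : m ≠ 0) (hn : n ≠ 0) (h : m ≠ n) :
    ∫ z, stf m z * conj (stf n z) ∂tor = 0 := by
  have h1 := orth (m - 1) (n - 1) (by omega)
  unfold chi at h1
  rw [Nat.sub_add_cancel (by omega), Nat.sub_add_cancel (by omega)] at h1
  exact h1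

lemma pars_fin (S : Finset ℕ) (hS : 0 ∉ S) (b : ℕ → ℂ) :
    ∫ z, ‖DPol S b z‖ ^ 2 ∂tor = ∑ n ∈ S, ‖b n‖ ^ 2 := by
  have h1 : ((∫ z, ‖DPol S b z‖ ^ 2 ∂tor : ℝ) : ℂ) = ((∑ n ∈ S, ‖b n‖ ^ 2 : ℝ) : ℂ) := by
    have e0 : ((∫ z, ‖DPol S b z‖ ^ 2 ∂tor : ℝ) : ℂ) =
        ∫ z, ((‖DPol S b z‖ ^ 2 : ℝ) : ℂ) ∂tor := integral_ofReal.symm
    rw [e0]
    have e1 : ∀ z, ((‖DPol S b z‖ ^ 2 : ℝ) : ℂ) =
        ∑ m ∈ S, ∑ n ∈ S, (b m * conj (b n)) * (stf m z * conj (stf n z)) := by
      intro z
      rw [← Complex.normSq_eq_norm_sq, ← Complex.mul_conj]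
      unfold DPol
      rw [map_sum, Finset.sum_mul_sum]
      refine Finset.sum_congr rfl fun m _ => Finset.sum_congr rfl fun n _ => ?_
      rw [map_mul]; ring
    simp_rw [e1]
    have hcc : ∀ m n : ℕ, Continuous fun z => stf m z * conj (stf n z) := fun m n =>
      (continuous_stf m).mul (Complex.continuous_conj.comp (continuous_stf n))
    rw [integral_finsetSum]
    · push_cast
      refine Finset.sum_congr rfl fun m hm => ?_
      rw [integral_finsetSum]
      · simp_rw [integral_const_mul]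
        rw [Finset.sum_eq_single_of_mem m hm]
        · have : ∀ z, stf m z * conj (stf m z) = 1 := by
            intro z
            rw [Complex.mul_conj, Complex.normSq_eq_norm_sq, norm_stf]
            simp
          simp_rw [this]
          simp only [integral_const, probReal_univ, one_smul, mul_one]
          rw [Complex.mul_conj, Complex.normSq_eq_norm_sq]
          push_cast; rfl
        · intro n hn hne
          have hm0 : m ≠ 0 := fun h => hS (h ▸ hm)
          have hn0 : n ≠ 0 := fun h => hS (h ▸ hn)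
          rw [orth' m n hm0 hn0 (Ne.symm hne), mul_zero]
      · intro n _
        exact (integrable_tor' (hcc m n)).const_mul _
    · intro m _
      exact integrable_tor' (continuous_finsetSum _ fun n _ => continuous_const.mul (hcc m n))
  exact_mod_cast h1

/-- second moments of series -/
lemma pars (b : ℕ → ℂ) (hb0 : b 0 = 0) (hb : Summable fun n => ‖b n‖) (B : ℝ)
    (hB : ∀ S : Finset ℕ, ∑ n ∈ S, ‖b n‖ ^ 2 ≤ B) :
    ∫ z, ‖DSer b z‖ ^ 2 ∂tor ≤ B := by
  have h1 := nrm_DSer_tendsto (p := 2) one_le_two hb0 hb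
  have h2 : Tendsto (fun M : ℕ => nrm 2 (DPol (Finset.Icc 1 M) b) ^ (2 : ℝ)) atTop
      (𝓝 (nrm 2 (DSer b) ^ (2 : ℝ))) := h1.rpow_const (Or.inr (by norm_num))
  simp_rw [nrm_rpow (two_pos : (0 : ℝ) < 2)] at h2
  have e : ∀ G : Tor → ℂ, ∫ z, ‖G z‖ ^ (2 : ℝ) ∂tor = ∫ z, ‖G z‖ ^ 2 ∂tor := by
    intro G
    refine integral_congr_ae (Eventually.of_forall fun z => ?_)
    simp only
    exact_mod_cast Real.rpow_natCast ‖G z‖ 2
  simp_rw [e] at h2
  refine le_of_tendsto' h2 fun M => ?_
  rw [pars_fin _ (by simp)]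
  exact hB _

/-- the moments -/
noncomputable def mo (k : ℝ) (G : Tor → ℂ) : ℝ := ∫ z, ‖G z‖ ^ k ∂tor

lemma mo_nonneg (k : ℝ) (G : Tor → ℂ) : 0 ≤ mo k G := int_nonneg k G

lemma rpow_add_le (x y : ℝ) (hx : 0 ≤ x) (hy : 0 ≤ y) {k : ℝ} (hk : 0 ≤ k) (hk1 : k ≤ 1) :
    (x + y) ^ k ≤ x ^ k + y ^ k := Real.rpow_add_le_add_rpow hx hy hk hk1

lemma mo_add_le {k : ℝ} (hk : 0 < k) (hk1 : k ≤ 1) {G H : Tor → ℂ} (hG : Continuous G)
    (hH : Continuous H) : mo k (fun z => G z + H z) ≤ mo k G + mo k H := by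
  unfold mo
  rw [← integral_add (integrable_tor' (continuous_norm_rpow hG hk.le))
    (integrable_tor' (continuous_norm_rpow hH hk.le))]
  refine integral_mono (integrable_tor' (continuous_norm_rpow (hG.add hH) hk.le))
    (integrable_tor' ((continuous_norm_rpow hG hk.le).add (continuous_norm_rpow hH hk.le)))
    fun z => ?_
  simp only
  exact (Real.rpow_le_rpow (norm_nonneg _) (norm_add_le _ _) hk.le).trans
    (rpow_add_le _ _ (norm_nonneg _) (norm_nonneg _) hk.le hk1)

lemma mo_neg (k : ℝ) (G : Tor → ℂ) : mo k (fun z => - G z) = mo k G := by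
  unfold mo; simp

lemma mo_sub_comm (k : ℝ) (G H : Tor → ℂ) :
    mo k (fun z => G z - H z) = mo k (fun z => H z - G z) := by
  unfold mo
  simp_rw [norm_sub_rev]

lemma mo_tri {k : ℝ} (hk : 0 < k) (hk1 : k ≤ 1) {G H F : Tor → ℂ} (hG : Continuous G)
    (hH : Continuous H) (hF : Continuous F) :
    mo k (fun z => G z - H z) ≤ mo k (fun z => G z - F z) + mo k (fun z => F z - H z) := by
  have h := mo_add_le hk hk1 (G := fun z => G z - F z) (H := fun z => F z - H z)
    (hG.sub hF) (hF.sub hH)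
  simpa using h

lemma mo_le {k : ℝ} (hk : 0 < k) (hk1 : k ≤ 1) {G H : Tor → ℂ} (hG : Continuous G)
    (hH : Continuous H) : mo k G ≤ mo k (fun z => G z - H z) + mo k H := by
  have h := mo_add_le hk hk1 (G := fun z => G z - H z) (H := H) (hG.sub hH) hH
  simpa using h

/-- Hölder -/
lemma mo_le_two {k : ℝ} (hk : 0 < k) (hk2 : k ≤ 2) {G : Tor → ℂ} (hG : Continuous G) {B : ℝ}
    (hB : ∫ z, ‖G z‖ ^ 2 ∂tor ≤ B) : mo k G ≤ B ^ (k / 2) := by
  have h := cond hk hk2 0 G hG (fun _ => B) (integrable_const _) (fun z => by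
    have e : rt 0 = fun w => w := by
      funext w j
      simp [rt]
    have h2 := int_add z (fun w => ‖G w‖ ^ 2) (hG.norm.pow 2)
    simp_rw [e, add_comm z]
    rw [h2]
    exact hB)
  simpa [mo] using h

end Pool.Agent.H7.PL
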