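import Pool.Agent.H7.PL.L9

set_option autoImplicit false
open MeasureTheory Metric Filter
open scoped ComplexConjugate ENNReal Topology

/-! The sum over all scales. -/

namespace Pool.Agent.H7.PL

open Pool.Agent.Helper873.OneVar Pool.Agent.Helper873.Product Pool.Agent.Helper873.Embed
  Pool.Agent.Helper873.Monomial Pool.Agent.H7.PM

lemma Sc_le {M M' : ℕ} {η η' : ℝ} (h : Sc M η) (h' : Sc M' η') (hη : 0 < η) (hle : η ≤ η') :
    M' ≤ M := by
  by_contra hcon
  have h1 := (h' M).1 (not_le.1 hcon)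
  have h2 : 1 / η' ≤ 1 / η := one_div_le_one_div_of_le hη hle
  have h3 := (h M).2 (h1.trans h2)
  omega

/-- **all scales** -/
theorem all_scales {k : ℝ} (hk : 0 < k) (hk1 : k ≤ 1) : ∃ C : ℝ, 0 < C ∧
    ∀ (M K N : ℕ) (η : ℝ), 0 < η → η ≤ 1 / 24 → Sc M η → M ≤ K → 1 ≤ N →
    mo k (fun z => SK K N z - W (Finset.range K) η ((N : ℝ) ^ η) z) ≤
      C * (1 / η) ^ (k ^ 2 / 4) := by
  obtain ⟨C1, hC1, h1⟩ := one_scale hk hk1
  set q : ℝ := k ^ 2 / 4 with hq
  have hq0 : 0 < q := by positivity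
  set ρ : ℝ := (1 / 2 : ℝ) ^ q with hρ
  have hρ0 : 0 < ρ := by positivity
  have hρ1 : ρ < 1 := Real.rpow_lt_one (by norm_num) (by norm_num) hq0
  set A : ℝ := 2 * C1 / (1 - ρ) + 48 ^ (k / 2) with hA
  have h1ρ : 0 < 1 - ρ := by linarith
  have hA0 : 0 < A := by positivity
  have hA1 : A * ρ + 2 * C1 ≤ A := by
    have h2 : 2 * C1 / (1 - ρ) ≤ A := by
      rw [hA]
      have : (0 : ℝ) < 48 ^ (k / 2) := by positivity
      linarith
    rw [div_le_iff₀ h1ρ] at h2
    linarith
  refine ⟨A, hA0, ?_⟩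
  have key : ∀ n : ℕ, ∀ (M K N : ℕ) (η : ℝ), 1 / (48 * 2 ^ n) < η → η ≤ 1 / 24 → Sc M η →
      M ≤ K → 1 ≤ N →
      mo k (fun z => SK K N z - W (Finset.range K) η ((N : ℝ) ^ η) z) ≤ A * (1 / η) ^ q := by
    intro n
    induction n with
    | zero =>
      intro M K N η hη hη1 hSc hMK hN
      have hη0 : 0 < η := lt_trans (by positivity) hη
      rw [pow_zero, mul_one] at hη
      have h2 := second_moment K N hN η hη0 (by linarith)
      have hc : Continuous fun z => SK K N z - W (Finset.range K) η ((N : ℝ) ^ η) z :=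
        (continuous_SK K N).sub (continuous_W _ (by positivity))
      have h3 := mo_le_two hk (by linarith) hc h2
      have h4 : 1 / η ≤ 48 := by
        rw [div_le_iff₀ hη0]
        rw [div_lt_iff₀ (by norm_num)] at hη
        linarith
      have h5 : 1 ≤ 1 / η := by
        rw [le_div_iff₀ hη0]; linarith
      have h6 : (1 / η) ^ (k / 2) ≤ 48 ^ (k / 2) :=
        Real.rpow_le_rpow (by positivity) h4 (by positivity)
      have h7 : 1 ≤ (1 / η) ^ q := Real.one_le_rpow h5 hq0.le
      have h8 : (48 : ℝ) ^ (k / 2) ≤ A := by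
        rw [hA]
        have : 0 < 2 * C1 / (1 - ρ) := by positivity
        linarith
      calc _ ≤ (1 / η) ^ (k / 2) := h3
        _ ≤ A * 1 := by linarith
        _ ≤ A * (1 / η) ^ q := mul_le_mul_of_nonneg_left h7 hA0.le
    | succ n ih =>
      intro M K N η hη hη1 hSc hMK hN
      have hη0 : 0 < η := lt_trans (by positivity) hη
      by_cases hbig : 2 * η ≤ 1 / 24
      swap
      · exact ih M K N η (lt_of_le_of_lt (by
          rw [div_le_div_iff₀ (by positivity) (by norm_num)]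
          have : (1 : ℝ) ≤ 2 ^ n := one_le_pow₀ (by norm_num)
          linarith) (by linarith [not_le.1 hbig] : (1 : ℝ) / 48 < η)) hη1 hSc hMK hN
      obtain ⟨M', hM'⟩ := exists_Sc (2 * η)
      have hM'M := Sc_le hSc hM' hη0 (by linarith)
      have h2 := ih M' K N (2 * η) (by
        have e : (1 : ℝ) / (48 * 2 ^ (n + 1)) = 1 / (48 * 2 ^ n) / 2 := by
          rw [pow_succ]; field_simp
        rw [e] at hη
        linarith) hbig hM' (hM'M.trans hMK) hN
      have h3 := h1 M K N η 2 hη0 hη1 hSc hMK hN (by norm_num) le_rfl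
      have h4 := h1 M K N η 1 hη0 hη1 hSc hMK hN le_rfl (by norm_num)
      rw [one_mul] at h4
      have cW : ∀ τ : ℝ, Continuous (W (Finset.range K) τ ((N : ℝ) ^ τ)) := fun τ =>
        continuous_W _ (by positivity)
      have t1 := mo_tri hk hk1 (continuous_SK K N) (cW η) (cW (2 * η))
      have t2 := mo_tri hk hk1 (cW (2 * η)) (cW η) (continuous_BB M K N)
      rw [mo_sub_comm k (BB M K N)] at t2
      have e2 : (1 / (2 * η)) ^ q = ρ * (1 / η) ^ q := by
        rw [hρ, ← Real.mul_rpow (by norm_num) (by positivity)]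
        congr 1
        field_simp
      rw [e2] at h2
      have hR : 0 ≤ (1 / η) ^ q := by positivity
      calc _ ≤ A * (ρ * (1 / η) ^ q) + (C1 * (1 / η) ^ q + C1 * (1 / η) ^ q) := by linarith
        _ = (A * ρ + 2 * C1) * (1 / η) ^ q := by ring
        _ ≤ A * (1 / η) ^ q := mul_le_mul_of_nonneg_right hA1 hR
  intro M K N η hη hη1 hSc hMK hN
  obtain ⟨n, hn⟩ := pow_unbounded_of_one_lt (1 / η) (one_lt_two (α := ℝ))
  refine key n M K N η ?_ hη1 hSc hMK hN
  rw [div_lt_iff₀ (by positivity)]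
  rw [div_lt_iff₀ hη] at hn
  have : 0 < η * 2 ^ n := by positivity
  nlinarith

end Pool.Agent.H7.PL
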