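import Pool.Agent.H7.PL.L10

set_option autoImplicit false
open MeasureTheory Metric Filter
open scoped ComplexConjugate ENNReal Topology

/-! The limit of the moments. -/

namespace Pool.Agent.H7.PL

open Pool.Agent.Helper873.OneVar Pool.Agent.Helper873.Product Pool.Agent.Helper873.Embed
  Pool.Agent.Helper873.Monomial Pool.Agent.H7.PM

lemma e1_ge_one (k : ℝ) (x : ℂ) (hx : ‖x‖ < 1) : 1 ≤ e1 k x := by
  have hd : DiffContOnCl ℂ (la x) (ball 0 1) := by
    refine DifferentiableOn.diffContOnCl fun ζ hζ => ?_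
    rw [closure_ball _ one_ne_zero, mem_closedBall_zero_iff] at hζ
    refine DifferentiableAt.differentiableWithinAt ?_
    unfold la
    refine DifferentiableAt.neg (DifferentiableAt.clog (by fun_prop) ?_)
    refine la_slit _ _ ?_
    rw [norm_mul]
    calc ‖x‖ * ‖ζ‖ ≤ ‖x‖ * 1 := by gcongr
      _ < 1 := by linarith
  have h1 := mean_zet hd
  have h0 : la x 0 = 0 := by unfold la; simp
  rw [h0] at h1
  have hc := continuous_la_zet x hx
  have h2 : ∫ t, (la x (zet t)).re ∂cir = 0 := by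
    have h3 := integral_re (integrable_cir hc)
    rw [h1] at h3
    simpa using h3
  have h3 : ∫ t, (1 + k * (la x (zet t)).re) ∂cir = 1 := by
    have h4 := integral_add (μ := cir) (f := fun _ : UnitAddCircle => (1 : ℝ))
      (g := fun t => k * (la x (zet t)).re) (integrable_const _)
      ((integrable_cir (Complex.continuous_re.comp hc)).const_mul k)
    rw [h4, integral_const_mul, h2]
    simp
  rw [← h3]
  unfold e1
  refine integral_mono ?_ ?_ fun t => ?_
  · exact integrable_cir (continuous_const.add (continuous_const.mul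
      (Complex.continuous_re.comp hc)))
  · exact integrable_cir (Real.continuous_exp.comp (continuous_const.mul
      (Complex.continuous_re.comp hc)))
  · simp only
    have := Real.add_one_le_exp (k * (la x (zet t)).re)
    linarith

lemma FF_EP (N : ℕ) (a : ℂ) : FF N a = EP (Finset.range (KK N)) (1 / 2 + a * dl N) := by
  funext z
  unfold FF EP lg xj px
  rfl

lemma mo_FF_le (k : ℝ) : ∃ C : ℝ, 0 < C ∧ ∀ (N : ℕ) (a : ℝ), 1 ≤ a →
    mo k (FF N (a : ℂ)) ≤ C * ZZ k N := by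
  obtain ⟨C4, hC4, h4⟩ := sum_four
  refine ⟨Real.exp (2 * c1 k * C4), Real.exp_pos _, fun N a ha => ?_⟩
  have hδ := dl_nonneg N
  set sa : ℂ := 1 / 2 + (a : ℂ) * dl N with hsa
  set s1 : ℂ := 1 / 2 + 1 * dl N with hs1
  have hra : sa.re = 1 / 2 + a * dl N := by
    rw [hsa, Complex.add_re, Complex.re_ofReal_mul, Complex.ofReal_re]
    norm_num
  have hr1 : s1.re = 1 / 2 + dl N := by
    rw [hs1, one_mul, Complex.add_re, Complex.ofReal_re]
    norm_num
  have hle : s1.re ≤ sa.re := by rw [hra, hr1]; nlinarith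
  have hsa0 : 0 < sa.re := by rw [hra]; positivity
  have hs10 : 0 < s1.re := by rw [hr1]; positivity
  have hZ : ZZ k N = mo k (EP (Finset.range (KK N)) s1) := by
    unfold ZZ mo
    rw [FF_EP]
  rw [FF_EP, hZ, mo_EP k _ _ hsa0, mo_EP k _ _ hs10]
  have hterm : ∀ j ∈ Finset.range (KK N), e1 k (px sa j) ≤
      Real.exp (2 * c1 k * ‖px s1 j‖ ^ 4) * e1 k (px s1 j) := by
    intro j _
    have hx1 : ‖px s1 j‖ ≤ 3 / 4 := norm_px_le s1 (by rw [hr1]; linarith) j
    have hxa : ‖px sa j‖ ≤ 3 / 4 := norm_px_le sa (by rw [hra]; nlinarith) j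
    have hxx : ‖px sa j‖ ≤ ‖px s1 j‖ := by
      rw [norm_px, norm_px]
      have := two_le_p j
      exact Real.rpow_le_rpow_of_exponent_le (by linarith) (by linarith)
    have b1 := (abs_le.1 (e1_bound k (px sa j) hxa)).2
    have b2 := (abs_le.1 (e1_bound k (px s1 j) hx1)).1
    have b3 := e1_ge_one k (px s1 j) (by linarith)
    have hc := c1_nonneg k
    have hn := norm_nonneg (px sa j)
    have p2 : ‖px sa j‖ ^ 2 ≤ ‖px s1 j‖ ^ 2 := by gcongr
    have p4 : ‖px sa j‖ ^ 4 ≤ ‖px s1 j‖ ^ 4 := by gcongr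
    have q2 : k ^ 2 / 4 * ‖px sa j‖ ^ 2 ≤ k ^ 2 / 4 * ‖px s1 j‖ ^ 2 :=
      mul_le_mul_of_nonneg_left p2 (by positivity)
    have q4 : c1 k * ‖px sa j‖ ^ 4 ≤ c1 k * ‖px s1 j‖ ^ 4 := mul_le_mul_of_nonneg_left p4 hc
    have h5 := Real.add_one_le_exp (2 * c1 k * ‖px s1 j‖ ^ 4)
    have h6 : 0 ≤ 2 * c1 k * ‖px s1 j‖ ^ 4 := by positivity
    have h7 : e1 k (px sa j) ≤ (2 * c1 k * ‖px s1 j‖ ^ 4 + 1) * e1 k (px s1 j) := by nlinarith
    exact h7.trans (mul_le_mul_of_nonneg_right h5 (by linarith))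
  refine (Finset.prod_le_prod (fun j _ => (e1_pos k _ (norm_px_lt sa hsa0 j)).le)
    hterm).trans ?_
  rw [Finset.prod_mul_distrib, ← Real.exp_sum, ← Finset.mul_sum]
  refine mul_le_mul_of_nonneg_right (Real.exp_le_exp.2 ?_)
    (Finset.prod_nonneg fun j _ => (e1_pos k _ (norm_px_lt s1 hs10 j)).le)
  exact mul_le_mul_of_nonneg_left (h4 _ s1 (by rw [hr1]; linarith))
    (by have := c1_nonneg k; positivity)

/-- moments of series -/
lemma mo_tsum {k : ℝ} (hk : 0 < k) (hk1 : k ≤ 1) (G : ℕ → Tor → ℂ) (hG : ∀ j, Continuous (G j))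
    (v : ℕ → ℝ) (hv : ∀ j, 0 ≤ v j) (A : ℝ) (hA : 0 ≤ A) (hGv : ∀ j z, ‖G j z‖ ≤ v j * A)
    (hvs : Summable v) (hvk : Summable fun j => v j ^ k) (B : ℝ)
    (hB : ∀ j, mo k (G j) ≤ v j ^ k * B) :
    mo k (fun z => ∑' j, G j z) ≤ (∑' j, v j ^ k) * B := by
  have hgs : ∀ z, Summable fun j => ‖G j z‖ := fun z =>
    Summable.of_nonneg_of_le (fun _ => norm_nonneg _) (fun j => hGv j z) (hvs.mul_right A)
  have hgk' : ∀ j z, ‖G j z‖ ^ k ≤ v j ^ k * A ^ k := fun j z => by
    rw [← Real.mul_rpow (hv j) hA]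
    exact Real.rpow_le_rpow (norm_nonneg _) (hGv j z) hk.le
  have hgk : ∀ z, Summable fun j => ‖G j z‖ ^ k := fun z =>
    Summable.of_nonneg_of_le (fun _ => by positivity) (fun j => hgk' j z) (hvk.mul_right (A ^ k))
  have hpt : ∀ z, ‖∑' j, G j z‖ ^ k ≤ ∑' j, ‖G j z‖ ^ k := fun z =>
    (Real.rpow_le_rpow (norm_nonneg _) (norm_tsum_le_tsum_norm (hgs z)) hk.le).trans
      (rpow_tsum_le hk hk1 _ (fun j => norm_nonneg _) (hgs z) (hgk z))
  have hcs : Continuous fun z => ∑' j, G j z :=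
    continuous_tsum hG (hvs.mul_right A) fun j z => hGv j z
  have hck : Continuous fun z => ∑' j, ‖G j z‖ ^ k := by
    refine continuous_tsum (fun j => continuous_norm_rpow (hG j) hk.le)
      (hvk.mul_right (A ^ k)) fun j z => ?_
    rw [Real.norm_of_nonneg (by positivity)]
    exact hgk' j z
  have h1 : mo k (fun z => ∑' j, G j z) ≤ ∫ z, ∑' j, ‖G j z‖ ^ k ∂tor := by
    unfold mo
    exact integral_mono (integrable_tor' (continuous_norm_rpow hcs hk.le)) (integrable_tor' hck)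
      hpt
  refine h1.trans ?_
  have hsB : Summable fun j => v j ^ k * B := hvk.mul_right B
  have hsum2 : Summable fun j : ℕ => ∫ z, ‖‖G j z‖ ^ k‖ ∂tor := by
    refine Summable.of_nonneg_of_le (fun j => integral_nonneg fun z => norm_nonneg _)
      (fun j => ?_) hsB
    refine le_trans (le_of_eq ?_) (hB j)
    unfold mo
    refine integral_congr_ae (Eventually.of_forall fun z => ?_)
    simp only
    rw [Real.norm_of_nonneg (by positivity)]
  have h := integral_tsum_of_summable_integral_norm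
    (fun j => integrable_tor' (continuous_norm_rpow (hG j) hk.le)) hsum2
  rw [← h, ← tsum_mul_right]
  refine Summable.tsum_le_tsum hB ?_ hsB
  exact Summable.of_nonneg_of_le (fun j => mo_nonneg _ _) hB hsB

lemma factored_of_le {K n : ℕ} (hn : n ≠ 0) (h : n ≤ K) :
    n ∈ Nat.factoredNumbers (sq (Finset.range K)) := by
  rw [Nat.mem_factoredNumbers']
  intro p hp hpn
  have h1 : p ≤ n := Nat.le_of_dvd (Nat.pos_of_ne_zero hn) hpn
  unfold sq
  refine Finset.mem_image.2 ⟨Nat.count Nat.Prime p, ?_, Nat.nth_count hp⟩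
  rw [Finset.mem_range]
  have h2 : Nat.count Nat.Prime p ≤ p := Nat.count_le _
  rcases h2.lt_or_eq with h3 | h3
  · omega
  · exfalso
    -- all numbers below `p` would be prime
    have h5 := Nat.add_two_le_nth_prime (Nat.count Nat.Prime p)
    rw [Nat.nth_count hp] at h5
    omega

lemma SK_eq (N : ℕ) : SK (KK N) N = SN N := by
  funext z
  unfold SK SN DPol
  refine Finset.sum_congr rfl fun n hn => ?_
  obtain ⟨h1, h2⟩ := Finset.mem_Icc.1 hn
  unfold cq
  rw [if_pos (factored_of_le (by omega) (h2.trans (KK_ge' N)))]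

/-- weights of the series -/
lemma expc_le (c j : ℕ) : Real.exp c ^ j * (1 / (j.factorial : ℝ)) ≤
    Real.exp (2 * Real.exp c) * (1 / 2 : ℝ) ^ j := by
  have h := Real.pow_div_factorial_le_exp (2 * Real.exp c) (by positivity) j
  rw [mul_pow] at h
  have h2 : (0 : ℝ) < 2 ^ j := by positivity
  rw [one_div_pow]
  rw [mul_one_div, mul_one_div, le_div_iff₀ h2]
  calc Real.exp c ^ j / (j.factorial : ℝ) * 2 ^ j = 2 ^ j * Real.exp c ^ j / (j.factorial : ℝ) := by
        ring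
    _ ≤ _ := h

/-- the coefficients of the finite combination -/
noncomputable def hc (c J : ℕ) (i : Fin (c * J + 1)) : ℂ :=
  ∑ j ∈ Finset.range J, if c * j = 1 + (i : ℕ) then hh j * ((Real.exp c : ℝ) : ℂ) ^ j else 0

lemma PQ_hc (c J : ℕ) (hc1 : 1 ≤ c) (N : ℕ) (z : Tor) :
    PQ (c * J) (hc c J) N z = ∑ j ∈ Finset.range J,
      hh j * ((Real.exp c : ℝ) : ℂ) ^ j * FF N (((c * j : ℕ) : ℝ) : ℂ) z := by
  unfold PQ hc
  simp_rw [Finset.sum_mul]
  rw [Finset.sum_comm]
  refine Finset.sum_congr rfl fun j hj => ?_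
  rcases Nat.eq_zero_or_pos j with rfl | hj0
  · have : ∀ i : Fin (c * J + 1), ¬ (c * 0 = 1 + (i : ℕ)) := fun i => by omega
    simp [hh]
  · have hcj : 1 ≤ c * j := Nat.mul_pos hc1 hj0
    have hlt : c * j - 1 < c * J + 1 := by
      have : c * j ≤ c * J := Nat.mul_le_mul_left c (Finset.mem_range.1 hj).le
      omega
    rw [Finset.sum_eq_single (⟨c * j - 1, hlt⟩ : Fin (c * J + 1))]
    · rw [if_pos (by simp only; omega)]
      congr 2
      unfold pt
      simp only
      have : ((c * j : ℕ) : ℝ) = 1 + ((c * j - 1 : ℕ) : ℝ) := by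
        have : c * j = 1 + (c * j - 1) := by omega
        exact_mod_cast this
      rw [this]
    · intro i _ hi
      rw [if_neg (fun h => hi (Fin.ext (by simp only; omega))), zero_mul]
    · intro h
      exact absurd (Finset.mem_univ _) h

lemma dl_rpow_exp {N : ℕ} (hN : 2 ≤ N) (c : ℝ) : (N : ℝ) ^ (c * dl N) = Real.exp c := by
  have hN0 : (0 : ℝ) < N := by exact_mod_cast (by omega : 0 < N)
  rw [Real.rpow_def_of_pos hN0]
  congr 1
  have := log_dl hN
  calc Real.log N * (c * dl N) = c * (dl N * Real.log N) := by ring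
    _ = c := by rw [this, mul_one]

/-- approximation of the smooth cut -/
lemma W_approx {k : ℝ} (hk : 0 < k) (hk1 : k ≤ 1) (c : ℕ) (hc1 : 1 ≤ c) (ε : ℝ) (hε : 0 < ε) :
    ∃ J : ℕ, ∀ N : ℕ, 2 ≤ N → mo k (fun z =>
      W (Finset.range (KK N)) (c * dl N) ((N : ℝ) ^ (c * dl N)) z - PQ (c * J) (hc c J) N z) ≤
      ε * ZZ k N := by
  obtain ⟨CF, hCF, hF⟩ := mo_FF_le k
  set E : ℝ := Real.exp (2 * Real.exp c) with hE
  have hE0 : 0 < E := Real.exp_pos _
  have hgeo : Summable fun j : ℕ => (E * (1 / 2 : ℝ) ^ j) ^ k := by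
    have h : Summable fun j : ℕ => E ^ k * ((1 / 2 : ℝ) ^ k) ^ j := by
      refine Summable.mul_left _ (summable_geometric_of_lt_one (by positivity) ?_)
      exact Real.rpow_lt_one (by norm_num) (by norm_num) hk
    refine h.congr fun j => ?_
    rw [Real.mul_rpow hE0.le (by positivity), ← Real.rpow_natCast, ← Real.rpow_natCast,
      ← Real.rpow_mul (by norm_num), ← Real.rpow_mul (by norm_num), mul_comm k]
  set S : ℝ := ∑' j : ℕ, (E * (1 / 2 : ℝ) ^ j) ^ k with hS
  have hS0 : 0 ≤ S := tsum_nonneg fun j => by positivity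
  obtain ⟨J, hJ1, hJ⟩ : ∃ J : ℕ, 1 ≤ J ∧ ((1 / 2 : ℝ) ^ k) ^ J * (S * CF) ≤ ε := by
    have h1 : Tendsto (fun J : ℕ => ((1 / 2 : ℝ) ^ k) ^ J * (S * CF)) atTop (𝓝 (0 * (S * CF))) :=
      (tendsto_pow_atTop_nhds_zero_of_lt_one (by positivity)
        (Real.rpow_lt_one (by norm_num) (by norm_num) hk)).mul_const _
    rw [zero_mul] at h1
    obtain ⟨J, h2, h3⟩ := ((h1.eventually (gt_mem_nhds hε)).and (eventually_ge_atTop 1)).exists
    exact ⟨J, h3, h2.le⟩
  refine ⟨J, fun N hN => ?_⟩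
  have hδ := dl_nonneg N
  have hcδ : 0 ≤ (c : ℝ) * dl N := by positivity
  set K := KK N with hK
  set term : ℕ → Tor → ℂ := fun j z => hh j * ((Real.exp c : ℝ) : ℂ) ^ j *
    FF N (((c * j : ℕ) : ℝ) : ℂ) z with hterm
  have hsp : ∀ j : ℕ, EP (Finset.range K) (sp (c * dl N) j) = FF N (((c * j : ℕ) : ℝ) : ℂ) := by
    intro j
    rw [FF_EP]
    unfold sp
    congr 1
    push_cast
    ring
  set A : ℝ := ∑' n, ‖cq (Finset.range K) (1 / 2) n‖ with hA
  have hA0 : 0 ≤ A := tsum_nonneg fun n => norm_nonneg _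
  have hnF : ∀ (j : ℕ) z, ‖FF N (((c * j : ℕ) : ℝ) : ℂ) z‖ ≤ A := by
    intro j z
    rw [← hsp]
    exact norm_EP_sp _ hcδ j z
  have htn : ∀ j z, ‖term j z‖ ≤ (E * (1 / 2 : ℝ) ^ j) * ‖FF N (((c * j : ℕ) : ℝ) : ℂ) z‖ := by
    intro j z
    simp only [hterm]
    rw [norm_mul, norm_mul, norm_pow, Complex.norm_real, Real.norm_of_nonneg (Real.exp_pos _).le]
    refine mul_le_mul_of_nonneg_right ?_ (norm_nonneg _)
    rw [mul_comm]
    refine (mul_le_mul_of_nonneg_left (norm_hh j) (by positivity)).trans ?_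
    exact expc_le c j
  have hgeo1 : Summable fun j : ℕ => E * (1 / 2 : ℝ) ^ j :=
    Summable.mul_left _ summable_geometric_two
  have hts : ∀ z, Summable fun j => term j z := by
    intro z
    refine Summable.of_norm (Summable.of_nonneg_of_le (fun _ => norm_nonneg _) (fun j => ?_)
      (hgeo1.mul_right A))
    exact (htn j z).trans (mul_le_mul_of_nonneg_left (hnF j z) (by positivity))
  have hW : ∀ z, W (Finset.range K) (c * dl N) ((N : ℝ) ^ (c * dl N)) z = ∑' j, term j z := by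
    intro z
    rw [W_series _ hcδ (by positivity), dl_rpow_exp hN]
    refine tsum_congr fun j => ?_
    simp only [hterm]
    rw [hsp]
  have hdiff : ∀ z, W (Finset.range K) (c * dl N) ((N : ℝ) ^ (c * dl N)) z -
      PQ (c * J) (hc c J) N z = ∑' j, term (j + J) z := by
    intro z
    rw [hW, PQ_hc c J hc1, ← (hts z).sum_add_tsum_nat_add J]
    simp only [hterm]
    ring
  simp_rw [hdiff]
  have hcF : ∀ j : ℕ, Continuous (FF N (((c * j : ℕ) : ℝ) : ℂ)) := fun j =>
    continuous_FF N _ (by rw [Complex.ofReal_re]; positivity)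
  have e1 : ∀ j : ℕ, (E * (1 / 2 : ℝ) ^ (j + J)) ^ k =
      ((1 / 2 : ℝ) ^ k) ^ J * (E * (1 / 2 : ℝ) ^ j) ^ k := by
    intro j
    rw [pow_add, ← mul_assoc, Real.mul_rpow (by positivity) (by positivity), mul_comm]
    congr 1
    rw [← Real.rpow_natCast, ← Real.rpow_natCast,
      ← Real.rpow_mul (by norm_num), ← Real.rpow_mul (by norm_num), mul_comm k]
  have hm := mo_tsum hk hk1 (fun j => term (j + J)) (fun j => by
    simp only [hterm]
    exact continuous_const.mul (hcF (j + J)))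
    (fun j => E * (1 / 2 : ℝ) ^ (j + J)) (fun j => by positivity) A hA0
    (fun j z => (htn (j + J) z).trans (mul_le_mul_of_nonneg_left (hnF _ z) (by positivity)))
    ((summable_nat_add_iff J).2 hgeo1) (by
      simp_rw [e1]
      exact hgeo.mul_left _) (CF * ZZ k N) (fun j => by
      have hj1 : (1 : ℝ) ≤ ((c * (j + J) : ℕ) : ℝ) := by
        exact_mod_cast Nat.mul_pos hc1 (by omega)
      have h5 := hF N _ hj1
      have h6 : mo k (term (j + J)) ≤ (E * (1 / 2 : ℝ) ^ (j + J)) ^ k *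
          mo k (FF N (((c * (j + J) : ℕ) : ℝ) : ℂ)) := by
        unfold mo
        rw [← integral_const_mul]
        have hct : Continuous (term (j + J)) := by
          simp only [hterm]
          exact continuous_const.mul (hcF (j + J))
        refine integral_mono (integrable_tor' (continuous_norm_rpow hct hk.le))
          (integrable_tor' (continuous_const.mul (continuous_norm_rpow (hcF (j + J)) hk.le)))
          fun z => ?_
        simp only
        rw [← Real.mul_rpow (by positivity) (norm_nonneg _)]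
        exact Real.rpow_le_rpow (norm_nonneg _) (htn _ z) hk.le
      exact h6.trans (mul_le_mul_of_nonneg_left h5 (by positivity)))
  simp_rw [e1] at hm
  rw [tsum_mul_left] at hm
  refine hm.trans ?_
  calc ((1 / 2 : ℝ) ^ k) ^ J * S * (CF * ZZ k N) = ((1 / 2 : ℝ) ^ k) ^ J * (S * CF) * ZZ k N := by
        ring
    _ ≤ ε * ZZ k N := mul_le_mul_of_nonneg_right hJ (ZZ_pos k N).le

lemma abs_mo_sub_le {k : ℝ} (hk : 0 < k) (hk1 : k ≤ 1) {G H : Tor → ℂ} (hG : Continuous G)
    (hH : Continuous H) : |mo k G - mo k H| ≤ mo k (fun z => G z - H z) := by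
  rw [abs_le]
  have h1 := mo_le hk hk1 hG hH
  have h2 := mo_le hk hk1 hH hG
  rw [mo_sub_comm] at h2
  constructor <;> linarith

/-- the smooth cut is close to the sharp cut -/
lemma SN_W {k : ℝ} (hk : 0 < k) (hk1 : k ≤ 1) : ∃ C : ℝ, 0 < C ∧ ∀ c : ℕ, 1 ≤ c →
    ∀ᶠ N in atTop, mo k (fun z => SN N z -
      W (Finset.range (KK N)) (c * dl N) ((N : ℝ) ^ (c * dl N)) z) ≤
      C * ((c : ℝ) * dl N)⁻¹ ^ (k ^ 2 / 4) := by
  obtain ⟨C, hC, h⟩ := all_scales hk hk1
  refine ⟨C, hC, fun c hc => ?_⟩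
  have hc0 : (0 : ℝ) < c := by exact_mod_cast hc
  have h1 : Tendsto (fun N => (c : ℝ) * dl N) atTop (𝓝 ((c : ℝ) * 0)) := dl_tendsto.const_mul _
  rw [mul_zero] at h1
  filter_upwards [h1.eventually (gt_mem_nhds (by norm_num : (0 : ℝ) < 1 / 24)),
    eventually_ge_atTop 3] with N hN hN3
  have hδ : 0 < dl N := dl_pos (by omega)
  obtain ⟨M, hM⟩ := exists_Sc ((c : ℝ) * dl N)
  have hMK : M ≤ KK N := by
    -- the number of primes up to `N^(1/c)` is at most `N`
    by_contra hcon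
    have h2 := (hM (KK N)).1 (not_le.1 hcon)
    have h3 : (N : ℝ) < Nat.nth Nat.Prime (KK N) := by
      have := Nat.add_two_le_nth_prime (KK N)
      have := KK_ge' N
      exact_mod_cast (by omega : N < Nat.nth Nat.Prime (KK N))
    have hN0 : (0 : ℝ) < N := by exact_mod_cast (by omega : 0 < N)
    have h4 := Real.log_lt_log hN0 h3
    have h5 : 1 / ((c : ℝ) * dl N) ≤ Real.log N := by
      rw [div_le_iff₀ (by positivity)]
      have h6 := log_dl (N := N) (by omega)
      have h7 : (1 : ℝ) ≤ c := by exact_mod_cast hc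
      calc (1 : ℝ) ≤ c * 1 := by linarith
        _ = c * (dl N * Real.log N) := by rw [h6]
        _ = _ := by ring
    linarith
  have h2 := h M (KK N) N (c * dl N) (by positivity) hN.le hM hMK (by omega)
  rw [SK_eq] at h2
  rw [one_div] at h2
  exact h2

theorem SN_lim1 {k : ℝ} (hk : 0 < k) (hk1 : k ≤ 1) :
    ∃ l : ℝ, Tendsto (fun N => mo k (SN N) / ZZ k N) atTop (𝓝 l) := by
  obtain ⟨C, hC, hSW⟩ := SN_W hk hk1
  have hZ := ZZ_lim k
  set A := Gk (k / 2) * Real.exp ((k / 2) ^ 2 * -Real.log 2) with hA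
  have hA0 : 0 < A := mul_pos (Gk_pos _) (Real.exp_pos _)
  have hZev := hZ.eventually (lt_mem_nhds (half_lt_self hA0))
  refine conv_of_approx _ fun ε hε => ?_
  have hq : 0 < k ^ 2 / 4 := by positivity
  obtain ⟨c, hc1, hc⟩ : ∃ c : ℕ, 1 ≤ c ∧ C * (c : ℝ) ^ (-(k ^ 2 / 4)) ≤ ε / 2 * (A / 2) := by
    have h1 : Tendsto (fun c : ℕ => C * (c : ℝ) ^ (-(k ^ 2 / 4))) atTop (𝓝 (C * 0)) :=
      ((tendsto_rpow_neg_atTop hq).comp tendsto_natCast_atTop_atTop).const_mul C
    rw [mul_zero] at h1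
    obtain ⟨c, h2, h3⟩ := ((h1.eventually (gt_mem_nhds (by positivity :
      (0 : ℝ) < ε / 2 * (A / 2)))).and (eventually_ge_atTop 1)).exists
    exact ⟨c, h3, h2.le⟩
  have hc0 : (0 : ℝ) < c := by exact_mod_cast hc1
  obtain ⟨J, hJ⟩ := W_approx hk hk1 c hc1 (ε / 2) (by positivity)
  refine ⟨fun N => mo k (PQ (c * J) (Pool.Agent.H7.PL.hc c J) N) / ZZ k N, PQ_lim hk _ _, ?_⟩
  filter_upwards [hSW c hc1, hZev, eventually_ge_atTop 2] with N h1 h2 h3
  have hδ := dl_pos h3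
  have hZp := ZZ_pos k N
  have cW : Continuous (W (Finset.range (KK N)) (c * dl N) ((N : ℝ) ^ (c * dl N))) :=
    continuous_W _ (by positivity)
  rw [← sub_div, abs_div, abs_of_pos hZp, div_le_iff₀ hZp]
  refine (abs_mo_sub_le hk hk1 (continuous_SN N) (continuous_PQ _ _ N)).trans ?_
  refine (mo_tri hk hk1 (continuous_SN N) (continuous_PQ _ _ N) cW).trans ?_
  have h4 := hJ N h3
  have h5 : C * ((c : ℝ) * dl N)⁻¹ ^ (k ^ 2 / 4) ≤ ε / 2 * ZZ k N := by
    have e : (k / 2) ^ 2 = k ^ 2 / 4 := by ring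
    rw [e] at h2
    have hdp : 0 < dl N ^ (k ^ 2 / 4) := Real.rpow_pos_of_pos hδ _
    rw [mul_inv, Real.mul_rpow (by positivity) (by positivity), Real.inv_rpow hc0.le,
      Real.inv_rpow hδ.le, ← Real.rpow_neg hc0.le]
    calc C * ((c : ℝ) ^ (-(k ^ 2 / 4)) * (dl N ^ (k ^ 2 / 4))⁻¹) =
        (C * (c : ℝ) ^ (-(k ^ 2 / 4))) * (dl N ^ (k ^ 2 / 4))⁻¹ := by ring
      _ ≤ (ε / 2 * (A / 2)) * (dl N ^ (k ^ 2 / 4))⁻¹ :=
        mul_le_mul_of_nonneg_right hc (by positivity)
      _ ≤ (ε / 2 * (ZZ k N * dl N ^ (k ^ 2 / 4))) * (dl N ^ (k ^ 2 / 4))⁻¹ := by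
        gcongr
      _ = ε / 2 * ZZ k N := by field_simp
  calc _ ≤ C * ((c : ℝ) * dl N)⁻¹ ^ (k ^ 2 / 4) + ε / 2 * ZZ k N := add_le_add h1 h4
    _ ≤ ε / 2 * ZZ k N + ε / 2 * ZZ k N := by linarith
    _ = ε * ZZ k N := by ring

end Pool.Agent.H7.PL
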