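import Pool.Agent.H7.PL.L11

set_option autoImplicit false
open MeasureTheory Metric Filter
open scoped ComplexConjugate ENNReal Topology

/-! Moments decrease when the large primes are averaged out. -/

namespace Pool.Agent.H7.PL

open Pool.Agent.Helper873.OneVar Pool.Agent.Helper873.Product Pool.Agent.Helper873.Embed
  Pool.Agent.Helper873.Monomial Pool.Agent.H7.PM

lemma pow_factor (b : ℂ) (hb : ‖b‖ ≤ 1) (κ : ℝ) (hκ : 0 < κ) :
    ∃ h : ℂ → ℂ, DiffContOnCl ℂ h (ball 0 1) ∧ ∀ z, ‖h z‖ = ‖1 - b * z‖ ^ κ := by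
  refine ⟨fun z => (1 - b * z) ^ (κ : ℂ), ⟨?_, ?_⟩, fun z => Complex.norm_cpow_real _ _⟩
  · intro z hz
    rw [mem_ball_zero_iff] at hz
    have hre : 0 < (1 - b * z).re := by
      have : ‖b * z‖ < 1 := by
        rw [norm_mul]
        calc ‖b‖ * ‖z‖ ≤ 1 * ‖z‖ := by gcongr
          _ < 1 := by simpa using hz
      have h2 := Complex.re_le_norm (b * z)
      simp only [Complex.sub_re, Complex.one_re]
      linarith
    refine DifferentiableAt.differentiableWithinAt ?_
    refine DifferentiableAt.cpow (by fun_prop) (by fun_prop) ?_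
    exact Or.inl hre
  · rw [closure_ball _ one_ne_zero]
    intro z hz
    rw [mem_closedBall_zero_iff] at hz
    have hre : 0 ≤ (1 - b * z).re := by
      have : ‖b * z‖ ≤ 1 := by
        rw [norm_mul]
        calc ‖b‖ * ‖z‖ ≤ 1 * 1 := by gcongr
          _ = 1 := by simp
      have h2 := Complex.re_le_norm (b * z)
      simp only [Complex.sub_re, Complex.one_re]
      linarith
    refine ContinuousAt.continuousWithinAt ?_
    have h1 : ContinuousAt (fun x : ℂ => x ^ (κ : ℂ)) (1 - b * z) :=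
      Complex.continuousAt_cpow_const_of_re_pos (Or.inl hre) (by simpa using hκ)
    exact ContinuousAt.comp (f := fun z : ℂ => 1 - b * z) (g := fun x : ℂ => x ^ (κ : ℂ))
      h1 (by fun_prop)

lemma outer_factor' (a : ℂ) (κ : ℝ) (hκ : 0 < κ) :
    ∃ h : ℂ → ℂ, DiffContOnCl ℂ h (ball 0 1) ∧ (∀ z, ‖z‖ = 1 → ‖h z‖ = ‖z - a‖ ^ κ) ∧
      ∀ z, ‖z‖ < 1 → ‖z - a‖ ^ κ ≤ ‖h z‖ := by
  by_cases ha : ‖a‖ ≤ 1
  · obtain ⟨h, h1, h2⟩ := pow_factor (conj a) (by simpa using ha) κ hκ
    refine ⟨h, h1, fun z hz => ?_, fun z hz => ?_⟩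
    · rw [h2, norm_sub_eq_of_circle a z hz]
    · rw [h2]
      exact Real.rpow_le_rpow (norm_nonneg _) (norm_sub_le_of_disc a z ha hz.le) hκ.le
  · push Not at ha
    have ha0 : a ≠ 0 := by
      rintro rfl
      simp at ha
      linarith
    obtain ⟨h, h1, h2⟩ := pow_factor a⁻¹
      (by rw [norm_inv]; exact inv_le_one_of_one_le₀ ha.le) κ hκ
    have key : ∀ z, ‖((‖a‖ ^ κ : ℝ) : ℂ) * h z‖ = ‖z - a‖ ^ κ := by
      intro z
      rw [norm_mul, h2, Complex.norm_real, Real.norm_of_nonneg (by positivity),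
        ← Real.mul_rpow (norm_nonneg _) (norm_nonneg _), ← norm_mul, mul_sub, mul_one, ← mul_assoc,
        mul_inv_cancel₀ ha0, one_mul, norm_sub_rev]
    refine ⟨fun z => ((‖a‖ ^ κ : ℝ) : ℂ) * h z, ?_, fun z _ => key z,
      fun z _ => (key z).ge⟩
    exact h1.const_smul ((‖a‖ ^ κ : ℝ) : ℂ)

lemma exists_outer' (g : Polynomial ℂ) (κ : ℝ) (hκ : 0 < κ) :
    ∃ h : ℂ → ℂ, DiffContOnCl ℂ h (ball 0 1) ∧ (∀ z, ‖z‖ = 1 → ‖h z‖ = ‖g.eval z‖ ^ κ) ∧
      ∀ z, ‖z‖ < 1 → ‖g.eval z‖ ^ κ ≤ ‖h z‖ := by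
  have key : ∀ s : Multiset ℂ, ∃ h : ℂ → ℂ, DiffContOnCl ℂ h (ball 0 1) ∧
      (∀ z, ‖z‖ = 1 → ‖h z‖ = ‖((s.map fun a => Polynomial.X - Polynomial.C a).prod).eval z‖ ^ κ) ∧
      ∀ z, ‖z‖ < 1 → ‖((s.map fun a => Polynomial.X - Polynomial.C a).prod).eval z‖ ^ κ ≤
        ‖h z‖ := by
    intro s
    induction s using Multiset.induction_on with
    | empty =>
      refine ⟨fun _ => 1, diffContOnCl_const, ?_, ?_⟩ <;> simp
    | cons a s ih =>
      obtain ⟨h, h1, h2, h3⟩ := ih
      obtain ⟨k, k1, k2, k3⟩ := outer_factor' a κ hκ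
      refine ⟨fun z => k z * h z, k1.smul h1, fun z hz => ?_, fun z hz => ?_⟩
      · simp only [Multiset.map_cons, Multiset.prod_cons, Polynomial.eval_mul,
          Polynomial.eval_sub, Polynomial.eval_X, Polynomial.eval_C, norm_mul]
        rw [k2 z hz, h2 z hz, Real.mul_rpow (norm_nonneg _) (norm_nonneg _)]
      · simp only [Multiset.map_cons, Multiset.prod_cons, Polynomial.eval_mul,
          Polynomial.eval_sub, Polynomial.eval_X, Polynomial.eval_C, norm_mul]
        rw [Real.mul_rpow (norm_nonneg _) (norm_nonneg _)]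
        exact mul_le_mul (k3 z hz) (h3 z hz) (by positivity) (by positivity)
  obtain ⟨h, h1, h2, h3⟩ := key g.roots
  have hg : g = Polynomial.C g.leadingCoeff *
      (g.roots.map fun a => Polynomial.X - Polynomial.C a).prod :=
    (IsAlgClosed.splits g).eq_prod_roots
  have hval : ∀ z, ‖g.eval z‖ ^ κ = ‖g.leadingCoeff‖ ^ κ *
      ‖((g.roots.map fun a => Polynomial.X - Polynomial.C a).prod).eval z‖ ^ κ := by
    intro z
    conv_lhs => rw [hg]
    rw [Polynomial.eval_mul, Polynomial.eval_C, norm_mul,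
      Real.mul_rpow (norm_nonneg _) (norm_nonneg _)]
  have hn : ∀ z, ‖((‖g.leadingCoeff‖ ^ κ : ℝ) : ℂ) * h z‖ = ‖g.leadingCoeff‖ ^ κ * ‖h z‖ := by
    intro z
    rw [norm_mul, Complex.norm_real, Real.norm_of_nonneg (by positivity)]
  refine ⟨fun z => ((‖g.leadingCoeff‖ ^ κ : ℝ) : ℂ) * h z,
    h1.const_smul ((‖g.leadingCoeff‖ ^ κ : ℝ) : ℂ), fun z hz => ?_, fun z hz => ?_⟩
  · rw [hn, hval, h2 z hz]
  · rw [hn, hval]
    exact mul_le_mul_of_nonneg_left (h3 z hz) (by positivity)

/-- subharmonicity of the powers of the modulus of a polynomial -/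
lemma poly_mean (g : Polynomial ℂ) (κ : ℝ) (hκ : 0 < κ) :
    ‖g.eval 0‖ ^ κ ≤ ∫ t, ‖g.eval (zet t)‖ ^ κ ∂cir := by
  obtain ⟨h, h1, h2, h3⟩ := exists_outer' g κ hκ
  refine (h3 0 (by simp)).trans ?_
  rw [← mean_zet h1]
  refine (norm_integral_le_integral_norm _).trans (le_of_eq ?_)
  refine integral_congr_ae (Eventually.of_forall fun t => ?_)
  exact h2 (zet t) (norm_zet t)

/-- rotation of all large primes by the same angle -/
def ra (M : ℕ) (t : UnitAddCircle) : Tor := fun j => if j < M then 0 else t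

lemma continuous_ra (M : ℕ) : Continuous (ra M) := by
  refine continuous_pi fun j => ?_
  unfold ra
  by_cases h : j < M
  · simp only [if_pos h]; exact continuous_const
  · simp only [if_neg h]; exact continuous_id

lemma zet_zero : zet 0 = 1 := by
  unfold zet
  simp

/-- number of large prime factors -/
noncomputable def om (M n : ℕ) : ℕ := ∑ j ∈ Finset.range n, if j < M then 0 else ex n j

lemma stf_ra (M n : ℕ) (t : UnitAddCircle) : stf n (ra M t) = zet t ^ om M n := by
  unfold stf mon om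
  rw [← Finset.prod_pow_eq_pow_sum]
  refine Finset.prod_congr rfl fun j _ => ?_
  unfold ra
  by_cases h : j < M
  · simp [h, zet_zero]
  · simp [h]

lemma om_eq_zero {M n : ℕ} (hn : n ≠ 0) :
    om M n = 0 ↔ n ∈ Nat.factoredNumbers (sq (Finset.range M)) := by
  unfold om
  rw [Finset.sum_eq_zero_iff]
  constructor
  · intro h
    rw [Nat.mem_factoredNumbers']
    intro p hp hpn
    have hj : Nat.nth Nat.Prime (Nat.count Nat.Prime p) = p := Nat.nth_count hp
    have hlt : Nat.count Nat.Prime p < n := by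
      have h5 := Nat.add_two_le_nth_prime (Nat.count Nat.Prime p)
      rw [hj] at h5
      have := Nat.le_of_dvd (Nat.pos_of_ne_zero hn) hpn
      omega
    have h1 := h _ (Finset.mem_range.2 hlt)
    unfold sq
    refine Finset.mem_image.2 ⟨Nat.count Nat.Prime p, ?_, hj⟩
    rw [Finset.mem_range]
    by_contra hcon
    rw [if_neg hcon] at h1
    unfold ex at h1
    rw [hj] at h1
    have h2 : p ∈ n.factorization.support := by
      rw [Nat.support_factorization, Nat.mem_primeFactors]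
      exact ⟨hp, hpn, hn⟩
    exact (Finsupp.mem_support_iff.1 h2) h1
  · intro h j _
    by_cases hj : j < M
    · rw [if_pos hj]
    · rw [if_neg hj]
      exact factored_ex h j (by simpa using hj)

/-- **averaging out the large primes** -/
theorem mo_contract {k : ℝ} (hk : 0 < k) (M N : ℕ) : mo k (SK M N) ≤ mo k (SN N) := by
  classical
  have hc := continuous_SN N
  have hcj : Continuous fun q : Tor × UnitAddCircle => ‖SN N (q.1 + ra M q.2)‖ ^ k :=
    (hc.comp (continuous_fst.add ((continuous_ra M).comp continuous_snd))).norm.rpow_const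
      fun _ => Or.inr hk.le
  have h1 : ∀ t : UnitAddCircle, ∫ z, ‖SN N (z + ra M t)‖ ^ k ∂tor = mo k (SN N) := fun t =>
    int_add (ra M t) (fun z => ‖SN N z‖ ^ k) (continuous_norm_rpow hc hk.le)
  have h2 : mo k (SN N) = ∫ t, ∫ z, ‖SN N (z + ra M t)‖ ^ k ∂tor ∂cir := by
    simp_rw [h1]
    simp
  have h3 : ∫ t, ∫ z, ‖SN N (z + ra M t)‖ ^ k ∂tor ∂cir =
      ∫ z, ∫ t, ‖SN N (z + ra M t)‖ ^ k ∂cir ∂tor := by
    have h4 : Integrable (fun q : Tor × UnitAddCircle => ‖SN N (q.1 + ra M q.2)‖ ^ k)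
        (tor.prod cir) :=
      hcj.integrable_of_hasCompactSupport (HasCompactSupport.of_compactSpace _)
    exact (integral_integral_swap (f := fun z t => ‖SN N (z + ra M t)‖ ^ k) h4).symm
  rw [h2, h3]
  have hint : Integrable (fun z => ∫ t, ‖SN N (z + ra M t)‖ ^ k ∂cir) tor := by
    have h4 : Integrable (fun q : Tor × UnitAddCircle => ‖SN N (q.1 + ra M q.2)‖ ^ k)
        (tor.prod cir) :=
      hcj.integrable_of_hasCompactSupport (HasCompactSupport.of_compactSpace _)
    exact h4.integral_prod_left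
  unfold mo
  refine integral_mono (integrable_tor' (continuous_norm_rpow (continuous_SK M N) hk.le)) hint
    fun z => ?_
  simp only
  set g : Polynomial ℂ := ∑ n ∈ Finset.Icc 1 N,
    Polynomial.C ((n : ℂ) ^ (-(1 / 2) : ℂ) * stf n z) * Polynomial.X ^ om M n with hg
  have e1 : ∀ t, SN N (z + ra M t) = g.eval (zet t) := by
    intro t
    rw [hg, Polynomial.eval_finsetSum]
    unfold SN DPol
    refine Finset.sum_congr rfl fun n _ => ?_
    rw [Polynomial.eval_mul, Polynomial.eval_C, Polynomial.eval_pow, Polynomial.eval_X, stf_add,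
      stf_ra, mul_assoc]
  have e2 : SK M N z = g.eval 0 := by
    rw [hg, Polynomial.eval_finsetSum]
    unfold SK
    refine Finset.sum_congr rfl fun n hn => ?_
    have hn0 : n ≠ 0 := by have := (Finset.mem_Icc.1 hn).1; omega
    rw [Polynomial.eval_mul, Polynomial.eval_C, Polynomial.eval_pow, Polynomial.eval_X]
    unfold cq
    by_cases h : n ∈ Nat.factoredNumbers (sq (Finset.range M))
    · rw [if_pos h, (om_eq_zero hn0).2 h, pow_zero, mul_one]
    · rw [if_neg h, zero_pow (fun h' => h ((om_eq_zero hn0).1 h')), mul_zero, zero_mul]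
  simp_rw [e1]
  rw [e2]
  exact poly_mean g k hk

end Pool.Agent.H7.PL
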