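import Pool.Agent.H7.PL.L12

set_option autoImplicit false
open MeasureTheory Metric Filter
open scoped ComplexConjugate ENNReal Topology

/-! Positivity of the limit. -/

namespace Pool.Agent.H7.PL

open Pool.Agent.Helper873.OneVar Pool.Agent.Helper873.Product Pool.Agent.Helper873.Embed
  Pool.Agent.Helper873.Monomial Pool.Agent.H7.PM

lemma norm_px_half (j : ℕ) : ‖px (1 / 2) j‖ ^ 2 = 1 / (Nat.nth Nat.Prime j : ℝ) := by
  have h := two_le_p j
  rw [norm_px, ← Real.rpow_natCast, ← Real.rpow_mul (by linarith)]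
  have e : -(1 / 2 : ℂ).re * ((2 : ℕ) : ℝ) = -1 := by norm_num
  rw [e, Real.rpow_neg_one, one_div]

/-- lower bound for the local factor -/
lemma e1_lower {k : ℝ} (hk : 0 < k) (hk1 : k ≤ 1) (j : ℕ) :
    Real.exp (k ^ 2 / 4 * (1 / (Nat.nth Nat.Prime j : ℝ)) -
      2 * (c1 k + 1) * (1 / (Nat.nth Nat.Prime j : ℝ)) ^ 2) ≤ e1 k (px (1 / 2) j) := by
  have hx : ‖px (1 / 2) j‖ ≤ 3 / 4 := norm_px_le _ (by norm_num) j
  have b1 := (abs_le.1 (e1_bound k (px (1 / 2) j) hx)).1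
  have b2 := e1_ge_one k (px (1 / 2) j) (by linarith)
  have e4 : ‖px (1 / 2) j‖ ^ 4 = (1 / (Nat.nth Nat.Prime j : ℝ)) ^ 2 := by
    rw [← norm_px_half]; ring
  rw [e4, norm_px_half] at b1
  have hp := two_le_p j
  set x : ℝ := 1 / (Nat.nth Nat.Prime j : ℝ) with hxdef
  have hx0 : 0 < x := by positivity
  have hx1 : x ≤ 1 / 2 := one_div_le_one_div_of_le (by norm_num) hp
  have hc := c1_nonneg k
  set q : ℝ := k ^ 2 / 4 with hq
  have hq0 : 0 < q := by positivity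
  have hq1 : q ≤ 1 / 4 := by rw [hq]; nlinarith
  set y : ℝ := q * x with hy
  have hy0 : 0 < y := by positivity
  have hy1 : y ≤ 1 / 8 := by rw [hy]; nlinarith
  set w : ℝ := 2 * (c1 k + 1) * x ^ 2 with hw
  have hw0 : 0 < w := by positivity
  rcases le_or_gt w 1 with h | h
  · have h1 : Real.exp (y - w) ≤ 1 / (1 - (y - w)) := by
      rw [le_div_iff₀ (by linarith)]
      have h2 := Real.add_one_le_exp (-(y - w))
      have h3 : Real.exp (y - w) * Real.exp (-(y - w)) = 1 := by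
        rw [← Real.exp_add]; simp
      calc Real.exp (y - w) * (1 - (y - w)) ≤ Real.exp (y - w) * Real.exp (-(y - w)) :=
            mul_le_mul_of_nonneg_left (by linarith) (Real.exp_pos _).le
        _ = 1 := h3
    refine h1.trans ?_
    rw [div_le_iff₀ (by linarith)]
    have hyx : y ^ 2 ≤ x ^ 2 := by
      have : y ≤ x := by rw [hy]; nlinarith
      gcongr
    -- `(1 + y - c x²) (1 - y + w) ≥ 1`
    have h4 : 1 ≤ (1 + y - c1 k * x ^ 2) * (1 - (y - w)) := by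
      have e : (1 + y - c1 k * x ^ 2) * (1 - (y - w)) =
          1 + (w - y ^ 2 - c1 k * x ^ 2) + y * w + c1 k * x ^ 2 * y - c1 k * x ^ 2 * w := by ring
      rw [e]
      have a1 : c1 k * x ^ 2 * w ≤ c1 k * x ^ 2 := by
        have : 0 ≤ c1 k * x ^ 2 := by positivity
        nlinarith
      have a2 : 0 ≤ y * w := by positivity
      have a3 : 0 ≤ c1 k * x ^ 2 * y := by positivity
      have a4 : w = 2 * (c1 k * x ^ 2) + 2 * x ^ 2 := by rw [hw]; ring
      nlinarith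
    have h5 : 0 < 1 - (y - w) := by linarith
    nlinarith
  · have h1 : Real.exp (y - w) ≤ 1 := Real.exp_le_one_iff.2 (by linarith)
    linarith

lemma mertens_lower : ∃ C : ℝ, 0 ≤ C ∧ ∀ (M : ℕ) (η : ℝ), 0 < η → η ≤ 1 / 24 → Sc M η →
    Real.log (1 / η) - C ≤ ∑ j ∈ Finset.range M, 1 / (Nat.nth Nat.Prime j : ℝ) := by
  obtain ⟨C1, h1⟩ := Pool.Agent.Helper256.KM.mertens_inv
  refine ⟨|C1| + Real.log 2, by
    have := Real.log_nonneg (by norm_num : (1 : ℝ) ≤ 2); positivity, fun M η hη hη1 hM => ?_⟩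
  set X := ⌊Real.exp (1 / η)⌋₊ with hX
  have h24 : 24 ≤ 1 / η := by rw [le_div_iff₀ hη]; linarith
  have hX3 : 3 ≤ X := by
    refine Nat.le_floor ?_
    have := Real.add_one_le_exp (1 / η)
    push_cast
    linarith
  have hXl : 1 / (2 * η) ≤ Real.log X := by
    have hc : Real.exp (1 / η) / 2 ≤ X := by
      have h10 := Nat.lt_floor_add_one (Real.exp (1 / η))
      have := Real.add_one_le_exp (1 / η)
      rw [← hX] at h10
      linarith
    have h11 := Real.log_le_log (by positivity) hc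
    rw [Real.log_div (Real.exp_pos _).ne' (by norm_num), Real.log_exp] at h11
    have h12 : Real.log 2 ≤ 1 := by
      have := Real.log_two_lt_d9
      linarith
    have h13 : 1 / (2 * η) = 1 / η / 2 := by field_simp
    rw [h13]
    linarith
  have h14 : Real.log (1 / (2 * η)) ≤ Real.log (Real.log X) := Real.log_le_log (by positivity) hXl
  have h15 : Real.log (1 / (2 * η)) = Real.log (1 / η) - Real.log 2 := by
    have : 1 / (2 * η) = 1 / η / 2 := by field_simp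
    rw [this, Real.log_div (by positivity) (by norm_num)]
  have h16 := (abs_le.1 (h1 X hX3)).1
  have h17 : ∑ p ∈ (Finset.Icc 1 X).filter Nat.Prime, (1 : ℝ) / p ≤
      ∑ j ∈ Finset.range M, 1 / (Nat.nth Nat.Prime j : ℝ) := by
    have e : ∑ j ∈ Finset.range M, 1 / (Nat.nth Nat.Prime j : ℝ) =
        ∑ p ∈ (Finset.range M).image (Nat.nth Nat.Prime), 1 / (p : ℝ) := by
      rw [Finset.sum_image]
      intro i _ j _ hij
      exact Nat.nth_injective Nat.infinite_setOfPred_prime hij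
    rw [e]
    refine Finset.sum_le_sum_of_subset_of_nonneg ?_ fun p _ _ => by positivity
    intro p hp
    obtain ⟨hp1, hp2⟩ := Finset.mem_filter.1 hp
    have hp3 := (Finset.mem_Icc.1 hp1).2
    refine Finset.mem_image.2 ⟨Nat.count Nat.Prime p, ?_, Nat.nth_count hp2⟩
    rw [Finset.mem_range, hM, Nat.nth_count hp2]
    rw [Real.log_le_iff_le_exp (by exact_mod_cast hp2.pos)]
    exact le_trans (by exact_mod_cast hp3) (Nat.floor_le (Real.exp_pos _).le)
  have := le_abs_self C1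
  linarith

lemma mo_EP_lower {k : ℝ} (hk : 0 < k) (hk1 : k ≤ 1) : ∃ c : ℝ, 0 < c ∧
    ∀ (M : ℕ) (η : ℝ), 0 < η → η ≤ 1 / 24 → Sc M η →
    c * (1 / η) ^ (k ^ 2 / 4) ≤ mo k (EP (Finset.range M) (1 / 2)) := by
  obtain ⟨C, hC, h⟩ := mertens_lower
  have hs2 : Summable fun j : ℕ => 1 / ((j + 1 : ℕ) : ℝ) ^ 2 :=
    (summable_nat_add_iff 1).2 (Real.summable_one_div_nat_pow.2 one_lt_two)
  set T := ∑' j : ℕ, 1 / ((j + 1 : ℕ) : ℝ) ^ 2 with hT
  have hT0 : 0 ≤ T := tsum_nonneg fun n => by positivity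
  refine ⟨Real.exp (-(k ^ 2 / 4 * C + 2 * (c1 k + 1) * T)), Real.exp_pos _,
    fun M η hη hη1 hSc => ?_⟩
  rw [mo_EP k M _ half_re]
  have h1 : ∏ j ∈ Finset.range M, Real.exp (k ^ 2 / 4 * (1 / (Nat.nth Nat.Prime j : ℝ)) -
      2 * (c1 k + 1) * (1 / (Nat.nth Nat.Prime j : ℝ)) ^ 2) ≤
      ∏ j ∈ Finset.range M, e1 k (px (1 / 2) j) :=
    Finset.prod_le_prod (fun j _ => (Real.exp_pos _).le) fun j _ => e1_lower hk hk1 j
  refine le_trans ?_ h1
  rw [← Real.exp_sum, Finset.sum_sub_distrib, ← Finset.mul_sum, ← Finset.mul_sum,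
    Real.rpow_def_of_pos (by positivity), ← Real.exp_add]
  refine Real.exp_le_exp.2 ?_
  have h2 := h M η hη hη1 hSc
  have h3 : ∑ j ∈ Finset.range M, (1 / (Nat.nth Nat.Prime j : ℝ)) ^ 2 ≤ T := by
    refine (Finset.sum_le_sum fun j _ => ?_).trans
      (hs2.sum_le_tsum (Finset.range M) fun j _ => by positivity)
    rw [one_div_pow]
    have hj : ((j + 1 : ℕ) : ℝ) ≤ (Nat.nth Nat.Prime j : ℝ) := by
      have := Nat.add_two_le_nth_prime j
      exact_mod_cast (by omega : j + 1 ≤ Nat.nth Nat.Prime j)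
    exact one_div_le_one_div_of_le (by positivity) (by gcongr)
  have hc := c1_nonneg k
  have h4 : k ^ 2 / 4 * (Real.log (1 / η) - C) ≤
      k ^ 2 / 4 * ∑ j ∈ Finset.range M, 1 / (Nat.nth Nat.Prime j : ℝ) :=
    mul_le_mul_of_nonneg_left h2 (by positivity)
  have h5 : 2 * (c1 k + 1) * ∑ j ∈ Finset.range M, (1 / (Nat.nth Nat.Prime j : ℝ)) ^ 2 ≤
      2 * (c1 k + 1) * T := mul_le_mul_of_nonneg_left h3 (by positivity)
  linarith

/-- **lower bound for the moments of the partial sums** -/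
theorem SN_lower {k : ℝ} (hk : 0 < k) (hk1 : k ≤ 1) : ∃ c : ℝ, 0 < c ∧
    ∀ᶠ N in atTop, c * (dl N)⁻¹ ^ (k ^ 2 / 4) ≤ mo k (SN N) := by
  obtain ⟨c0, hc0, hlow⟩ := mo_EP_lower hk hk1
  obtain ⟨C1, hC1, hall⟩ := all_scales hk hk1
  obtain ⟨C2, r, hC2, htail⟩ := tail_bound' k hk
  obtain ⟨CE, hCE, hE⟩ := mo_EP_bound k
  set q : ℝ := k ^ 2 / 4 with hq
  have hq0 : 0 < q := by positivity
  set Z2 : ℝ := ∑' j : ℤ, wj j with hZ2
  have hZ20 : 0 ≤ Z2 := tsum_nonneg fun j => (wj_pos j).le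
  -- choice of `B`
  obtain ⟨B, hB1, hB⟩ : ∃ B : ℕ, 1 ≤ B ∧ C1 * (B : ℝ) ^ (-q) ≤ c0 / 4 := by
    have h1 : Tendsto (fun B : ℕ => C1 * (B : ℝ) ^ (-q)) atTop (𝓝 (C1 * 0)) :=
      ((tendsto_rpow_neg_atTop hq0).comp tendsto_natCast_atTop_atTop).const_mul C1
    rw [mul_zero] at h1
    obtain ⟨B, h2, h3⟩ := ((h1.eventually (gt_mem_nhds (by positivity :
      (0 : ℝ) < c0 / 4))).and (eventually_ge_atTop 1)).exists
    exact ⟨B, h3, h2.le⟩
  have hB0 : (0 : ℝ) < B := by exact_mod_cast hB1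
  have hB1' : (1 : ℝ) ≤ B := by exact_mod_cast hB1
  set P : ℝ := C2 * (2 * B) * (1 + B) ^ r with hP
  have hP0 : 0 < P := by positivity
  -- choice of `A`
  obtain ⟨A, hA1, hA⟩ : ∃ A : ℕ, 1 ≤ A ∧
      (P * Real.exp (-((A : ℝ) / 2))) ^ k * (32 * (Z2 * CE)) ≤ c0 / 4 := by
    have h1 : Tendsto (fun A : ℕ => (P * Real.exp (-((A : ℝ) / 2))) ^ k * (32 * (Z2 * CE))) atTop
        (𝓝 ((P * 0) ^ k * (32 * (Z2 * CE)))) := by
      refine Tendsto.mul_const _ (Tendsto.rpow_const (Tendsto.const_mul _ ?_) (Or.inr hk.le))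
      refine Real.tendsto_exp_neg_atTop_nhds_zero.comp ?_
      exact Tendsto.atTop_div_const two_pos tendsto_natCast_atTop_atTop
    rw [mul_zero, Real.zero_rpow hk.ne', zero_mul] at h1
    obtain ⟨A, h2, h3⟩ := ((h1.eventually (gt_mem_nhds (by positivity :
      (0 : ℝ) < c0 / 4))).and (eventually_ge_atTop 1)).exists
    exact ⟨A, h3, h2.le⟩
  have hA0 : (0 : ℝ) < A := by exact_mod_cast hA1
  have hA1' : (1 : ℝ) ≤ A := by exact_mod_cast hA1
  refine ⟨c0 / 2 * (A : ℝ) ^ (-q), by positivity, ?_⟩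
  have h1 : Tendsto (fun N => (A * B : ℝ) * dl N) atTop (𝓝 ((A * B : ℝ) * 0)) :=
    dl_tendsto.const_mul _
  rw [mul_zero] at h1
  filter_upwards [h1.eventually (gt_mem_nhds (by norm_num : (0 : ℝ) < 1 / 24)),
    eventually_ge_atTop 2] with N hN hN2
  have hδ := dl_pos hN2
  set ηs : ℝ := A * dl N with hηs
  set ηc : ℝ := A * B * dl N with hηc
  have hηs0 : 0 < ηs := by positivity
  have hηc0 : 0 < ηc := by positivity
  have hle : ηs ≤ ηc := by
    rw [hηs, hηc]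
    have : (A : ℝ) * 1 ≤ A * B := mul_le_mul_of_nonneg_left hB1' hA0.le
    nlinarith
  obtain ⟨K, hK⟩ := exists_Sc ηs
  obtain ⟨M, hM⟩ := exists_Sc ηc
  have hMK : M ≤ K := Sc_le hK hM hηs0 hle
  refine le_trans ?_ (mo_contract hk K N)
  have a1 := hlow K ηs hηs0 (by linarith) hK
  have a2 := hall M K N ηc hηc0 hN.le hM hMK (by omega)
  have cW : Continuous (W (Finset.range K) ηc ((N : ℝ) ^ ηc)) := continuous_W _ (by positivity)
  have a3 : mo k (fun z => EP (Finset.range K) (1 / 2) z - W (Finset.range K) ηc ((N : ℝ) ^ ηc) z) ≤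
      (P * Real.exp (-((A : ℝ) / 2))) ^ k * (32 * (Z2 * (CE * (1 / ηs) ^ q))) := by
    have hV := int_VV (M := K) (η := ηs) (k := k) hηs0 (by linarith) hk.le (CE * (1 / ηs) ^ q)
      (fun s hs => hE K ηs hηs0 (by linarith) hK.small s hs)
    have hpt : ∀ z, ‖EP (Finset.range K) (1 / 2) z - W (Finset.range K) ηc ((N : ℝ) ^ ηc) z‖ ^ k ≤
        (P * Real.exp (-((A : ℝ) / 2))) ^ k * VV K ηs k z := by
      intro z
      have hVz := VV_nonneg (M := K) (η := ηs) (k := k) z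
      have hBe : ηc = B * ηs := by rw [hηc, hηs]; ring
      have h2 := htail K ηs ηc (1 / (2 * B)) ((N : ℝ) ^ ηc) z hηs0 (by linarith) hηc0
        (by positivity) (by rw [div_le_one (by positivity)]; linarith)
        (by rw [hBe]; field_simp) (by positivity)
      have e1 : ηc / ηs = B := by rw [hBe]; field_simp
      have e2 : ((N : ℝ) ^ ηc) ^ (-(1 / (2 * (B : ℝ)))) = Real.exp (-((A : ℝ) / 2)) := by
        rw [hηc, dl_rpow_exp hN2, ← Real.exp_mul]
        congr 1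
        field_simp
      have e3 : C2 / (1 / (2 * (B : ℝ))) = C2 * (2 * B) := by field_simp
      rw [e1, e2, e3] at h2
      have h3 := Real.rpow_le_rpow (norm_nonneg _) h2 hk.le
      refine h3.trans (le_of_eq ?_)
      have e4 : C2 * (2 * B) * (1 + B) ^ r * VV K ηs k z ^ (1 / k) * Real.exp (-((A : ℝ) / 2)) =
          (P * Real.exp (-((A : ℝ) / 2))) * VV K ηs k z ^ (1 / k) := by rw [hP]; ring
      rw [e4, Real.mul_rpow (by positivity) (by positivity), ← Real.rpow_mul hVz,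
        one_div_mul_cancel hk.ne', Real.rpow_one]
    have hm : ∫ z, ‖EP (Finset.range K) (1 / 2) z - W (Finset.range K) ηc ((N : ℝ) ^ ηc) z‖ ^ k ∂tor ≤
        ∫ z, (P * Real.exp (-((A : ℝ) / 2))) ^ k * VV K ηs k z ∂tor :=
      integral_mono (integrable_tor' (continuous_norm_rpow
        ((continuous_EP _ _ half_re).sub cW) hk.le)) (integrable_tor' (continuous_const.mul
          (continuous_VV hηs0 (by linarith) hk.le))) hpt
    rw [integral_const_mul] at hm
    exact hm.trans (mul_le_mul_of_nonneg_left hV (by positivity))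
  have t1 := mo_le hk hk1 (continuous_EP (Finset.range K) _ half_re) (continuous_SK K N)
  have t2 := mo_tri hk hk1 (continuous_EP (Finset.range K) _ half_re) (continuous_SK K N) cW
  rw [mo_sub_comm k (W (Finset.range K) ηc ((N : ℝ) ^ ηc))] at t2
  -- sizes
  set L : ℝ := (dl N)⁻¹ ^ q with hL
  have hL0 : 0 < L := by positivity
  have s1 : (1 / ηs) ^ q = (A : ℝ) ^ (-q) * L := by
    rw [hηs, one_div, mul_inv, Real.mul_rpow (by positivity) (by positivity),
      Real.inv_rpow hA0.le, Real.rpow_neg hA0.le]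
  have s2 : (1 / ηc) ^ q = (B : ℝ) ^ (-q) * ((A : ℝ) ^ (-q) * L) := by
    rw [hηc, one_div, mul_inv, mul_inv, Real.mul_rpow (by positivity) (by positivity),
      Real.mul_rpow (by positivity) (by positivity),
      Real.inv_rpow hA0.le, Real.inv_rpow hB0.le, Real.rpow_neg hA0.le, Real.rpow_neg hB0.le]
    ring
  rw [s1] at a1 a3
  rw [s2] at a2
  set Y : ℝ := (A : ℝ) ^ (-q) * L with hY
  have hY0 : 0 < Y := by positivity
  have a2' : C1 * ((B : ℝ) ^ (-q) * Y) ≤ c0 / 4 * Y := by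
    calc C1 * ((B : ℝ) ^ (-q) * Y) = C1 * (B : ℝ) ^ (-q) * Y := by ring
      _ ≤ _ := mul_le_mul_of_nonneg_right hB hY0.le
  have a3' : (P * Real.exp (-((A : ℝ) / 2))) ^ k * (32 * (Z2 * (CE * Y))) ≤ c0 / 4 * Y := by
    calc _ = (P * Real.exp (-((A : ℝ) / 2))) ^ k * (32 * (Z2 * CE)) * Y := by ring
      _ ≤ _ := mul_le_mul_of_nonneg_right hA hY0.le
  calc c0 / 2 * (A : ℝ) ^ (-q) * L = c0 * Y - c0 / 4 * Y - c0 / 4 * Y := by rw [hY]; ring
    _ ≤ mo k (SK K N) := by linarith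

/-- **the asymptotic formula for `0 < k ≤ 1`** -/
theorem main1 {k : ℝ} (hk : 0 < k) (hk1 : k ≤ 1) : ∃ c : ℝ, 0 < c ∧
    Tendsto (fun N : ℕ => mo k (SN N) / Real.log N ^ (k ^ 2 / 4)) atTop (𝓝 c) := by
  obtain ⟨l, hl⟩ := SN_lim1 hk hk1
  obtain ⟨c, hc, hlow⟩ := SN_lower hk hk1
  have hZ := ZZ_lim k
  set A := Gk (k / 2) * Real.exp ((k / 2) ^ 2 * -Real.log 2) with hA
  have h1 := hl.mul hZ
  have e : (k / 2) ^ 2 = k ^ 2 / 4 := by ring
  rw [e] at h1
  have h2 : Tendsto (fun N : ℕ => mo k (SN N) / Real.log N ^ (k ^ 2 / 4)) atTop (𝓝 (l * A)) := by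
    refine h1.congr' ?_
    filter_upwards [eventually_ge_atTop 2] with N hN
    have hZp := (ZZ_pos k N).ne'
    unfold dl
    rw [one_div, Real.inv_rpow (Real.log_natCast_nonneg N)]
    field_simp
  refine ⟨l * A, ?_, h2⟩
  refine lt_of_lt_of_le hc (ge_of_tendsto h2 ?_)
  filter_upwards [hlow, eventually_ge_atTop 2] with N h3 hN
  have hlog : 0 < Real.log N := Real.log_pos (by exact_mod_cast hN)
  rw [le_div_iff₀ (by positivity)]
  unfold dl at h3
  rwa [one_div, inv_inv] at h3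

/-- **the asymptotic formula for all `k > 0`** -/
theorem main_all {k : ℝ} (hk : 0 < k) : ∃ c : ℝ, 0 < c ∧
    Tendsto (fun N : ℕ => nrm k (SN N) ^ k / Real.log N ^ (k ^ 2 / 4)) atTop (𝓝 c) := by
  rcases le_or_gt k 1 with h | h
  · obtain ⟨c, hc, h1⟩ := main1 hk h
    refine ⟨c, hc, h1.congr fun N => ?_⟩
    rw [nrm_rpow hk]
    rfl
  · exact Pool.Agent.H7.PM.main h

end Pool.Agent.H7.PL
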