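import Pool.Agent.H7.PL.L1

set_option autoImplicit false
open MeasureTheory Metric Filter
open scoped ComplexConjugate ENNReal Topology

/-! Euler products over sets of primes; the smooth cuts. -/

namespace Pool.Agent.H7.PL

open Pool.Agent.Helper873.OneVar Pool.Agent.Helper873.Product Pool.Agent.Helper873.Embed
  Pool.Agent.H7.PM

/-- the point `p_j^{-s}` -/
noncomputable def px (s : ℂ) (j : ℕ) : ℂ := (Nat.nth Nat.Prime j : ℂ) ^ (-s)

lemma norm_px (s : ℂ) (j : ℕ) : ‖px s j‖ = (Nat.nth Nat.Prime j : ℝ) ^ (-s.re) := by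
  unfold px
  have h := two_le_p j
  rw [← Complex.ofReal_natCast, Complex.norm_cpow_eq_rpow_re_of_pos (by linarith)]
  simp

lemma norm_px_lt (s : ℂ) (hs : 0 < s.re) (j : ℕ) : ‖px s j‖ < 1 := by
  rw [norm_px]
  have h := two_le_p j
  exact Real.rpow_lt_one_of_one_lt_of_neg (by linarith) (by linarith)

/-- Euler products -/
noncomputable def EP (Q : Finset ℕ) (s : ℂ) (z : Tor) : ℂ :=
  Complex.exp (∑ j ∈ Q, la (px s j) (zet (z j)))

lemma continuous_EP (Q : Finset ℕ) (s : ℂ) (hs : 0 < s.re) : Continuous (EP Q s) :=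
  Complex.continuous_exp.comp (continuous_finsetSum _ fun j _ =>
    (continuous_la_zet _ (norm_px_lt s hs j)).comp (continuous_apply j))

/-- the primes of the index set -/
noncomputable def sq (Q : Finset ℕ) : Finset ℕ := Q.image (Nat.nth Nat.Prime)

open Classical in
/-- the coefficients -/
noncomputable def cq (Q : Finset ℕ) (s : ℂ) (n : ℕ) : ℂ :=
  if n ∈ Nat.factoredNumbers (sq Q) then (n : ℂ) ^ (-s) else 0

lemma cq_zero (Q : Finset ℕ) (s : ℂ) : cq Q s 0 = 0 := by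
  unfold cq
  rw [if_neg]
  intro h
  exact (Nat.mem_factoredNumbers.1 h).1 rfl

lemma ne_zero_of_re {s : ℂ} (hs : 0 < s.re) : s ≠ 0 := by
  intro h
  rw [h] at hs
  simp at hs

lemma summable_cq (Q : Finset ℕ) (s : ℂ) (hs : 0 < s.re) : Summable fun n => ‖cq Q s n‖ := by
  have h := (EulerProduct.summable_and_hasSum_factoredNumbers_prod_filter_prime_geometric
    (f := mf s (ne_zero_of_re hs) 0) (fun {p} hp => norm_mf _ _ hs _ p hp) (sq Q)).1
  have h2 := (summable_subtype_iff_indicator (f := fun m => ‖mf s (ne_zero_of_re hs) 0 m‖)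
    (s := Nat.factoredNumbers (sq Q))).1 h
  refine h2.congr fun n => ?_
  unfold cq
  by_cases hn : n ∈ Nat.factoredNumbers (sq Q)
  · rw [Set.indicator_of_mem hn, if_pos hn, mf_apply, norm_mul, norm_stf, one_mul]
  · rw [Set.indicator_of_notMem hn, if_neg hn, norm_zero]

theorem EP_eq (Q : Finset ℕ) (s : ℂ) (hs : 0 < s.re) (z : Tor) : EP Q s z = DSer (cq Q s) z := by
  have h := (EulerProduct.summable_and_hasSum_factoredNumbers_prod_filter_prime_geometric
    (f := mf s (ne_zero_of_re hs) z) (fun {p} hp => norm_mf _ _ hs _ p hp) (sq Q)).2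
  have h2 := (hasSum_subtype_iff_indicator (f := fun m => mf s (ne_zero_of_re hs) z m)
    (s := Nat.factoredNumbers (sq Q))).1 h
  have h3 : (Set.indicator (Nat.factoredNumbers (sq Q)) fun m => mf s (ne_zero_of_re hs) z m) =
      fun n => cq Q s n * stf n z := by
    funext n
    unfold cq
    by_cases hn : n ∈ Nat.factoredNumbers (sq Q)
    · rw [Set.indicator_of_mem hn, if_pos hn, mf_apply, mul_comm]
    · rw [Set.indicator_of_notMem hn, if_neg hn, zero_mul]
  rw [h3] at h2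
  unfold DSer
  rw [h2.tsum_eq]
  have h4 : (sq Q).filter Nat.Prime = sq Q := by
    refine Finset.filter_true_of_mem fun p hp => ?_
    unfold sq at hp
    obtain ⟨j, _, rfl⟩ := Finset.mem_image.1 hp
    exact Nat.prime_nth_prime j
  rw [h4]
  unfold sq
  rw [Finset.prod_image (fun i _ j _ h => Nat.nth_injective Nat.infinite_setOfPred_prime h)]
  unfold EP
  rw [Complex.exp_sum]
  refine Finset.prod_congr rfl fun j _ => ?_
  rw [mf_apply, stf_prime]
  have h5 : ‖px s j * zet (z j)‖ < 1 := by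
    rw [norm_mul, norm_zet, mul_one]
    exact norm_px_lt s hs j
  have h6 : (1 - px s j * zet (z j)) ≠ 0 := Complex.slitPlane_ne_zero (la_slit _ _ h5)
  unfold la
  rw [Complex.exp_neg, Complex.exp_log h6, mul_comm (zet (z j))]
  rfl

/-- bound for the Euler products -/
lemma norm_EP_le (Q : Finset ℕ) (s : ℂ) (hs : 0 < s.re) (z : Tor) :
    ‖EP Q s z‖ ≤ ∑' n, ‖cq Q s n‖ := by
  rw [EP_eq Q s hs]
  unfold DSer
  refine (norm_tsum_le_tsum_norm ?_).trans (le_of_eq ?_)
  · simpa [norm_mul, norm_stf] using summable_cq Q s hs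
  · simp [norm_stf]

lemma cq_add (Q : Finset ℕ) (s t : ℂ) (n : ℕ) : cq Q (s + t) n = (n : ℂ) ^ (-t) * cq Q s n := by
  unfold cq
  split_ifs with h
  · have hn : (n : ℂ) ≠ 0 := by exact_mod_cast (Nat.mem_factoredNumbers.1 h).1
    rw [← Complex.cpow_add _ _ hn]
    congr 1
    ring
  · simp

lemma cq_shift (Q : Finset ℕ) (s : ℂ) (τ : ℝ) (j n : ℕ) :
    cq Q (s + j * τ) n = ((((n : ℝ) ^ (-τ)) ^ j : ℝ) : ℂ) * cq Q s n := by
  rcases eq_or_ne n 0 with rfl | hn
  · simp [cq_zero]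
  rw [cq_add]
  congr 1
  have hn0 : (0 : ℝ) ≤ n := Nat.cast_nonneg n
  rw [← Real.rpow_natCast, ← Real.rpow_mul hn0, Complex.ofReal_cpow hn0]
  push_cast
  congr 1
  ring

lemma rpow_le_one' (n : ℕ) {τ : ℝ} (hτ : 0 ≤ τ) (hn : n ≠ 0) : (n : ℝ) ^ (-τ) ≤ 1 :=
  Real.rpow_le_one_of_one_le_of_nonpos
    (by exact_mod_cast Nat.one_le_iff_ne_zero.2 hn) (by linarith)

lemma norm_cq_shift_le (Q : Finset ℕ) (s : ℂ) {τ : ℝ} (hτ : 0 ≤ τ) (j n : ℕ) :
    ‖cq Q (s + j * τ) n‖ ≤ ‖cq Q s n‖ := by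
  rcases eq_or_ne n 0 with rfl | hn
  · simp [cq_zero]
  rw [cq_shift, norm_mul, Complex.norm_real, Real.norm_of_nonneg (by positivity)]
  have h1 := rpow_le_one' n hτ hn
  have h2 : ((n : ℝ) ^ (-τ)) ^ j ≤ 1 := pow_le_one₀ (by positivity) h1
  have := norm_nonneg (cq Q s n)
  nlinarith

/-- coefficients of `1 - e^{-x}` -/
noncomputable def hh (j : ℕ) : ℂ := if j = 0 then 0 else -((-1) ^ j / (j.factorial : ℂ))

lemma norm_hh (j : ℕ) : ‖hh j‖ ≤ 1 / (j.factorial : ℝ) := by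
  unfold hh
  split_ifs with h
  · simp
  · rw [norm_neg, norm_div, norm_pow, norm_neg, norm_one, one_pow, Complex.norm_natCast]

lemma hh_sum (x : ℝ) : HasSum (fun j => hh j * (x : ℂ) ^ j) ((1 - Real.exp (-x) : ℝ) : ℂ) := by
  have h1 := NormedSpace.expSeries_div_hasSum_exp (𝔸 := ℂ) (-(x : ℂ))
  rw [← Complex.exp_eq_exp_ℂ] at h1
  have h2 := (hasSum_ite_eq (0 : ℕ) (1 : ℂ)).sub h1
  have e : ((1 - Real.exp (-x) : ℝ) : ℂ) = 1 - Complex.exp (-(x : ℂ)) := by push_cast; rfl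
  rw [e]
  have h3 : (fun j : ℕ => hh j * (x : ℂ) ^ j) =
      fun j : ℕ => (if j = 0 then (1 : ℂ) else 0) - (-(x : ℂ)) ^ j / (j.factorial : ℂ) := by
    funext j
    unfold hh
    split_ifs with h
    · subst h; simp
    · rw [neg_pow]; ring
  rw [h3]
  exact h2

end Pool.Agent.H7.PL
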