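import Pool.Agent.H7.PL.L3

set_option autoImplicit false
open MeasureTheory Metric Filter
open scoped ComplexConjugate ENNReal Topology

/-! The Gamma function and the tails of the smooth cuts. -/

namespace Pool.Agent.H7.PL

open Pool.Agent.Helper873.OneVar Pool.Agent.Helper873.Product Pool.Agent.Helper873.Embed
  Pool.Agent.H7.PM

lemma norm_Gamma_le (s : ℂ) (hs : 0 < s.re) : ‖Complex.Gamma s‖ ≤ Real.Gamma s.re := by
  rw [Complex.Gamma_eq_integral hs, Real.Gamma_eq_integral hs]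
  unfold Complex.GammaIntegral
  refine (norm_integral_le_integral_norm _).trans (le_of_eq ?_)
  refine setIntegral_congr_fun measurableSet_Ioi fun x hx => ?_
  have h : ‖((Real.exp (-x) : ℝ) : ℂ) * (x : ℂ) ^ (s - 1)‖ = Real.exp (-x) * x ^ (s.re - 1) := by
    rw [norm_mul, Complex.norm_of_nonneg (Real.exp_pos _).le,
      Complex.norm_cpow_eq_rpow_re_of_pos hx]
    simp
  exact h

lemma Gamma_shift (s : ℂ) (hs : 0 < s.re) (m : ℕ) :
    ‖Complex.Gamma s‖ * ∏ i ∈ Finset.range m, ‖s + i‖ = ‖Complex.Gamma (s + m)‖ := by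
  induction m with
  | zero => simp
  | succ m ih =>
    rw [Finset.prod_range_succ, ← mul_assoc, ih, mul_comm, ← norm_mul]
    have h : s + m ≠ 0 := by
      intro h
      have h2 := congrArg Complex.re h
      simp at h2
      have : (0 : ℝ) ≤ m := Nat.cast_nonneg m
      linarith
    rw [← Complex.Gamma_add_one _ h]
    congr 2
    push_cast
    ring

/-- points of the vertical line -/
noncomputable def vt (σ ξ : ℝ) : ℂ := (σ : ℂ) + (ξ : ℂ) * Complex.I

lemma vt_re (σ ξ : ℝ) : (vt σ ξ).re = σ := by unfold vt; simp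
lemma vt_im (σ ξ : ℝ) : (vt σ ξ).im = ξ := by unfold vt; simp

lemma gamma_bound (m : ℕ) (hm : 1 ≤ m) (σ : ℝ) (hσ : 0 < σ) (hσ1 : σ ≤ 1) (ξ : ℝ) :
    ‖Complex.Gamma (vt σ ξ)‖ ≤
      ((m + 1).factorial : ℝ) * 2 ^ (m + 1) / σ * ((1 + |ξ|) ^ (m + 1))⁻¹ := by
  have hre := vt_re σ ξ
  have hξ := abs_nonneg ξ
  have h1 := Gamma_shift (vt σ ξ) (by rw [hre]; exact hσ) (m + 1)
  have h2 : σ * ((1 + |ξ|) / 2) ^ (m + 1) ≤ ∏ i ∈ Finset.range (m + 1), ‖vt σ ξ + i‖ := by
    rw [Finset.prod_range_succ', pow_succ, ← mul_assoc, mul_comm σ, mul_assoc]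
    have h3 : ((1 + |ξ|) / 2) ^ m ≤ ∏ i ∈ Finset.range m, ‖vt σ ξ + ((i + 1 : ℕ) : ℂ)‖ := by
      calc ((1 + |ξ|) / 2) ^ m = ∏ _i ∈ Finset.range m, ((1 + |ξ|) / 2) := by
            rw [Finset.prod_const, Finset.card_range]
        _ ≤ _ := by
            refine Finset.prod_le_prod (fun i _ => by positivity) fun i _ => ?_
            have a1 := Complex.abs_re_le_norm (vt σ ξ + ((i + 1 : ℕ) : ℂ))
            have a2 := Complex.abs_im_le_norm (vt σ ξ + ((i + 1 : ℕ) : ℂ))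
            rw [Complex.add_re, hre, Complex.natCast_re] at a1
            rw [Complex.add_im, vt_im, Complex.natCast_im, add_zero] at a2
            have a3 : (1 : ℝ) ≤ |σ + ((i + 1 : ℕ) : ℝ)| := by
              rw [abs_of_pos (by positivity)]
              push_cast
              have : (0 : ℝ) ≤ i := Nat.cast_nonneg i
              linarith
            linarith
    have h4 : σ * ((1 + |ξ|) / 2) ≤ ‖vt σ ξ + ((0 : ℕ) : ℂ)‖ := by
      rw [Nat.cast_zero, add_zero]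
      have a1 := Complex.abs_re_le_norm (vt σ ξ)
      have a2 := Complex.abs_im_le_norm (vt σ ξ)
      rw [hre, abs_of_pos hσ] at a1
      rw [vt_im] at a2
      nlinarith
    calc ((1 + |ξ|) / 2) ^ m * (σ * ((1 + |ξ|) / 2)) ≤
        (∏ i ∈ Finset.range m, ‖vt σ ξ + ((i + 1 : ℕ) : ℂ)‖) * ‖vt σ ξ + ((0 : ℕ) : ℂ)‖ :=
          mul_le_mul h3 h4 (by positivity) (Finset.prod_nonneg fun i _ => norm_nonneg _)
      _ = _ := rfl
  have h5 : ‖Complex.Gamma (vt σ ξ + ((m + 1 : ℕ) : ℂ))‖ ≤ ((m + 1).factorial : ℝ) := by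
    have a0 : (vt σ ξ + ((m + 1 : ℕ) : ℂ)).re = σ + ((m + 1 : ℕ) : ℝ) := by
      rw [Complex.add_re, hre, Complex.natCast_re]
    have hm1 : (1 : ℝ) ≤ m := by exact_mod_cast hm
    refine (norm_Gamma_le _ (by rw [a0]; positivity)).trans ?_
    rw [a0, ← Real.Gamma_nat_eq_factorial]
    refine Real.Gamma_strictMonoOn_Ici.monotoneOn ?_ ?_ ?_
    · simp only [Set.mem_Ici]; push_cast; linarith
    · simp only [Set.mem_Ici]; push_cast; linarith
    · linarith
  have h6 : ‖Complex.Gamma (vt σ ξ)‖ * (σ * ((1 + |ξ|) / 2) ^ (m + 1)) ≤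
      ((m + 1).factorial : ℝ) := by
    refine le_trans ?_ (h1.le.trans h5)
    exact mul_le_mul_of_nonneg_left h2 (norm_nonneg _)
  rw [← le_div_iff₀ (by positivity)] at h6
  refine h6.trans (le_of_eq ?_)
  rw [div_pow]
  field_simp

lemma continuous_vt (σ : ℝ) : Continuous (vt σ) := by
  unfold vt
  exact continuous_const.add (Complex.continuous_ofReal.mul continuous_const)

lemma continuous_Gamma_vt (σ : ℝ) (hσ : 0 < σ) : Continuous fun ξ => Complex.Gamma (vt σ ξ) := by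
  refine continuous_iff_continuousAt.2 fun ξ => ?_
  have h1 : ContinuousAt Complex.Gamma (vt σ ξ) := by
    refine (Complex.differentiableAt_Gamma _ fun m h => ?_).continuousAt
    have h2 := congrArg Complex.re h
    rw [vt_re] at h2
    simp at h2
    have : (0 : ℝ) ≤ m := Nat.cast_nonneg m
    linarith
  exact ContinuousAt.comp (f := vt σ) (g := Complex.Gamma) h1 (continuous_vt σ).continuousAt

lemma int_jap : Integrable fun ξ : ℝ => ((1 + |ξ|) ^ 2)⁻¹ := by
  have h := integrable_one_add_norm (μ := (volume : Measure ℝ)) (E := ℝ) (r := 2)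
    (by simp)
  refine h.congr (Eventually.of_forall fun ξ => ?_)
  simp only [Real.norm_eq_abs]
  rw [Real.rpow_neg (by positivity)]
  congr 1
  exact_mod_cast Real.rpow_natCast (1 + |ξ|) 2

/-- the integral of the majorant -/
noncomputable def Jc : ℝ := ∫ ξ : ℝ, ((1 + |ξ|) ^ 2)⁻¹

lemma Jc_nonneg : 0 ≤ Jc := integral_nonneg fun ξ => by positivity

lemma integrable_Gamma (σ : ℝ) (hσ : 0 < σ) (hσ1 : σ ≤ 1) :
    Integrable fun ξ => Complex.Gamma (vt σ ξ) := by
  refine Integrable.mono' (int_jap.const_mul (((1 + 1).factorial : ℝ) * 2 ^ (1 + 1) / σ))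
    (continuous_Gamma_vt σ hσ).aestronglyMeasurable (Eventually.of_forall fun ξ => ?_)
  exact gamma_bound 1 le_rfl σ hσ hσ1 ξ

/-- Mellin inversion for the exponential -/
lemma exp_mellin (σ : ℝ) (hσ : 0 < σ) (hσ1 : σ ≤ 1) (x : ℝ) (hx : 0 < x) :
    ((Real.exp (-x) : ℝ) : ℂ) = (1 / (2 * Real.pi) : ℝ) *
      ∫ ξ : ℝ, (x : ℂ) ^ (-(vt σ ξ)) * Complex.Gamma (vt σ ξ) := by
  have hG : ∀ ξ : ℝ, mellin (fun x => ((Real.exp (-x) : ℝ) : ℂ)) ((σ : ℂ) + ξ * Complex.I) =
      Complex.Gamma (vt σ ξ) := by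
    intro ξ
    rw [← Complex.GammaIntegral_eq_mellin, ← Complex.Gamma_eq_integral (by simpa using hσ)]
    rfl
  have h := mellinInv_mellin_eq σ (fun x => ((Real.exp (-x) : ℝ) : ℂ)) hx ?_ ?_ ?_
  · rw [← h]
    unfold mellinInv
    simp_rw [hG, smul_eq_mul]
    rw [Complex.real_smul]
    rfl
  · have h1 := Complex.GammaIntegral_convergent (s := (σ : ℂ)) (by simpa using hσ)
    unfold MellinConvergent
    refine h1.congr_fun (fun x _ => ?_) measurableSet_Ioi
    simp only [smul_eq_mul]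
    rw [mul_comm]
  · unfold Complex.VerticalIntegrable
    refine (integrable_Gamma σ hσ hσ1).congr (Eventually.of_forall fun ξ => ?_)
    exact (hG ξ).symm
  · exact (Complex.continuous_ofReal.comp (Real.continuous_exp.comp continuous_neg)).continuousAt

/-- complement of the smooth cut -/
lemma W_compl (Q : Finset ℕ) {τ U : ℝ} (hU : 0 ≤ U) (z : Tor) :
    EP Q (1 / 2) z - W Q τ U z =
      ∑' n : ℕ, ((Real.exp (-(U * (n : ℝ) ^ (-τ))) : ℝ) : ℂ) * (cq Q (1 / 2) n * stf n z) := by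
  rw [EP_eq Q _ half_re]
  unfold W
  rw [← DSer_sub (summable_cq Q _ half_re) (summable_wc Q hU)]
  unfold DSer wc
  refine tsum_congr fun n => ?_
  push_cast
  ring

lemma cpow_split (U τ : ℝ) (hU : 0 < U) (n : ℕ) (hn : n ≠ 0) (s : ℂ) :
    (((U * (n : ℝ) ^ (-τ) : ℝ)) : ℂ) ^ (-s) = (U : ℂ) ^ (-s) * (n : ℂ) ^ (τ * s) := by
  have hn0 : (0 : ℝ) < n := by exact_mod_cast Nat.pos_of_ne_zero hn
  rw [Complex.ofReal_mul, Complex.mul_cpow_ofReal_nonneg hU.le (by positivity)]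
  congr 1
  rw [Complex.ofReal_cpow hn0.le, ← Complex.ofReal_natCast, Complex.ofReal_neg]
  rw [Complex.cpow_def_of_ne_zero (by exact_mod_cast hn0.ne' : ((n : ℝ) : ℂ) ≠ 0) (τ * s)]
  have h1 : ((n : ℝ) : ℂ) ^ (-(τ : ℂ)) = Complex.exp ((-(τ * Real.log n) : ℝ)) := by
    rw [Complex.cpow_def_of_ne_zero (by exact_mod_cast hn0.ne'), ← Complex.ofReal_log hn0.le]
    congr 1
    push_cast
    ring
  rw [h1, ← Complex.ofReal_exp, Complex.cpow_def_of_ne_zero
    (by exact_mod_cast (Real.exp_pos _).ne'), ← Complex.ofReal_log (Real.exp_pos _).le,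
    Real.log_exp, ← Complex.ofReal_log hn0.le]
  congr 1
  push_cast
  ring

theorem W_large (r : ℕ) : ∃ C : ℝ, 0 < C ∧ ∀ (Q : Finset ℕ) (τ σ U A : ℝ) (z : Tor), 0 < σ →
    σ ≤ 1 → τ * σ < 1 / 2 → 0 < U →
    (∀ ξ : ℝ, ‖EP Q (1 / 2 - τ * vt σ ξ) z‖ ≤ A * (1 + |ξ|) ^ r) →
    ‖EP Q (1 / 2) z - W Q τ U z‖ ≤ C / σ * A * U ^ (-σ) := by
  refine ⟨(1 / (2 * Real.pi)) * (((r + 1 + 1).factorial : ℝ) * 2 ^ (r + 1 + 1)) * (Jc + 1), ?_, ?_⟩
  · have := Jc_nonneg
    have := Real.pi_pos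
    positivity
  intro Q τ σ U A z hσ hσ1 hτσ hU hA
  have hA0 : 0 ≤ A := by
    have := hA 0
    simp only [abs_zero, add_zero, one_pow, mul_one] at this
    exact (norm_nonneg _).trans this
  rw [W_compl Q hU.le]
  -- the exchange
  set G : ℕ → ℝ → ℂ := fun n ξ => (1 / (2 * Real.pi) : ℝ) * ((((U * (n : ℝ) ^ (-τ) : ℝ)) : ℂ) ^ (-(vt σ ξ)) *
    Complex.Gamma (vt σ ξ)) * (cq Q (1 / 2) n * stf n z) with hG
  have hre : ∀ ξ, (1 / 2 - τ * vt σ ξ).re = 1 / 2 - τ * σ := by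
    intro ξ
    rw [Complex.sub_re, Complex.re_ofReal_mul, vt_re]
    norm_num
  have hGn : ∀ n ξ, G n ξ = ((1 / (2 * Real.pi) : ℝ) * ((U : ℂ) ^ (-(vt σ ξ)) *
      Complex.Gamma (vt σ ξ))) * (cq Q (1 / 2 - τ * vt σ ξ) n * stf n z) := by
    intro n ξ
    rcases eq_or_ne n 0 with rfl | hn
    · simp [hG, cq_zero]
    simp only [hG]
    rw [cpow_split U τ hU n hn, sub_eq_add_neg, cq_add, neg_neg]
    ring
  have hterm : ∀ n : ℕ, ((Real.exp (-(U * (n : ℝ) ^ (-τ))) : ℝ) : ℂ) *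
      (cq Q (1 / 2) n * stf n z) = ∫ ξ, G n ξ := by
    intro n
    rcases eq_or_ne n 0 with rfl | hn
    · simp [hG, cq_zero]
    have hn0 : (0 : ℝ) < n := by exact_mod_cast Nat.pos_of_ne_zero hn
    rw [exp_mellin σ hσ hσ1 _ (by positivity), ← integral_const_mul, ← integral_mul_const]
  have hnorm : ∀ n ξ, ‖G n ξ‖ = (1 / (2 * Real.pi)) * (U ^ (-σ) * ‖Complex.Gamma (vt σ ξ)‖) *
      ‖cq Q (1 / 2 - ((τ * σ : ℝ) : ℂ)) n‖ := by
    intro n ξ
    rw [hGn, norm_mul, norm_mul, norm_mul, norm_mul, norm_stf, mul_one,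
      Complex.norm_cpow_eq_rpow_re_of_pos hU, Complex.neg_re, vt_re, Complex.norm_real,
      Real.norm_of_nonneg (by have := Real.pi_pos; positivity)]
    congr 1
    unfold cq
    split_ifs with h
    · have hn0 : (0 : ℝ) < n := by
        exact_mod_cast Nat.pos_of_ne_zero (Nat.mem_factoredNumbers.1 h).1
      rw [← Complex.ofReal_natCast, Complex.norm_cpow_eq_rpow_re_of_pos hn0,
        Complex.norm_cpow_eq_rpow_re_of_pos hn0]
      congr 1
      rw [Complex.neg_re, Complex.neg_re, hre, Complex.sub_re, Complex.ofReal_re]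
      norm_num
    · simp
  have hGc : ∀ n, Integrable (G n) := by
    intro n
    have hc : Continuous (G n) := by
      rcases eq_or_ne n 0 with rfl | hn
      · have : G 0 = fun _ => 0 := by funext ξ; simp [hG, cq_zero]
        rw [this]; exact continuous_const
      have hn0 : (0 : ℝ) < n := by exact_mod_cast Nat.pos_of_ne_zero hn
      have hne : ((U * (n : ℝ) ^ (-τ) : ℝ) : ℂ) ≠ 0 := by
        have : 0 < U * (n : ℝ) ^ (-τ) := by positivity
        exact_mod_cast this.ne'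
      simp only [hG]
      refine (continuous_const.mul (Continuous.mul ?_ (continuous_Gamma_vt σ hσ))).mul
        continuous_const
      exact (continuous_vt σ).neg.const_cpow (Or.inl hne)
    refine Integrable.mono' (g := fun ξ => (1 / (2 * Real.pi)) *
      (U ^ (-σ) * ‖Complex.Gamma (vt σ ξ)‖) * ‖cq Q (1 / 2 - ((τ * σ : ℝ) : ℂ)) n‖) ?_
      hc.aestronglyMeasurable (Eventually.of_forall fun ξ => (hnorm n ξ).le)
    exact (((integrable_Gamma σ hσ hσ1).norm.const_mul _).const_mul _).mul_const _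
  have hsum : Summable fun n => ∫ ξ, ‖G n ξ‖ := by
    simp_rw [hnorm]
    simp_rw [integral_mul_const]
    refine Summable.mul_left _ (summable_cq Q _ ?_)
    rw [Complex.sub_re, Complex.ofReal_re]
    norm_num
    linarith
  have hex := integral_tsum_of_summable_integral_norm hGc hsum
  simp_rw [hterm]
  rw [hex]
  -- the bound
  have hpt : ∀ ξ, ‖∑' n, G n ξ‖ ≤ ((1 / (2 * Real.pi)) * U ^ (-σ) *
      (((r + 1 + 1).factorial : ℝ) * 2 ^ (r + 1 + 1) / σ) * A) * ((1 + |ξ|) ^ 2)⁻¹ := by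
    intro ξ
    have e1 : ∑' n, G n ξ = ((1 / (2 * Real.pi) : ℝ) * ((U : ℂ) ^ (-(vt σ ξ)) *
        Complex.Gamma (vt σ ξ))) * EP Q (1 / 2 - τ * vt σ ξ) z := by
      simp_rw [hGn]
      rw [tsum_mul_left, EP_eq Q _ (by rw [hre]; linarith)]
      rfl
    rw [e1, norm_mul, norm_mul, norm_mul, Complex.norm_cpow_eq_rpow_re_of_pos hU,
      Complex.neg_re, vt_re, Complex.norm_real,
      Real.norm_of_nonneg (by have := Real.pi_pos; positivity)]
    have h1 := gamma_bound (r + 1) (by omega) σ hσ hσ1 ξ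
    have h2 := hA ξ
    have hpi := Real.pi_pos
    have hx : 0 < 1 + |ξ| := by positivity
    calc 1 / (2 * Real.pi) * (U ^ (-σ) * ‖Complex.Gamma (vt σ ξ)‖) *
        ‖EP Q (1 / 2 - τ * vt σ ξ) z‖
        ≤ 1 / (2 * Real.pi) * (U ^ (-σ) * (((r + 1 + 1).factorial : ℝ) * 2 ^ (r + 1 + 1) / σ *
          ((1 + |ξ|) ^ (r + 1 + 1))⁻¹)) * (A * (1 + |ξ|) ^ r) := by gcongr
      _ = _ := by
          have e2 : (1 + |ξ|) ^ (r + 1 + 1) = (1 + |ξ|) ^ r * (1 + |ξ|) ^ 2 := by ring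
          rw [e2, mul_inv]
          field_simp
  refine (norm_integral_le_of_norm_le (int_jap.const_mul _)
    (Eventually.of_forall hpt)).trans ?_
  rw [integral_const_mul]
  change _ * Jc ≤ _
  have hJ := Jc_nonneg
  have hpi := Real.pi_pos
  have hX : 0 ≤ (1 / (2 * Real.pi)) * U ^ (-σ) *
      (((r + 1 + 1).factorial : ℝ) * 2 ^ (r + 1 + 1) / σ) * A := by positivity
  calc _ ≤ (1 / (2 * Real.pi)) * U ^ (-σ) *
      (((r + 1 + 1).factorial : ℝ) * 2 ^ (r + 1 + 1) / σ) * A * (Jc + 1) :=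
        mul_le_mul_of_nonneg_left (by linarith) hX
    _ = _ := by ring

end Pool.Agent.H7.PL
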