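import Pool.Agent.H7.PL.L4
import Pool.Graph.R_seed8.Helper256.KM.Mertens

set_option autoImplicit false
open MeasureTheory Metric Filter
open scoped ComplexConjugate ENNReal Topology

/-! Moments of the Euler products. -/

namespace Pool.Agent.H7.PL

open Pool.Agent.Helper873.OneVar Pool.Agent.Helper873.Product Pool.Agent.Helper873.Embed
  Pool.Agent.H7.PM

/-- local moments -/
noncomputable def e1 (k : ℝ) (x : ℂ) : ℝ := ∫ t, Real.exp (k * (la x (zet t)).re) ∂cir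

/-- the constant -/
noncomputable def c1 (k : ℝ) : ℝ := cS ‖((k / 2 : ℝ) : ℂ)‖ * cS ‖((k / 2 : ℝ) : ℂ)‖

lemma c1_nonneg (k : ℝ) : 0 ≤ c1 k := mul_self_nonneg _

lemma e1_eq (k : ℝ) (x : ℂ) : ((e1 k x : ℝ) : ℂ) =
    E1 (ι := Unit) (fun _ => ((k / 2 : ℝ) : ℂ)) (fun _ => ((k / 2 : ℝ) : ℂ)) (fun _ => x) := by
  unfold e1 E1
  have e0 : ((∫ t, Real.exp (k * (la x (zet t)).re) ∂cir : ℝ) : ℂ) =
      ∫ t, ((Real.exp (k * (la x (zet t)).re) : ℝ) : ℂ) ∂cir := integral_ofReal.symm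
  rw [e0]
  refine integral_congr_ae (Eventually.of_forall fun t => ?_)
  simp only
  have e : LL (ι := Unit) (fun _ => ((k / 2 : ℝ) : ℂ)) (fun _ => x) (zet t) =
      ((k / 2 : ℝ) : ℂ) * la x (zet t) := by unfold LL; simp
  rw [e, map_mul, Complex.conj_ofReal, ← mul_add, Complex.add_conj, Complex.ofReal_exp]
  congr 1
  push_cast
  ring

lemma e1_bound (k : ℝ) (x : ℂ) (hx : ‖x‖ ≤ 3 / 4) :
    |e1 k x - (1 + k ^ 2 / 4 * ‖x‖ ^ 2)| ≤ c1 k * ‖x‖ ^ 4 := by
  have h := E1_approx (ι := Unit) (fun _ => ((k / 2 : ℝ) : ℂ)) (fun _ => ((k / 2 : ℝ) : ℂ))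
    (fun _ => x) ‖x‖ (norm_nonneg _) hx (fun _ => le_rfl)
  rw [← e1_eq] at h
  simp only [Finset.univ_unique, Finset.sum_const, Finset.card_singleton, one_smul] at h
  have e : ((e1 k x : ℝ) : ℂ) - 1 - ((k / 2 : ℝ) : ℂ) * x * conj (((k / 2 : ℝ) : ℂ) * x) =
      ((e1 k x - (1 + k ^ 2 / 4 * ‖x‖ ^ 2) : ℝ) : ℂ) := by
    rw [Complex.mul_conj, Complex.normSq_eq_norm_sq, norm_mul, Complex.norm_real]
    rw [mul_pow, Real.norm_eq_abs, sq_abs]
    push_cast
    ring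
  rw [e, Complex.norm_real, Real.norm_eq_abs] at h
  exact h

lemma e1_pos (k : ℝ) (x : ℂ) (hx : ‖x‖ < 1) : 0 < e1 k x := by
  unfold e1
  refine integral_exp_pos (integrable_cir (Real.continuous_exp.comp ?_))
  exact continuous_const.mul (Complex.continuous_re.comp (continuous_la_zet _ hx))

lemma norm_EP_rpow (Q : Finset ℕ) (s : ℂ) (z : Tor) (k : ℝ) :
    ‖EP Q s z‖ ^ k = ∏ j ∈ Q, Real.exp (k * (la (px s j) (zet (z j))).re) := by
  unfold EP
  rw [Complex.norm_exp, ← Real.exp_mul, Complex.re_sum, Finset.sum_mul, Real.exp_sum]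
  exact Finset.prod_congr rfl fun j _ => by rw [mul_comm]

lemma mo_EP (k : ℝ) (M : ℕ) (s : ℂ) (hs : 0 < s.re) :
    mo k (EP (Finset.range M) s) = ∏ j ∈ Finset.range M, e1 k (px s j) := by
  have hc : ∀ j, Continuous fun t : UnitAddCircle =>
      ((Real.exp (k * (la (px s j) (zet t)).re) : ℝ) : ℂ) := fun j =>
    Complex.continuous_ofReal.comp (Real.continuous_exp.comp (continuous_const.mul
      (Complex.continuous_re.comp (continuous_la_zet _ (norm_px_lt s hs j)))))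
  have h := integral_prod_range (fun j t => ((Real.exp (k * (la (px s j) (zet t)).re) : ℝ) : ℂ))
    hc M
  have h1 : ((mo k (EP (Finset.range M) s) : ℝ) : ℂ) =
      ((∏ j ∈ Finset.range M, e1 k (px s j) : ℝ) : ℂ) := by
    unfold mo
    have e0 : ((∫ z, ‖EP (Finset.range M) s z‖ ^ k ∂tor : ℝ) : ℂ) =
        ∫ z, ((‖EP (Finset.range M) s z‖ ^ k : ℝ) : ℂ) ∂tor := integral_ofReal.symm
    rw [e0]
    have e2 : ∀ z, ((‖EP (Finset.range M) s z‖ ^ k : ℝ) : ℂ) =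
        ∏ j ∈ Finset.range M, ((Real.exp (k * (la (px s j) (zet (z j))).re) : ℝ) : ℂ) := by
      intro z
      rw [norm_EP_rpow]
      push_cast
      rfl
    simp_rw [e2]
    rw [h, Complex.ofReal_prod]
    refine Finset.prod_congr rfl fun j _ => ?_
    unfold e1
    exact integral_ofReal
  exact_mod_cast h1

lemma mo_EP_le (k : ℝ) (M : ℕ) (s : ℂ) (hs : 0 < s.re) (hx : ∀ j, ‖px s j‖ ≤ 3 / 4) (A B : ℝ)
    (hA : ∑ j ∈ Finset.range M, ‖px s j‖ ^ 2 ≤ A) (hB : ∑ j ∈ Finset.range M, ‖px s j‖ ^ 4 ≤ B) :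
    mo k (EP (Finset.range M) s) ≤ Real.exp (k ^ 2 / 4 * A + c1 k * B) := by
  rw [mo_EP k M s hs]
  have h1 : ∏ j ∈ Finset.range M, e1 k (px s j) ≤
      ∏ j ∈ Finset.range M, Real.exp (k ^ 2 / 4 * ‖px s j‖ ^ 2 + c1 k * ‖px s j‖ ^ 4) := by
    refine Finset.prod_le_prod (fun j _ => (e1_pos k _ (norm_px_lt s hs j)).le) fun j _ => ?_
    have h2 := (abs_le.1 (e1_bound k (px s j) (hx j))).2
    have h3 := Real.add_one_le_exp (k ^ 2 / 4 * ‖px s j‖ ^ 2 + c1 k * ‖px s j‖ ^ 4)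
    linarith
  refine h1.trans ?_
  rw [← Real.exp_sum]
  refine Real.exp_le_exp.2 ?_
  rw [Finset.sum_add_distrib, ← Finset.mul_sum, ← Finset.mul_sum]
  have := c1_nonneg k
  exact add_le_add (mul_le_mul_of_nonneg_left hA (by positivity))
    (mul_le_mul_of_nonneg_left hB this)

/-- the first `M` primes are at most `e^{1/η}` -/
def Small (M : ℕ) (η : ℝ) : Prop := ∀ j < M, Real.log (Nat.nth Nat.Prime j) ≤ 1 / η

lemma sum_primes_le (g : ℕ → ℝ) (hg : ∀ p, 0 ≤ g p) (M : ℕ) (X : ℕ)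
    (h : ∀ j < M, Nat.nth Nat.Prime j ≤ X) :
    ∑ j ∈ Finset.range M, g (Nat.nth Nat.Prime j) ≤
      ∑ p ∈ (Finset.Icc 1 X).filter Nat.Prime, g p := by
  have e : ∑ j ∈ Finset.range M, g (Nat.nth Nat.Prime j) =
      ∑ p ∈ (Finset.range M).image (Nat.nth Nat.Prime), g p := by
    rw [Finset.sum_image]
    intro i _ j _ hij
    exact Nat.nth_injective Nat.infinite_setOfPred_prime hij
  rw [e]
  refine Finset.sum_le_sum_of_subset_of_nonneg ?_ fun p _ _ => hg p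
  intro p hp
  obtain ⟨j, hj, rfl⟩ := Finset.mem_image.1 hp
  have hpr := Nat.prime_nth_prime j
  exact Finset.mem_filter.2 ⟨Finset.mem_Icc.2 ⟨hpr.one_lt.le, h j (Finset.mem_range.1 hj)⟩, hpr⟩

lemma small_le {M : ℕ} {η : ℝ} (h : Small M η) (j : ℕ) (hj : j < M) :
    Nat.nth Nat.Prime j ≤ ⌊Real.exp (1 / η)⌋₊ := by
  refine Nat.le_floor ?_
  have h2 := two_le_p j
  rw [← Real.exp_log (by linarith : (0 : ℝ) < Nat.nth Nat.Prime j)]
  exact Real.exp_le_exp.2 (h j hj)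

lemma exp_le_chord (x : ℝ) (h0 : 0 ≤ x) (h2 : x ≤ 2) : Real.exp x ≤ 1 + 4 * x := by
  have h := convexOn_exp.2 (Set.mem_univ 0) (Set.mem_univ 2)
    (show 0 ≤ 1 - x / 2 by linarith) (show 0 ≤ x / 2 by linarith) (by ring)
  simp only [smul_eq_mul, mul_zero, zero_add, Real.exp_zero, mul_one] at h
  have e : x / 2 * 2 = x := by ring
  rw [e] at h
  have he : Real.exp 2 ≤ 9 := by
    have h3 : Real.exp 2 = Real.exp 1 ^ 2 := by
      rw [← Real.exp_nat_mul]; norm_num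
    rw [h3]
    have h4 := Real.exp_one_lt_d9
    have h5 := Real.exp_pos 1
    nlinarith
  nlinarith

lemma mertens_small : ∃ C : ℝ, 0 ≤ C ∧ ∀ (M : ℕ) (η : ℝ), 0 < η → η ≤ 1 / 24 → Small M η →
    (∑ j ∈ Finset.range M, 1 / (Nat.nth Nat.Prime j : ℝ) ≤ Real.log (1 / η) + C) ∧
    ∑ j ∈ Finset.range M, Real.log (Nat.nth Nat.Prime j) / (Nat.nth Nat.Prime j : ℝ) ≤
      1 / η + C := by
  obtain ⟨C1, h1⟩ := Pool.Agent.Helper256.KM.mertens_inv
  obtain ⟨C2, h2⟩ := Pool.Agent.Helper256.KM.mertens_log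
  refine ⟨max C1 0 + max C2 0, by positivity, fun M η hη hη1 hM => ?_⟩
  set X := ⌊Real.exp (1 / η)⌋₊ with hX
  have h24 : 24 ≤ 1 / η := by
    rw [le_div_iff₀ hη]; linarith
  have hX3 : 3 ≤ X := by
    refine Nat.le_floor ?_
    have := Real.add_one_le_exp (1 / η)
    push_cast
    linarith
  have hXl : Real.log X ≤ 1 / η := by
    have h3 : (X : ℝ) ≤ Real.exp (1 / η) := Nat.floor_le (Real.exp_pos _).le
    have h4 : (0 : ℝ) < X := by exact_mod_cast (by omega : 0 < X)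
    calc Real.log X ≤ Real.log (Real.exp (1 / η)) := Real.log_le_log h4 h3
      _ = 1 / η := Real.log_exp _
  have hX1 : 1 ≤ Real.log X := by
    rw [Real.le_log_iff_exp_le (by exact_mod_cast (by omega : 0 < X))]
    have := Real.exp_one_lt_d9
    have : (3 : ℝ) ≤ X := by exact_mod_cast hX3
    linarith
  have hle := small_le hM
  constructor
  · refine (sum_primes_le (fun p => 1 / (p : ℝ)) (fun p => by positivity) M X hle).trans ?_
    have h5 := (abs_le.1 (h1 X hX3)).2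
    have h6 : Real.log (Real.log X) ≤ Real.log (1 / η) := Real.log_le_log (by linarith) hXl
    have := le_max_left C1 0
    have := le_max_right C2 0
    linarith
  · refine (sum_primes_le (fun p => Real.log p / (p : ℝ)) (fun p => by
      have := Real.log_natCast_nonneg p
      positivity) M X hle).trans ?_
    have h5 := (abs_le.1 (h2 X (by omega))).2
    have := le_max_left C2 0
    have := le_max_right C1 0
    linarith

lemma norm_px_le (s : ℂ) (hs : 5 / 12 ≤ s.re) (j : ℕ) : ‖px s j‖ ≤ 3 / 4 := by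
  rw [norm_px]
  have h := two_le_p j
  have h1 : (Nat.nth Nat.Prime j : ℝ) ^ (-s.re) ≤ (2 : ℝ) ^ (-(5 / 12) : ℝ) := by
    calc (Nat.nth Nat.Prime j : ℝ) ^ (-s.re) ≤ (2 : ℝ) ^ (-s.re) :=
          Real.rpow_le_rpow_of_nonpos (by norm_num) h (by linarith)
      _ ≤ (2 : ℝ) ^ (-(5 / 12) : ℝ) :=
          Real.rpow_le_rpow_of_exponent_le (by norm_num) (by linarith)
  refine h1.trans ?_
  have h2 : ((2 : ℝ) ^ (-(5 / 12) : ℝ)) ^ (12 : ℕ) ≤ (3 / 4 : ℝ) ^ (12 : ℕ) := by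
    rw [← Real.rpow_natCast, ← Real.rpow_mul (by norm_num)]
    have e : (-(5 / 12) : ℝ) * ((12 : ℕ) : ℝ) = -((5 : ℕ) : ℝ) := by norm_num
    rw [e, Real.rpow_neg (by norm_num), Real.rpow_natCast]
    norm_num
  exact le_of_pow_le_pow_left₀ (by norm_num) (by norm_num) h2

lemma sum_four : ∃ C : ℝ, 0 ≤ C ∧ ∀ (M : ℕ) (s : ℂ), 5 / 12 ≤ s.re →
    ∑ j ∈ Finset.range M, ‖px s j‖ ^ 4 ≤ C := by
  have hs : Summable fun j : ℕ => ((j + 1 : ℕ) : ℝ) ^ (-(5 / 3) : ℝ) :=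
    (summable_nat_add_iff 1).2 (Real.summable_nat_rpow.2 (by norm_num))
  refine ⟨∑' j : ℕ, ((j + 1 : ℕ) : ℝ) ^ (-(5 / 3) : ℝ), tsum_nonneg fun j => by positivity,
    fun M s hs5 => ?_⟩
  refine (Finset.sum_le_sum fun j _ => ?_).trans
    (hs.sum_le_tsum (Finset.range M) fun j _ => by positivity)
  have h := two_le_p j
  rw [norm_px, ← Real.rpow_natCast, ← Real.rpow_mul (by linarith)]
  have h1 : ((j + 1 : ℕ) : ℝ) ≤ (Nat.nth Nat.Prime j : ℝ) := by
    have := Nat.add_two_le_nth_prime j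
    exact_mod_cast (by omega : j + 1 ≤ Nat.nth Nat.Prime j)
  calc (Nat.nth Nat.Prime j : ℝ) ^ (-s.re * ((4 : ℕ) : ℝ)) ≤
      (Nat.nth Nat.Prime j : ℝ) ^ (-(5 / 3) : ℝ) :=
        Real.rpow_le_rpow_of_exponent_le (by linarith) (by push_cast; linarith)
    _ ≤ _ := Real.rpow_le_rpow_of_nonpos (by positivity) h1 (by norm_num)

/-- **moments of the Euler products** -/
theorem mo_EP_bound (k : ℝ) : ∃ C : ℝ, 0 < C ∧ ∀ (M : ℕ) (η : ℝ), 0 < η → η ≤ 1 / 24 →
    Small M η → ∀ s : ℂ, 1 / 2 - η ≤ s.re →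
    mo k (EP (Finset.range M) s) ≤ C * (1 / η) ^ (k ^ 2 / 4) := by
  obtain ⟨C1, hC1, h1⟩ := mertens_small
  obtain ⟨C2, hC2, h2⟩ := sum_four
  refine ⟨Real.exp (k ^ 2 / 4 * (C1 + 8 * (1 + C1)) + c1 k * C2), Real.exp_pos _,
    fun M η hη hη1 hM s hs => ?_⟩
  have hs5 : 5 / 12 ≤ s.re := by linarith
  obtain ⟨h3, h4⟩ := h1 M η hη hη1 hM
  have hA : ∑ j ∈ Finset.range M, ‖px s j‖ ^ 2 ≤ Real.log (1 / η) + (C1 + 8 * (1 + C1)) := by
    have h5 : ∀ j ∈ Finset.range M, ‖px s j‖ ^ 2 ≤ 1 / (Nat.nth Nat.Prime j : ℝ) +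
        8 * η * (Real.log (Nat.nth Nat.Prime j) / (Nat.nth Nat.Prime j : ℝ)) := by
      intro j hj
      have hp := two_le_p j
      have hp0 : (0 : ℝ) < Nat.nth Nat.Prime j := by linarith
      have hl0 : 0 ≤ Real.log (Nat.nth Nat.Prime j) := Real.log_nonneg (by linarith)
      have hl := hM j (Finset.mem_range.1 hj)
      have hl2 : η * Real.log (Nat.nth Nat.Prime j) ≤ 1 := by
        rw [le_div_iff₀ hη] at hl; linarith
      rw [norm_px, ← Real.rpow_natCast, ← Real.rpow_mul hp0.le]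
      calc (Nat.nth Nat.Prime j : ℝ) ^ (-s.re * ((2 : ℕ) : ℝ)) ≤
          (Nat.nth Nat.Prime j : ℝ) ^ (-1 + 2 * η) :=
            Real.rpow_le_rpow_of_exponent_le (by linarith) (by push_cast; linarith)
        _ = (1 / (Nat.nth Nat.Prime j : ℝ)) *
            Real.exp (2 * (η * Real.log (Nat.nth Nat.Prime j))) := by
            rw [Real.rpow_add hp0, Real.rpow_neg_one, one_div, Real.rpow_def_of_pos hp0]
            congr 2
            ring
        _ ≤ (1 / (Nat.nth Nat.Prime j : ℝ)) *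
            (1 + 4 * (2 * (η * Real.log (Nat.nth Nat.Prime j)))) := by
            refine mul_le_mul_of_nonneg_left (exp_le_chord _ ?_ ?_) (by positivity)
            · positivity
            · linarith
        _ = _ := by ring
    refine (Finset.sum_le_sum h5).trans ?_
    rw [Finset.sum_add_distrib, ← Finset.mul_sum]
    have h6 : 8 * η * ∑ j ∈ Finset.range M, Real.log (Nat.nth Nat.Prime j) /
        (Nat.nth Nat.Prime j : ℝ) ≤ 8 * η * (1 / η + C1) :=
      mul_le_mul_of_nonneg_left h4 (by positivity)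
    have h7 : 8 * η * (1 / η + C1) = 8 * (1 + η * C1) := by field_simp
    have h8 : η * C1 ≤ C1 := by nlinarith
    linarith
  refine (mo_EP_le k M s (by linarith) (norm_px_le s hs5) _ _ hA (h2 M s hs5)).trans
    (le_of_eq ?_)
  rw [Real.rpow_def_of_pos (by positivity), ← Real.exp_add]
  congr 1
  ring

end Pool.Agent.H7.PL
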