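import Pool.Agent.H7.PL.L5

set_option autoImplicit false
open MeasureTheory Metric Filter
open scoped ComplexConjugate ENNReal Topology

/-! Suprema of the Euler products over vertical lines. -/

namespace Pool.Agent.H7.PL

open Pool.Agent.Helper873.OneVar Pool.Agent.Helper873.Product Pool.Agent.Helper873.Embed
  Pool.Agent.H7.PM

lemma cont_EP_joint {X : Type*} [TopologicalSpace X] (Q : Finset ℕ) {φ : X → ℂ}
    (hφ : Continuous φ) (hre : ∀ x, 0 < (φ x).re) {ψ : X → Tor} (hψ : Continuous ψ) :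
    Continuous fun x => EP Q (φ x) (ψ x) := by
  unfold EP
  refine Complex.continuous_exp.comp (continuous_finsetSum _ fun j _ => ?_)
  unfold la
  have hp0 : (Nat.nth Nat.Prime j : ℂ) ≠ 0 := by
    exact_mod_cast (Nat.prime_nth_prime j).ne_zero
  have h1 : Continuous fun x => px (φ x) j := by
    unfold px
    exact hφ.neg.const_cpow (Or.inl hp0)
  have h2 : Continuous fun x => zet (ψ x j) :=
    continuous_zet.comp ((continuous_apply j).comp hψ)
  refine (Continuous.clog (continuous_const.sub (h1.mul h2)) fun x => ?_).neg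
  exact la_slit _ _ (by rw [norm_mul, norm_zet, mul_one]; exact norm_px_lt _ (hre x) j)

/-- mean over a circle -/
noncomputable def vv (Q : Finset ℕ) (c : ℂ) (R k : ℝ) (z : Tor) : ℝ :=
  ∫ t, ‖EP Q (c + R * zet t) z‖ ^ k ∂cir

lemma ball_re {c : ℂ} {R : ℝ} (hR : 0 < R) {ζ : ℂ} (hζ : ‖ζ‖ ≤ 1) : c.re - R ≤ (c + R * ζ).re := by
  rw [Complex.add_re, Complex.re_ofReal_mul]
  have h1 := (abs_le.1 ((Complex.abs_re_le_norm ζ).trans hζ)).1
  nlinarith

lemma cont_circ (Q : Finset ℕ) (c : ℂ) (R k : ℝ) (hR : 0 < R) (hc : R < c.re) (hk : 0 ≤ k) :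
    Continuous fun q : Tor × UnitAddCircle => ‖EP Q (c + R * zet q.2) q.1‖ ^ k := by
  have h1 : Continuous fun q : Tor × UnitAddCircle => EP Q (c + R * zet q.2) q.1 :=
    cont_EP_joint Q (φ := fun q : Tor × UnitAddCircle => c + R * zet q.2)
      (continuous_const.add (continuous_const.mul (continuous_zet.comp continuous_snd)))
      (fun q => by
        have := ball_re (c := c) hR (norm_zet q.2).le
        linarith) continuous_fst
  exact h1.norm.rpow_const fun _ => Or.inr hk

lemma continuous_vv (Q : Finset ℕ) (c : ℂ) (R k : ℝ) (hR : 0 < R) (hc : R < c.re) (hk : 0 ≤ k) :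
    Continuous (vv Q c R k) := by
  have h := continuous_parametric_integral_of_continuous (μ := cir)
    (f := fun (z : Tor) (t : UnitAddCircle) => ‖EP Q (c + R * zet t) z‖ ^ k)
    (cont_circ Q c R k hR hc hk) isCompact_univ
  simp only [Measure.restrict_univ] at h
  exact h

lemma vv_nonneg (Q : Finset ℕ) (c : ℂ) (R k : ℝ) (z : Tor) : 0 ≤ vv Q c R k z :=
  integral_nonneg fun t => by positivity

lemma int_vv (Q : Finset ℕ) (c : ℂ) (R k : ℝ) (hR : 0 < R) (hc : R < c.re) (hk : 0 ≤ k) :
    ∫ z, vv Q c R k z ∂tor = ∫ t, mo k (EP Q (c + R * zet t)) ∂cir := by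
  unfold vv mo
  exact integral_integral_swap (f := fun z t => ‖EP Q (c + R * zet t) z‖ ^ k)
    ((cont_circ Q c R k hR hc hk).integrable_of_hasCompactSupport
      (HasCompactSupport.of_compactSpace _))

lemma disc (Q : Finset ℕ) (c : ℂ) (R k : ℝ) (hR : 0 < R) (hc : R < c.re) (z : Tor) (w : ℂ)
    (hw : ‖w‖ ≤ 1 / 2) : ‖EP Q (c + R * w) z‖ ^ k ≤ 2 * vv Q c R k z := by
  set φ : ℂ → ℂ := fun ζ => Complex.exp (k * ∑ j ∈ Q, la (px (c + R * ζ) j) (zet (z j))) with hφ
  have hn : ∀ ζ, ‖φ ζ‖ = ‖EP Q (c + R * ζ) z‖ ^ k := by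
    intro ζ
    simp only [hφ]
    rw [Complex.norm_exp, Complex.re_ofReal_mul]
    unfold EP
    rw [Complex.norm_exp, ← Real.exp_mul, mul_comm]
  have hd : DiffContOnCl ℂ φ (ball 0 1) := by
    refine DifferentiableOn.diffContOnCl fun ζ hζ => ?_
    rw [closure_ball _ one_ne_zero, mem_closedBall_zero_iff] at hζ
    have hre : 0 < (c + R * ζ).re := by
      have := ball_re (c := c) hR hζ
      linarith
    refine DifferentiableAt.differentiableWithinAt ?_
    refine DifferentiableAt.cexp (DifferentiableAt.const_mul ?_ _)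
    refine DifferentiableAt.fun_sum fun j _ => ?_
    unfold la px
    have hp0 : (Nat.nth Nat.Prime j : ℂ) ≠ 0 := by
      exact_mod_cast (Nat.prime_nth_prime j).ne_zero
    refine DifferentiableAt.neg (DifferentiableAt.clog ?_ ?_)
    · refine (differentiableAt_const _).sub (DifferentiableAt.mul_const ?_ _)
      refine DifferentiableAt.const_cpow ?_ (Or.inl hp0)
      fun_prop
    · exact la_slit _ _ (by
        rw [norm_mul, norm_zet, mul_one]; exact norm_px_lt _ hre j)
  have h1 := DiffContOnCl.circleAverage_smul_div (c := 0) (R := 1) (w := w) (f := φ)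
    (by simpa using hd) (by
      rw [mem_ball_zero_iff, abs_one]
      linarith)
  rw [← hn w, ← h1, ← integral_zet]
  unfold vv
  rw [← integral_const_mul]
  refine norm_integral_le_of_norm_le ?_ (Eventually.of_forall fun t => ?_)
  · have h2 := (cont_EP_joint Q (φ := fun t : UnitAddCircle => c + R * zet t)
      (continuous_const.add (continuous_const.mul continuous_zet))
      (fun t => by
        have := ball_re (c := c) hR (norm_zet t).le
        linarith) (ψ := fun _ => z) continuous_const)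
    refine integrable_cir (continuous_const.mul ?_)
    by_cases hk : 0 ≤ k
    · exact h2.norm.rpow_const fun _ => Or.inr hk
    · refine h2.norm.rpow_const fun t => Or.inl ?_
      rw [norm_ne_zero_iff]
      unfold EP
      exact Complex.exp_ne_zero _
  · rw [norm_smul, hn, sub_zero, norm_div, norm_zet]
    refine mul_le_mul_of_nonneg_right ?_ (by positivity)
    have h3 : 1 / 2 ≤ ‖zet t - w‖ := by
      have := norm_sub_norm_le (zet t) w
      rw [norm_zet] at this
      linarith
    rw [div_le_iff₀ (by linarith)]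
    linarith

/-- the weights -/
noncomputable def wj (j : ℤ) : ℝ := ((1 + |(j : ℝ)|) ^ 2)⁻¹

lemma wj_pos (j : ℤ) : 0 < wj j := by unfold wj; positivity

lemma summable_wj : Summable wj := by
  have h : Summable fun n : ℕ => ((1 + (n : ℝ)) ^ 2)⁻¹ := by
    have h1 := (summable_nat_add_iff 1).2 (Real.summable_nat_pow_inv.2 one_lt_two)
    refine h1.congr fun n => ?_
    push_cast
    rw [add_comm]
  refine Summable.of_nat_of_neg ?_ ?_
  · refine h.congr fun n => ?_
    unfold wj
    simp
  · refine h.congr fun n => ?_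
    unfold wj
    simp

/-- centres -/
noncomputable def ctr (η : ℝ) (j : ℤ) : ℂ := vt (1 / 2 - η / 2) (η / 4 * j)

/-- the majorant -/
noncomputable def VV (M : ℕ) (η k : ℝ) (z : Tor) : ℝ :=
  ∑' j : ℤ, 32 * (wj j * vv (Finset.range M) (ctr η j) (η / 2) k z)

section
variable {M : ℕ} {η k : ℝ} (hη : 0 < η) (hη1 : η ≤ 1 / 24)
include hη hη1

lemma ctr_re (j : ℤ) : η / 2 < (ctr η j).re := by
  unfold ctr
  rw [vt_re]
  linarith

lemma EP_unif (s : ℂ) (hs : 1 / 2 - η ≤ s.re) (z : Tor) :
    ‖EP (Finset.range M) s z‖ ≤ ∑' n, ‖cq (Finset.range M) ((1 / 2 - η : ℝ) : ℂ) n‖ := by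
  have h0 : (0 : ℝ) < 1 / 2 - η := by linarith
  refine (norm_EP_le _ _ (by linarith) z).trans ?_
  refine Summable.tsum_le_tsum (fun n => ?_) (summable_cq _ _ (by linarith))
    (summable_cq _ _ (by rw [Complex.ofReal_re]; exact h0))
  unfold cq
  split_ifs with h
  · have hn0 : (0 : ℝ) < n := by
      exact_mod_cast Nat.pos_of_ne_zero (Nat.mem_factoredNumbers.1 h).1
    have hn1 : (1 : ℝ) ≤ n := by
      exact_mod_cast Nat.one_le_iff_ne_zero.2 (Nat.mem_factoredNumbers.1 h).1
    rw [← Complex.ofReal_natCast, Complex.norm_cpow_eq_rpow_re_of_pos hn0,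
      Complex.norm_cpow_eq_rpow_re_of_pos hn0]
    refine Real.rpow_le_rpow_of_exponent_le hn1 ?_
    rw [Complex.neg_re, Complex.neg_re, Complex.ofReal_re]
    linarith
  · simp

lemma vv_le (hk : 0 ≤ k) (j : ℤ) (z : Tor) : vv (Finset.range M) (ctr η j) (η / 2) k z ≤
    (∑' n, ‖cq (Finset.range M) ((1 / 2 - η : ℝ) : ℂ) n‖) ^ k := by
  unfold vv
  have h := norm_integral_le_of_norm_le_const (μ := cir)
    (f := fun t => ‖EP (Finset.range M) (ctr η j + ((η / 2 : ℝ) : ℂ) * zet t) z‖ ^ k)
    (C := (∑' n, ‖cq (Finset.range M) ((1 / 2 - η : ℝ) : ℂ) n‖) ^ k)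
    (Eventually.of_forall fun t => by
      rw [Real.norm_of_nonneg (by positivity)]
      refine Real.rpow_le_rpow (norm_nonneg _) (EP_unif hη hη1 _ ?_ z) hk
      have := ball_re (c := ctr η j) (R := η / 2) (by linarith) (norm_zet t).le
      have h2 : (ctr η j).re = 1 / 2 - η / 2 := by unfold ctr; rw [vt_re]
      linarith)
  simp only [probReal_univ, mul_one] at h
  exact (le_abs_self _).trans h

lemma continuous_VV (hk : 0 ≤ k) : Continuous (VV M η k) := by
  unfold VV
  refine continuous_tsum (fun j => ?_) ((summable_wj.mul_right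
    ((∑' n, ‖cq (Finset.range M) ((1 / 2 - η : ℝ) : ℂ) n‖) ^ k)).mul_left 32) fun j z => ?_
  · exact continuous_const.mul (continuous_const.mul
      (continuous_vv _ _ _ _ (by linarith) (ctr_re hη hη1 j) hk))
  · have h1 := vv_nonneg (Finset.range M) (ctr η j) (η / 2) k z
    have h2 := (wj_pos j).le
    rw [Real.norm_of_nonneg (by positivity)]
    have h3 := vv_le (M := M) hη hη1 hk j z
    gcongr

lemma summable_VV (hk : 0 ≤ k) (z : Tor) :
    Summable fun j : ℤ => 32 * (wj j * vv (Finset.range M) (ctr η j) (η / 2) k z) := by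
  refine Summable.of_nonneg_of_le (fun j => ?_) (fun j => ?_) ((summable_wj.mul_right
    ((∑' n, ‖cq (Finset.range M) ((1 / 2 - η : ℝ) : ℂ) n‖) ^ k)).mul_left 32)
  · have h1 := vv_nonneg (Finset.range M) (ctr η j) (η / 2) k z
    have h2 := (wj_pos j).le
    positivity
  · have h3 := vv_le (M := M) hη hη1 hk j z
    have h2 := (wj_pos j).le
    gcongr

omit hη hη1 in
lemma VV_nonneg (z : Tor) : 0 ≤ VV M η k z := by
  unfold VV
  refine tsum_nonneg fun j => ?_
  have h1 := vv_nonneg (Finset.range M) (ctr η j) (η / 2) k z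
  have h2 := (wj_pos j).le
  positivity

lemma int_VV (hk : 0 ≤ k) (B : ℝ) (hB : ∀ s : ℂ, 1 / 2 - η ≤ s.re →
    mo k (EP (Finset.range M) s) ≤ B) :
    ∫ z, VV M η k z ∂tor ≤ 32 * ((∑' j, wj j) * B) := by
  have hvi : ∀ j : ℤ, ∫ z, vv (Finset.range M) (ctr η j) (η / 2) k z ∂tor ≤ B := by
    intro j
    rw [int_vv _ _ _ _ (by linarith) (ctr_re hη hη1 j) hk]
    have h := norm_integral_le_of_norm_le_const (μ := cir)
      (f := fun t => mo k (EP (Finset.range M) (ctr η j + ((η / 2 : ℝ) : ℂ) * zet t))) (C := B)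
      (Eventually.of_forall fun t => by
        rw [Real.norm_of_nonneg (mo_nonneg _ _)]
        refine hB _ ?_
        have := ball_re (c := ctr η j) (R := η / 2) (by linarith) (norm_zet t).le
        have h2 : (ctr η j).re = 1 / 2 - η / 2 := by unfold ctr; rw [vt_re]
        linarith)
    simp only [probReal_univ, mul_one] at h
    exact (le_abs_self _).trans h
  have hcont : ∀ j : ℤ, Continuous fun z =>
      32 * (wj j * vv (Finset.range M) (ctr η j) (η / 2) k z) := fun j =>
    continuous_const.mul (continuous_const.mul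
      (continuous_vv _ _ _ _ (by linarith) (ctr_re hη hη1 j) hk))
  have hnn : ∀ j z, 0 ≤ 32 * (wj j * vv (Finset.range M) (ctr η j) (η / 2) k z) := by
    intro j z
    have h1 := vv_nonneg (Finset.range M) (ctr η j) (η / 2) k z
    have h2 := (wj_pos j).le
    positivity
  have hval : ∀ j : ℤ, ∫ z, 32 * (wj j * vv (Finset.range M) (ctr η j) (η / 2) k z) ∂tor ≤
      32 * (wj j * B) := by
    intro j
    rw [integral_const_mul, integral_const_mul]
    have h2 := (wj_pos j).le
    have := hvi j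
    gcongr
  have hsum : Summable fun j : ℤ => 32 * (wj j * B) := (summable_wj.mul_right B).mul_left 32
  have hsum2 : Summable fun j : ℤ =>
      ∫ z, ‖32 * (wj j * vv (Finset.range M) (ctr η j) (η / 2) k z)‖ ∂tor := by
    refine Summable.of_nonneg_of_le (fun j => integral_nonneg fun z => norm_nonneg _)
      (fun j => ?_) hsum
    refine le_trans (le_of_eq ?_) (hval j)
    refine integral_congr_ae (Eventually.of_forall fun z => ?_)
    simp only
    rw [Real.norm_of_nonneg (hnn j z)]
  have h := integral_tsum_of_summable_integral_norm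
    (fun j => integrable_tor' (hcont j)) hsum2
  unfold VV
  rw [← h]
  have hs3 : Summable fun j : ℤ =>
      ∫ z, 32 * (wj j * vv (Finset.range M) (ctr η j) (η / 2) k z) ∂tor :=
    Summable.of_nonneg_of_le (fun j => integral_nonneg (hnn j)) hval hsum
  refine (Summable.tsum_le_tsum hval hs3 hsum).trans (le_of_eq ?_)
  rw [tsum_mul_left, tsum_mul_right]

lemma EP_le_VV (hk : 0 ≤ k) (z : Tor) (y : ℝ) :
    ‖EP (Finset.range M) (vt (1 / 2 - η / 2) y) z‖ ^ k ≤ (1 + |y| / η) ^ 2 * VV M η k z := by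
  set j : ℤ := ⌊4 * y / η⌋ with hj
  have h1 : (j : ℝ) ≤ 4 * y / η := Int.floor_le _
  have h2 : 4 * y / η < j + 1 := Int.lt_floor_add_one _
  set w : ℂ := (((4 * y / η - j) / 2 : ℝ) : ℂ) * Complex.I with hw
  have e : vt (1 / 2 - η / 2) y = ctr η j + ((η / 2 : ℝ) : ℂ) * w := by
    have e1 : y = η / 4 * j + η / 2 * ((4 * y / η - j) / 2) := by field_simp; ring
    unfold ctr vt
    rw [hw]
    conv_lhs => rw [e1]
    push_cast
    ring
  have hwn : ‖w‖ ≤ 1 / 2 := by
    rw [hw, norm_mul, Complex.norm_I, mul_one, Complex.norm_real, Real.norm_eq_abs,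
      abs_of_nonneg (by linarith)]
    linarith
  rw [e]
  have h3 := disc (Finset.range M) (ctr η j) (η / 2) k (by linarith) (ctr_re hη hη1 j) z w hwn
  have h4 : 32 * (wj j * vv (Finset.range M) (ctr η j) (η / 2) k z) ≤ VV M η k z :=
    (summable_VV hη hη1 hk z).le_tsum j fun i _ => by
      have h1 := vv_nonneg (Finset.range M) (ctr η i) (η / 2) k z
      have h2 := (wj_pos i).le
      positivity
  have h5 : (1 + |(j : ℝ)|) ^ 2 ≤ 16 * (1 + |y| / η) ^ 2 := by
    have h6 : |(j : ℝ)| ≤ 4 * (|y| / η) + 1 := by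
      have h7 : |4 * y / η| = 4 * (|y| / η) := by
        rw [abs_div, abs_mul, abs_of_pos hη, abs_of_pos (by norm_num : (0 : ℝ) < 4)]
        ring
      rw [← h7, abs_le]
      have := neg_abs_le (4 * y / η)
      have := le_abs_self (4 * y / η)
      constructor <;> linarith
    have h8 : 0 ≤ |y| / η := by positivity
    have h9 : 0 ≤ |(j : ℝ)| := abs_nonneg _
    nlinarith
  refine h3.trans ?_
  have hv := vv_nonneg (Finset.range M) (ctr η j) (η / 2) k z
  set v := vv (Finset.range M) (ctr η j) (η / 2) k z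
  have h10 : v = (1 + |(j : ℝ)|) ^ 2 * (wj j * v) := by
    unfold wj
    field_simp
  have h11 : 0 ≤ wj j * v := mul_nonneg (wj_pos j).le hv
  calc 2 * v = 2 * ((1 + |(j : ℝ)|) ^ 2 * (wj j * v)) := by rw [← h10]
    _ ≤ 2 * ((16 * (1 + |y| / η) ^ 2) * (wj j * v)) := by gcongr
    _ = (1 + |y| / η) ^ 2 * (32 * (wj j * v)) := by ring
    _ ≤ _ := mul_le_mul_of_nonneg_left h4 (by positivity)

end

/-- tails of the smooth cuts -/
theorem tail_bound' (k : ℝ) (hk : 0 < k) : ∃ (C : ℝ) (r : ℕ), 0 < C ∧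
    ∀ (M : ℕ) (η τ σ U : ℝ) (z : Tor), 0 < η → η ≤ 1 / 24 → 0 < τ → 0 < σ → σ ≤ 1 →
    τ * σ = η / 2 → 0 < U →
    ‖EP (Finset.range M) (1 / 2) z - W (Finset.range M) τ U z‖ ≤
      C / σ * (1 + τ / η) ^ r * VV M η k z ^ (1 / k) * U ^ (-σ) := by
  obtain ⟨r, hr⟩ := exists_nat_ge (2 / k)
  obtain ⟨C, hC, h⟩ := W_large r
  refine ⟨C, r, hC, fun M η τ σ U z hη hη1 hτ hσ hσ1 hτσ hU => ?_⟩
  have h1 := h (Finset.range M) τ σ U ((1 + τ / η) ^ r * VV M η k z ^ (1 / k)) z hσ hσ1
    (by linarith) hU (fun ξ => by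
      have e : (1 / 2 - τ * vt σ ξ : ℂ) = vt (1 / 2 - η / 2) (-(τ * ξ)) := by
        unfold vt
        rw [← hτσ]
        push_cast
        ring
      rw [e]
      have h2 := EP_le_VV (M := M) hη hη1 hk.le z (-(τ * ξ))
      have hV := VV_nonneg (M := M) (η := η) (k := k) z
      have h3 := Real.rpow_le_rpow (by positivity) h2 (show 0 ≤ 1 / k by positivity)
      rw [← Real.rpow_mul (norm_nonneg _), mul_one_div_cancel hk.ne', Real.rpow_one,
        Real.mul_rpow (by positivity) hV, ← Real.rpow_natCast, ← Real.rpow_mul (by positivity)]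
        at h3
      refine h3.trans ?_
      have h4 : (1 + |-(τ * ξ)| / η) ^ (((2 : ℕ) : ℝ) * (1 / k)) ≤
          ((1 + τ / η) * (1 + |ξ|)) ^ r := by
        rw [← Real.rpow_natCast ((1 + τ / η) * (1 + |ξ|)) r]
        have h5 : 1 + |-(τ * ξ)| / η ≤ (1 + τ / η) * (1 + |ξ|) := by
          rw [abs_neg, abs_mul, abs_of_pos hτ]
          have a1 : 0 ≤ |ξ| := abs_nonneg _
          have a2 : 0 < τ / η := by positivity
          have e2 : τ * |ξ| / η = τ / η * |ξ| := by ring
          rw [e2]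
          nlinarith
        have h6 : 1 ≤ 1 + |-(τ * ξ)| / η := by
          have : 0 ≤ |-(τ * ξ)| / η := by positivity
          linarith
        calc _ ≤ (1 + |-(τ * ξ)| / η) ^ (r : ℝ) := by
              refine Real.rpow_le_rpow_of_exponent_le h6 ?_
              push_cast
              calc (2 : ℝ) * (1 / k) = 2 / k := by ring
                _ ≤ r := hr
          _ ≤ _ := Real.rpow_le_rpow (by positivity) h5 (by positivity)
      rw [mul_pow] at h4
      calc (1 + |-(τ * ξ)| / η) ^ (((2 : ℕ) : ℝ) * (1 / k)) * VV M η k z ^ (1 / k) ≤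
          ((1 + τ / η) ^ r * (1 + |ξ|) ^ r) * VV M η k z ^ (1 / k) :=
            mul_le_mul_of_nonneg_right h4 (by positivity)
        _ = _ := by ring)
  refine h1.trans (le_of_eq ?_)
  ring

end Pool.Agent.H7.PL
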