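import Mathlib
import Pool.Graph.R_seed8.Helper256.KM.Mertens

set_option autoImplicit false
open Finset Filter
open scoped Topology

/-! Sums over integers without small prime factors. -/

namespace Pool.Agent.H7.PL

open ArithmeticFunction (vonMangoldt)

lemma log_fac (N : ℕ) : ∑ n ∈ Ioc 0 N, Real.log (n : ℝ) = Real.log (N.factorial : ℝ) := by
  induction N with
  | zero => simp
  | succ N ih =>
    rw [Finset.sum_Ioc_succ_top (Nat.zero_le N), ih, Nat.factorial_succ]
    push_cast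
    rw [Real.log_mul (by positivity) (by positivity), add_comm]

lemma lam_id (N : ℕ) : ∑ n ∈ Ioc 0 N, vonMangoldt n * ((N / n : ℕ) : ℝ) =
    Real.log (N.factorial : ℝ) := by
  rw [← ArithmeticFunction.sum_Ioc_mul_zeta_eq_sum, ArithmeticFunction.vonMangoldt_mul_zeta,
    ← log_fac]
  exact Finset.sum_congr rfl fun n _ => ArithmeticFunction.log_apply

lemma lam_sum : ∃ C : ℝ, 0 ≤ C ∧ ∀ N : ℕ, 1 ≤ N →
    |∑ n ∈ Ioc 0 N, vonMangoldt n / n - Real.log N| ≤ C := by
  refine ⟨Real.log 4 + 4 + 1, by have := Real.log_nonneg (by norm_num : (1 : ℝ) ≤ 4); linarith,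
    fun N hN => ?_⟩
  have hN0 : (0 : ℝ) < N := by exact_mod_cast hN
  have h1 := lam_id N
  have hlow : (N : ℝ) * Real.log N - N ≤ Real.log (N.factorial : ℝ) := by
    have h2 := Real.pow_div_factorial_le_exp (N : ℝ) hN0.le N
    have h3 := Real.log_le_log (by positivity) h2
    rw [Real.log_exp, Real.log_div (by positivity) (by positivity), Real.log_pow] at h3
    linarith
  have hup : Real.log (N.factorial : ℝ) ≤ N * Real.log N := by
    rw [← Real.log_pow]
    refine Real.log_le_log (by positivity) ?_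
    exact_mod_cast Nat.factorial_le_pow N
  have hpsi : ∑ n ∈ Ioc 0 N, vonMangoldt n ≤ (Real.log 4 + 4) * N := by
    have h4 := Chebyshev.psi_le_const_mul_self (x := (N : ℝ)) hN0.le
    unfold Chebyshev.psi at h4
    rwa [Nat.floor_natCast] at h4
  have e1 : (N : ℝ) * ∑ n ∈ Ioc 0 N, vonMangoldt n / n =
      ∑ n ∈ Ioc 0 N, vonMangoldt n * ((N : ℝ) / n) := by
    rw [Finset.mul_sum]
    exact Finset.sum_congr rfl fun n _ => by ring
  have h5 : ∑ n ∈ Ioc 0 N, vonMangoldt n * ((N / n : ℕ) : ℝ) ≤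
      ∑ n ∈ Ioc 0 N, vonMangoldt n * ((N : ℝ) / n) :=
    Finset.sum_le_sum fun n _ => mul_le_mul_of_nonneg_left Nat.cast_div_le
      ArithmeticFunction.vonMangoldt_nonneg
  have h6 : ∑ n ∈ Ioc 0 N, vonMangoldt n * ((N : ℝ) / n) ≤
      ∑ n ∈ Ioc 0 N, vonMangoldt n * ((N / n : ℕ) : ℝ) + ∑ n ∈ Ioc 0 N, vonMangoldt n := by
    rw [← Finset.sum_add_distrib]
    refine Finset.sum_le_sum fun n hn => ?_
    have hn0 : (0 : ℝ) < n := by exact_mod_cast (Finset.mem_Ioc.1 hn).1
    have h7 : (N : ℝ) / n ≤ ((N / n : ℕ) : ℝ) + 1 := by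
      rw [div_le_iff₀ hn0]
      have h8 : N < (N / n + 1) * n := by
        have := Nat.lt_mul_div_succ N (Finset.mem_Ioc.1 hn).1
        rw [mul_comm]
        exact this
      exact_mod_cast h8.le
    calc vonMangoldt n * ((N : ℝ) / n) ≤ vonMangoldt n * (((N / n : ℕ) : ℝ) + 1) :=
          mul_le_mul_of_nonneg_left h7 ArithmeticFunction.vonMangoldt_nonneg
      _ = _ := by ring
  rw [h1] at h5 h6
  rw [← e1] at h5 h6
  set S := ∑ n ∈ Ioc 0 N, vonMangoldt n / n
  rw [abs_le]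
  have h4n := Real.log_nonneg (by norm_num : (1 : ℝ) ≤ 4)
  constructor
  · have h9 : (N : ℝ) * (Real.log N - 1) ≤ N * S := by linarith
    have := le_of_mul_le_mul_left h9 hN0
    linarith
  · have h9 : (N : ℝ) * S ≤ N * (Real.log N + (Real.log 4 + 4)) := by linarith
    have := le_of_mul_le_mul_left h9 hN0
    linarith

lemma lam_window : ∃ C : ℝ, 0 ≤ C ∧ ∀ (a h : ℝ), 0 ≤ h → ∀ F : Finset ℕ,
    (∀ q ∈ F, 1 ≤ q ∧ a ≤ Real.log q ∧ Real.log q < a + h) →
    ∑ q ∈ F, vonMangoldt q / q ≤ h + C := by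
  obtain ⟨C, hC, hG⟩ := lam_sum
  refine ⟨2 * C + Real.log 2, by have := Real.log_nonneg (by norm_num : (1 : ℝ) ≤ 2); linarith,
    fun a h hh F hF => ?_⟩
  have hl2 := Real.log_nonneg (by norm_num : (1 : ℝ) ≤ 2)
  have hnn : ∀ q : ℕ, 0 ≤ vonMangoldt q / q := fun q =>
    div_nonneg ArithmeticFunction.vonMangoldt_nonneg (Nat.cast_nonneg q)
  rcases le_or_gt (a + h) 0 with hb | hb
  · have : F = ∅ := by
      refine Finset.eq_empty_of_forall_notMem fun q hq => ?_
      obtain ⟨h1, _, h3⟩ := hF q hq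
      have := Real.log_natCast_nonneg q
      linarith
    rw [this]
    simp
    linarith
  set n2 := ⌊Real.exp (a + h)⌋₊ with hn2
  have hn21 : 1 ≤ n2 := by
    refine Nat.le_floor ?_
    have := Real.add_one_le_exp (a + h)
    push_cast
    linarith
  have hn2l : Real.log n2 ≤ a + h := by
    rw [Real.log_le_iff_le_exp (by exact_mod_cast hn21)]
    exact Nat.floor_le (Real.exp_pos _).le
  have hq2 : ∀ q ∈ F, q ≤ n2 := by
    intro q hq
    obtain ⟨h1, _, h3⟩ := hF q hq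
    refine Nat.le_floor ?_
    rw [← Real.log_le_iff_le_exp (by exact_mod_cast h1)]
    exact h3.le
  have hG2 := (abs_le.1 (hG n2 hn21)).2
  rcases le_or_gt a 0 with ha | ha
  · have h1 : ∑ q ∈ F, vonMangoldt q / q ≤ ∑ q ∈ Ioc 0 n2, vonMangoldt q / (q : ℝ) := by
      refine Finset.sum_le_sum_of_subset_of_nonneg (fun q hq => ?_) fun q _ _ => hnn q
      exact Finset.mem_Ioc.2 ⟨(hF q hq).1, hq2 q hq⟩
    linarith
  · set n1 := ⌈Real.exp a⌉₊ - 1 with hn1
    have hc2 : 2 ≤ ⌈Real.exp a⌉₊ := by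
      have h3 : 1 < Real.exp a := Real.one_lt_exp_iff.2 ha
      have h4 : 1 < ⌈Real.exp a⌉₊ := Nat.lt_ceil.2 (by push_cast; exact h3)
      omega
    have hn11 : 1 ≤ n1 := by omega
    have hn1c : (n1 : ℝ) = (⌈Real.exp a⌉₊ : ℝ) - 1 := by
      rw [hn1, Nat.cast_sub (by omega)]
      simp
    have hceil := Nat.le_ceil (Real.exp a)
    have hn1l : a - Real.log 2 ≤ Real.log n1 := by
      have h5 : Real.exp a / 2 ≤ n1 := by
        have h6 : (1 : ℝ) ≤ n1 := by exact_mod_cast hn11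
        linarith
      have h7 := Real.log_le_log (by positivity) h5
      rw [Real.log_div (Real.exp_pos _).ne' (by norm_num), Real.log_exp] at h7
      exact h7
    have hq1 : ∀ q ∈ F, n1 < q := by
      intro q hq
      obtain ⟨h1, h2, _⟩ := hF q hq
      have h3 : Real.exp a ≤ q := (Real.le_log_iff_exp_le (by exact_mod_cast h1)).1 h2
      have h4 : ⌈Real.exp a⌉₊ ≤ q := Nat.ceil_le.2 h3
      omega
    rcases le_or_gt n1 n2 with hle | hlt
    · have h1 : ∑ q ∈ F, vonMangoldt q / q ≤ ∑ q ∈ Ioc n1 n2, vonMangoldt q / (q : ℝ) := by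
        refine Finset.sum_le_sum_of_subset_of_nonneg (fun q hq => ?_) fun q _ _ => hnn q
        exact Finset.mem_Ioc.2 ⟨hq1 q hq, hq2 q hq⟩
      have h2 := Finset.sum_Ioc_consecutive (fun q : ℕ => vonMangoldt q / (q : ℝ))
        (Nat.zero_le n1) hle
      have hG1 := (abs_le.1 (hG n1 hn11)).1
      linarith
    · have : F = ∅ := by
        refine Finset.eq_empty_of_forall_notMem fun q hq => ?_
        have := hq1 q hq
        have := hq2 q hq
        omega
      rw [this]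
      simp
      linarith

/-- integers without prime factors up to `e^{1/η}` -/
def Rg (η : ℝ) (l : ℕ) : Prop := l ≠ 0 ∧ ∀ p, p.Prime → p ∣ l → 1 / η < Real.log p

lemma Rg_dvd {η : ℝ} {l d : ℕ} (h : Rg η l) (hd : d ∣ l) : Rg η d :=
  ⟨fun h0 => h.1 (by rw [h0] at hd; exact Nat.eq_zero_of_zero_dvd hd),
    fun p hp hpd => h.2 p hp (hpd.trans hd)⟩

/-- the reciprocal as a homomorphism -/
noncomputable def rcp : ℕ →* ℝ where
  toFun n := (n : ℝ)⁻¹
  map_one' := by simp
  map_mul' m n := by push_cast; rw [mul_inv]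

lemma rcp_apply (n : ℕ) : rcp n = (n : ℝ)⁻¹ := rfl

lemma inv_le_exp (x : ℝ) (h0 : 0 ≤ x) (h1 : x ≤ 2 / 5) : (1 - x)⁻¹ ≤ Real.exp (x + x ^ 2) := by
  rw [inv_le_comm₀ (by linarith) (Real.exp_pos _), ← Real.exp_neg]
  have h2 : Real.exp (-(x + x ^ 2)) ≤ 1 - (x + x ^ 2) + (x + x ^ 2) ^ 2 / 2 := by
    have hy : 0 ≤ x + x ^ 2 := by positivity
    have h3 := Real.quadratic_le_exp_of_nonneg hy
    rw [Real.exp_neg, inv_le_comm₀ (Real.exp_pos _) (by nlinarith [sq_nonneg (x + x ^ 2 - 1)])]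
    refine le_trans ?_ h3
    set y := x + x ^ 2
    rw [inv_le_iff_one_le_mul₀ (by nlinarith [sq_nonneg (y - 1)])]
    nlinarith [sq_nonneg (y ^ 2), sq_nonneg y]
  nlinarith [mul_nonneg h0 h0, mul_nonneg (mul_nonneg h0 h0) h0]

theorem A_bound : ∃ C : ℝ, 0 < C ∧ ∀ (η : ℝ), 0 < η → η ≤ 1 / 24 → ∀ (X : ℕ), 1 ≤ X →
    ∀ F : Finset ℕ, (∀ l ∈ F, Rg η l ∧ l ≤ X) →
    ∑ l ∈ F, 1 / (l : ℝ) ≤ C * (1 + η * Real.log X) := by
  classical
  obtain ⟨C1, hC1⟩ := Pool.Agent.Helper256.KM.mertens_inv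
  have hs2 : Summable fun n : ℕ => 1 / (n : ℝ) ^ 2 := Real.summable_one_div_nat_pow.2 one_lt_two
  set T := ∑' n : ℕ, 1 / (n : ℝ) ^ 2 with hT
  have hT0 : 0 ≤ T := tsum_nonneg fun n => by positivity
  refine ⟨2 * Real.exp (2 * |C1| + T) + 1, by positivity, fun η hη hη1 X hX F hF => ?_⟩
  set s : Finset ℕ := (Icc 1 X).filter (fun p => p.Prime ∧ 1 / η < Real.log p) with hs
  have hlX : 0 ≤ Real.log X := Real.log_natCast_nonneg X
  have h24 : 24 ≤ 1 / η := by rw [le_div_iff₀ hη]; linarith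
  have hsum := (EulerProduct.summable_and_hasSum_factoredNumbers_prod_filter_prime_geometric
    (f := rcp) (fun {p} hp => by
      rw [rcp_apply, norm_inv, Real.norm_natCast]
      exact inv_lt_one_of_one_lt₀ (by exact_mod_cast hp.one_lt)) s).2
  have h2 := (hasSum_subtype_iff_indicator (f := fun m => rcp m)
    (s := Nat.factoredNumbers s)).1 hsum
  have h3 : ∑ l ∈ F, 1 / (l : ℝ) ≤ ∏ p ∈ s with p.Prime, (1 - rcp p)⁻¹ := by
    refine le_trans (le_of_eq ?_) (sum_le_hasSum F (fun n _ => ?_) h2)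
    · refine Finset.sum_congr rfl fun l hl => ?_
      have hmem : l ∈ Nat.factoredNumbers s := by
        obtain ⟨h4, h5⟩ := hF l hl
        rw [Nat.mem_factoredNumbers']
        intro p hp hpl
        have hle : p ≤ X := (Nat.le_of_dvd (Nat.pos_of_ne_zero h4.1) hpl).trans h5
        exact Finset.mem_filter.2 ⟨Finset.mem_Icc.2 ⟨hp.one_lt.le, hle⟩, hp, h4.2 p hp hpl⟩
      rw [Set.indicator_of_mem hmem, rcp_apply, one_div]
    · refine Set.indicator_nonneg (fun m _ => ?_) n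
      rw [rcp_apply]
      positivity
  refine h3.trans ?_
  have hsf : s.filter Nat.Prime = s := Finset.filter_true_of_mem fun p hp =>
    (Finset.mem_filter.1 hp).2.1
  rw [hsf]
  have h4 : ∏ p ∈ s, (1 - rcp p)⁻¹ ≤ Real.exp (∑ p ∈ s, (1 / (p : ℝ) + 1 / (p : ℝ) ^ 2)) := by
    rw [Real.exp_sum]
    refine Finset.prod_le_prod (fun p hp => ?_) fun p hp => ?_
    · obtain ⟨_, hp1, _⟩ := Finset.mem_filter.1 hp
      rw [rcp_apply]
      have : (1 : ℝ) < p := by exact_mod_cast hp1.one_lt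
      have := inv_lt_one_of_one_lt₀ this
      exact inv_nonneg.2 (by linarith)
    · obtain ⟨_, hp1, hp2⟩ := Finset.mem_filter.1 hp
      have hp0 : (0 : ℝ) < p := by exact_mod_cast hp1.pos
      have h5 : (3 : ℝ) ≤ p := by
        have h6 : Real.exp (1 / η) < p := (Real.lt_log_iff_exp_lt hp0).1 hp2
        have := Real.add_one_le_exp (1 / η)
        linarith
      have h7 : (p : ℝ)⁻¹ ≤ 2 / 5 := by
        rw [inv_le_comm₀ hp0 (by norm_num)]
        linarith
      have h8 := inv_le_exp ((p : ℝ)⁻¹) (by positivity) h7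
      rw [rcp_apply]
      refine h8.trans (le_of_eq ?_)
      rw [one_div, one_div, inv_pow]
  refine h4.trans ?_
  set X0 := ⌊Real.exp (1 / η)⌋₊ with hX0
  have hX03 : 3 ≤ X0 := by
    refine Nat.le_floor ?_
    have := Real.add_one_le_exp (1 / η)
    push_cast
    linarith
  have hgt : ∀ p : ℕ, 0 < p → (1 / η < Real.log p ↔ X0 < p) := by
    intro p hp
    rw [Real.lt_log_iff_exp_lt (by exact_mod_cast hp), hX0, Nat.floor_lt (Real.exp_pos _).le]
  rcases le_or_gt X X0 with hle | hlt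
  · have hemp : s = ∅ := by
      refine Finset.eq_empty_of_forall_notMem fun p hp => ?_
      obtain ⟨hp0, hp1, hp2⟩ := Finset.mem_filter.1 hp
      have := (hgt p hp1.pos).1 hp2
      have := (Finset.mem_Icc.1 hp0).2
      omega
    rw [hemp]
    simp only [Finset.sum_empty, Real.exp_zero]
    have hE := Real.exp_pos (2 * |C1| + T)
    have : 0 ≤ η * Real.log X := by positivity
    nlinarith
  · have h5 : ∑ p ∈ s, 1 / (p : ℝ) = ∑ p ∈ (Icc 1 X).filter Nat.Prime, 1 / (p : ℝ) -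
        ∑ p ∈ (Icc 1 X0).filter Nat.Prime, 1 / (p : ℝ) := by
      have hsub : (Icc 1 X0).filter Nat.Prime ⊆ (Icc 1 X).filter Nat.Prime := by
        intro p hp
        obtain ⟨hp0, hp1⟩ := Finset.mem_filter.1 hp
        have := Finset.mem_Icc.1 hp0
        exact Finset.mem_filter.2 ⟨Finset.mem_Icc.2 ⟨this.1, by omega⟩, hp1⟩
      have hsd : s = (Icc 1 X).filter Nat.Prime \ (Icc 1 X0).filter Nat.Prime := by
        ext p
        simp only [hs, Finset.mem_filter, Finset.mem_sdiff, Finset.mem_Icc]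
        constructor
        · rintro ⟨⟨a, b⟩, c, d⟩
          have := (hgt p c.pos).1 d
          exact ⟨⟨⟨a, b⟩, c⟩, fun h => by omega⟩
        · rintro ⟨⟨⟨a, b⟩, c⟩, d⟩
          refine ⟨⟨a, b⟩, c, (hgt p c.pos).2 ?_⟩
          by_contra h
          exact d ⟨⟨a, by omega⟩, c⟩
      rw [hsd]
      have := Finset.sum_sdiff (f := fun p : ℕ => 1 / (p : ℝ)) hsub
      linarith
    have h6 : ∑ p ∈ s, 1 / (p : ℝ) ^ 2 ≤ T := hs2.sum_le_tsum s fun n _ => by positivity
    have h7 := (abs_le.1 (hC1 X (by omega))).2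
    have h8 := (abs_le.1 (hC1 X0 hX03)).1
    have h9 : 1 / (2 * η) ≤ Real.log X0 := by
      have hc : Real.exp (1 / η) / 2 ≤ X0 := by
        have h10 := Nat.lt_floor_add_one (Real.exp (1 / η))
        have := Real.add_one_le_exp (1 / η)
        rw [← hX0] at h10
        linarith
      have h11 := Real.log_le_log (by positivity) hc
      rw [Real.log_div (Real.exp_pos _).ne' (by norm_num), Real.log_exp] at h11
      have h12 : Real.log 2 ≤ 1 := by
        have := Real.log_two_lt_d9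
        linarith
      have h13 : 1 / (2 * η) = 1 / η / 2 := by field_simp
      rw [h13]
      linarith
    have h2η : 0 < 1 / (2 * η) := by positivity
    have h14 : Real.log (1 / (2 * η)) ≤ Real.log (Real.log X0) := Real.log_le_log h2η h9
    have hlXp : 0 < Real.log X := by
      refine lt_of_lt_of_le (lt_of_lt_of_le h2η h9) (Real.log_le_log ?_ ?_)
      · exact_mod_cast (by omega : 0 < X0)
      · exact_mod_cast hlt.le
    have hC1a := le_abs_self C1
    have h15 : ∑ p ∈ s, (1 / (p : ℝ) + 1 / (p : ℝ) ^ 2) ≤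
        Real.log (Real.log X) - Real.log (1 / (2 * η)) + (2 * |C1| + T) := by
      rw [Finset.sum_add_distrib]
      linarith
    refine (Real.exp_le_exp.2 h15).trans ?_
    rw [Real.exp_add, Real.exp_sub, Real.exp_log hlXp, Real.exp_log h2η]
    have hE := Real.exp_pos (2 * |C1| + T)
    have e : Real.log X / (1 / (2 * η)) = 2 * (η * Real.log X) := by field_simp
    rw [e]
    have : 0 ≤ η * Real.log X := by positivity
    nlinarith

theorem S_bound : ∃ C : ℝ, 0 < C ∧ ∀ (η : ℝ), 0 < η → η ≤ 1 / 24 → ∀ (i : ℕ), 1 ≤ i →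
    ∀ F : Finset ℕ, (∀ l ∈ F, Rg η l ∧ (i : ℝ) ≤ η * Real.log l ∧ η * Real.log l < i + 1) →
    ∑ l ∈ F, 1 / (l : ℝ) ≤ C := by
  classical
  obtain ⟨CA, hCA, hA⟩ := A_bound
  obtain ⟨CL, hCL, hL⟩ := lam_window
  refine ⟨3 * (1 + CL) * CA, by positivity, fun η hη hη1 i hi F hF => ?_⟩
  have hi1 : (1 : ℝ) ≤ i := by exact_mod_cast hi
  set X := ⌊Real.exp ((i + 1) / η)⌋₊ with hX
  have hX1 : 1 ≤ X := by
    refine Nat.le_floor ?_
    have := Real.add_one_le_exp ((i + 1) / η)
    have : 0 ≤ ((i : ℝ) + 1) / η := by positivity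
    push_cast
    linarith
  have hlX : η * Real.log X ≤ i + 1 := by
    have h1 : Real.log X ≤ (i + 1) / η := by
      rw [Real.log_le_iff_le_exp (by exact_mod_cast hX1)]
      exact Nat.floor_le (Real.exp_pos _).le
    rw [le_div_iff₀ hη] at h1
    linarith
  have hlX' : ∀ l ∈ F, l ≤ X := by
    intro l hl
    obtain ⟨h1, _, h3⟩ := hF l hl
    refine Nat.le_floor ?_
    have hl0 : (0 : ℝ) < l := by exact_mod_cast Nat.pos_of_ne_zero h1.1
    rw [← Real.log_le_iff_le_exp hl0, le_div_iff₀ hη]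
    linarith
  set D : Finset ℕ := (Icc 1 X).filter (Rg η) with hD
  set E : ℕ → Finset ℕ := fun d => (Icc 1 X).filter
    (fun q => (i : ℝ) ≤ η * (Real.log q + Real.log d) ∧ η * (Real.log q + Real.log d) < i + 1)
    with hE
  set g : ℕ → ℕ → ℝ := fun d q => η * (vonMangoldt q / q) * (1 / (d : ℝ)) with hg
  have hgn : ∀ d q, 0 ≤ g d q := fun d q => by
    have := ArithmeticFunction.vonMangoldt_nonneg (n := q)
    simp only [hg]
    positivity
  have h1 : (i : ℝ) * ∑ l ∈ F, 1 / (l : ℝ) ≤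
      ∑ l ∈ F, ∑ q ∈ l.divisors, g (l / q) q := by
    rw [Finset.mul_sum]
    refine Finset.sum_le_sum fun l hl => ?_
    obtain ⟨h2, h3, _⟩ := hF l hl
    have hl0 : (0 : ℝ) < l := by exact_mod_cast Nat.pos_of_ne_zero h2.1
    have e : ∑ q ∈ l.divisors, g (l / q) q = η * Real.log l * (1 / l) := by
      rw [← ArithmeticFunction.vonMangoldt_sum, Finset.mul_sum, Finset.sum_mul]
      refine Finset.sum_congr rfl fun q hq => ?_
      have hql := Nat.dvd_of_mem_divisors hq
      have hq0 : (q : ℝ) ≠ 0 := by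
        have := Nat.pos_of_mem_divisors hq
        exact_mod_cast this.ne'
      simp only [hg]
      rw [Nat.cast_div hql hq0]
      field_simp
    rw [e]
    exact mul_le_mul_of_nonneg_right h3 (by positivity)
  have h2 : ∑ l ∈ F, ∑ q ∈ l.divisors, g (l / q) q ≤ ∑ d ∈ D, ∑ q ∈ E d, g d q := by
    rw [Finset.sum_sigma', Finset.sum_sigma']
    set φ : (Σ _ : ℕ, ℕ) → (Σ _ : ℕ, ℕ) := fun x => ⟨x.1 / x.2, x.2⟩ with hφ
    have hinj : Set.InjOn φ (F.sigma fun l => l.divisors : Finset (Σ _ : ℕ, ℕ)) := by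
      rintro ⟨l, q⟩ hx ⟨l', q'⟩ hy hxy
      simp only [hφ, Sigma.mk.injEq, heq_eq_eq] at hxy
      obtain ⟨h3, h4⟩ := hxy
      subst h4
      have hx' := (Finset.mem_sigma.1 (Finset.mem_coe.1 hx)).2
      have hy' := (Finset.mem_sigma.1 (Finset.mem_coe.1 hy)).2
      have e1 := Nat.div_mul_cancel (Nat.dvd_of_mem_divisors hx')
      have e2 := Nat.div_mul_cancel (Nat.dvd_of_mem_divisors hy')
      simp only at e1 e2
      have : l = l' := by rw [← e1, ← e2, h3]
      rw [this]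
    have e : ∑ x ∈ F.sigma fun l => l.divisors, g (x.1 / x.2) x.2 =
        ∑ x ∈ (F.sigma fun l => l.divisors).image φ, g x.1 x.2 := by
      rw [Finset.sum_image hinj]
    rw [e]
    refine Finset.sum_le_sum_of_subset_of_nonneg ?_ fun x _ _ => hgn _ _
    intro x hx
    obtain ⟨⟨l, q⟩, hy, rfl⟩ := Finset.mem_image.1 hx
    obtain ⟨hlF, hq⟩ := Finset.mem_sigma.1 hy
    simp only at hlF hq
    obtain ⟨h3, h4, h5⟩ := hF l hlF
    have hql := Nat.dvd_of_mem_divisors hq
    have hq0 := Nat.pos_of_mem_divisors hq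
    have hl0 := Nat.pos_of_ne_zero h3.1
    have hd0 : 0 < l / q := Nat.div_pos (Nat.le_of_dvd hl0 hql) hq0
    have hmul : l / q * q = l := Nat.div_mul_cancel hql
    have hlog : Real.log (q : ℝ) + Real.log ((l / q : ℕ) : ℝ) = Real.log l := by
      rw [← Real.log_mul (by exact_mod_cast hq0.ne') (by exact_mod_cast hd0.ne')]
      congr 1
      rw [mul_comm]
      exact_mod_cast hmul
    refine Finset.mem_sigma.2 ⟨?_, ?_⟩
    · refine Finset.mem_filter.2 ⟨Finset.mem_Icc.2 ⟨hd0, ?_⟩, Rg_dvd h3 (Nat.div_dvd_of_dvd hql)⟩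
      exact (Nat.div_le_self _ _).trans (hlX' l hlF)
    · refine Finset.mem_filter.2 ⟨Finset.mem_Icc.2 ⟨hq0, ?_⟩, ?_, ?_⟩
      · exact (Nat.le_of_dvd hl0 hql).trans (hlX' l hlF)
      · simp only [hφ]
        rw [hlog]; exact h4
      · simp only [hφ]
        rw [hlog]; exact h5
  have h3 : ∑ d ∈ D, ∑ q ∈ E d, g d q ≤ ∑ d ∈ D, (1 + CL) * (1 / (d : ℝ)) := by
    refine Finset.sum_le_sum fun d hd => ?_
    simp only [hg]
    rw [← Finset.sum_mul, ← Finset.mul_sum]
    refine mul_le_mul_of_nonneg_right ?_ (by positivity)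
    have h4 := hL (i / η - Real.log d) (1 / η) (by positivity) (E d) (by
      intro q hq
      obtain ⟨h5, h6, h7⟩ := Finset.mem_filter.1 hq
      refine ⟨(Finset.mem_Icc.1 h5).1, ?_, ?_⟩
      · have : (i : ℝ) / η ≤ Real.log q + Real.log d := by
          rw [div_le_iff₀ hη]; linarith
        linarith
      · have : Real.log q + Real.log d < (i + 1) / η := by
          rw [lt_div_iff₀ hη]; linarith
        have e : ((i : ℝ) + 1) / η = i / η + 1 / η := by ring
        linarith)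
    calc η * ∑ q ∈ E d, vonMangoldt q / q ≤ η * (1 / η + CL) :=
          mul_le_mul_of_nonneg_left h4 hη.le
      _ = 1 + η * CL := by field_simp
      _ ≤ 1 + CL := by nlinarith
  have h4 : ∑ d ∈ D, (1 + CL) * (1 / (d : ℝ)) ≤ (1 + CL) * (CA * (i + 2)) := by
    rw [← Finset.mul_sum]
    refine mul_le_mul_of_nonneg_left ?_ (by positivity)
    refine (hA η hη hη1 X hX1 D fun l hl => ?_).trans ?_
    · obtain ⟨h5, h6⟩ := Finset.mem_filter.1 hl
      exact ⟨h6, (Finset.mem_Icc.1 h5).2⟩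
    · exact mul_le_mul_of_nonneg_left (by linarith) hCA.le
  have h5 : (i : ℝ) * ∑ l ∈ F, 1 / (l : ℝ) ≤ i * (3 * (1 + CL) * CA) := by
    refine (h1.trans (h2.trans (h3.trans h4))).trans ?_
    have : 0 ≤ (1 + CL) * CA := by positivity
    nlinarith
  exact le_of_mul_le_mul_left h5 (by linarith)

lemma geo_sum (c : ℝ) (hc : 0 ≤ c) (I : Finset ℕ) :
    ∑ i ∈ I, Real.exp (-|(i : ℝ) - c|) ≤ Real.exp 1 * ∑' m : ℤ, Real.exp (-|(m : ℝ)|) := by
  classical
  have hs : Summable fun m : ℤ => Real.exp (-|(m : ℝ)|) := by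
    have h : Summable fun n : ℕ => Real.exp (-(n : ℝ)) := Real.summable_exp_neg_nat
    refine Summable.of_nat_of_neg ?_ ?_
    · refine h.congr fun n => by simp
    · refine h.congr fun n => by simp
  set n0 := ⌊c⌋₊ with hn0
  have h1 : (n0 : ℝ) ≤ c := Nat.floor_le hc
  have h2 : c < n0 + 1 := Nat.lt_floor_add_one c
  have h3 : ∀ i ∈ I, Real.exp (-|(i : ℝ) - c|) ≤
      Real.exp 1 * Real.exp (-|(((i : ℤ) - (n0 : ℤ) : ℤ) : ℝ)|) := by
    intro i _
    rw [← Real.exp_add]
    refine Real.exp_le_exp.2 ?_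
    push_cast
    have h4 : |(i : ℝ) - n0| ≤ |(i : ℝ) - c| + |c - n0| := by
      have := abs_add_le ((i : ℝ) - c) (c - n0)
      simpa using this
    have h5 : |c - n0| ≤ 1 := by
      rw [abs_of_nonneg (by linarith)]; linarith
    linarith
  refine (Finset.sum_le_sum h3).trans ?_
  rw [← Finset.mul_sum]
  refine mul_le_mul_of_nonneg_left ?_ (Real.exp_pos _).le
  have e : ∑ i ∈ I, Real.exp (-|(((i : ℤ) - (n0 : ℤ) : ℤ) : ℝ)|) =
      ∑ m ∈ I.image (fun i : ℕ => (i : ℤ) - (n0 : ℤ)), Real.exp (-|(m : ℝ)|) := by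
    rw [Finset.sum_image]
    intro a _ b _ hab
    simp only at hab
    omega
  rw [e]
  exact hs.sum_le_tsum _ fun m _ => (Real.exp_pos _).le

/-- **sums over integers without small prime factors** -/
theorem rough_sum : ∃ C : ℝ, 0 < C ∧ ∀ (η c : ℝ), 0 < η → η ≤ 1 / 24 → 0 ≤ c →
    ∀ F : Finset ℕ, (∀ l ∈ F, Rg η l) →
    ∑ l ∈ F, 1 / (l : ℝ) * Real.exp (-|η * Real.log l - c|) ≤ C := by
  classical
  obtain ⟨CS, hCS, hS⟩ := S_bound
  set Z := ∑' m : ℤ, Real.exp (-|(m : ℝ)|) with hZ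
  have hZ0 : 0 ≤ Z := tsum_nonneg fun m => (Real.exp_pos _).le
  refine ⟨1 + CS * Real.exp 1 * (Real.exp 1 * Z), by positivity, fun η c hη hη1 hc F hF => ?_⟩
  have h24 : 24 ≤ 1 / η := by rw [le_div_iff₀ hη]; linarith
  -- the term `l = 1`
  have h1 : ∑ l ∈ F, 1 / (l : ℝ) * Real.exp (-|η * Real.log l - c|) ≤
      1 + ∑ l ∈ F.erase 1, 1 / (l : ℝ) * Real.exp (-|η * Real.log l - c|) := by
    by_cases h : 1 ∈ F
    · rw [← Finset.add_sum_erase F _ h]
      refine add_le_add ?_ le_rfl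
      simp only [Nat.cast_one, div_one, one_mul]
      exact Real.exp_le_one_iff.2 (neg_nonpos.2 (abs_nonneg _))
    · rw [Finset.erase_eq_of_notMem h]
      linarith
  refine h1.trans (add_le_add le_rfl ?_)
  set ι : ℕ → ℕ := fun l => ⌊η * Real.log l⌋₊ with hι
  have hfib := Finset.sum_fiberwise_of_maps_to (s := F.erase 1) (t := (F.erase 1).image ι) (g := ι)
    (fun l hl => Finset.mem_image_of_mem _ hl)
    (fun l : ℕ => 1 / (l : ℝ) * Real.exp (-|η * Real.log l - c|))
  rw [← hfib]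
  have h2 : ∀ i ∈ (F.erase 1).image ι, ∑ l ∈ F.erase 1 with ι l = i,
      1 / (l : ℝ) * Real.exp (-|η * Real.log l - c|) ≤
      CS * Real.exp 1 * Real.exp (-|(i : ℝ) - c|) := by
    intro i hi
    have hprop : ∀ l ∈ F.erase 1, 1 < η * Real.log l := by
      intro l hl
      obtain ⟨hl1, hlF⟩ := Finset.mem_erase.1 hl
      obtain ⟨p, hp, hpl⟩ := Nat.exists_prime_and_dvd hl1
      have h3 := hF l hlF
      have h4 := h3.2 p hp hpl
      have h5 : Real.log p ≤ Real.log l := Real.log_le_log (by exact_mod_cast hp.pos)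
        (by exact_mod_cast Nat.le_of_dvd (Nat.pos_of_ne_zero h3.1) hpl)
      have h6 : 1 / η < Real.log l := lt_of_lt_of_le h4 h5
      rw [div_lt_iff₀ hη] at h6
      linarith
    have hi1 : 1 ≤ i := by
      obtain ⟨l, hl, rfl⟩ := Finset.mem_image.1 hi
      exact Nat.le_floor (by push_cast; exact (hprop l hl).le)
    have h3 : ∀ l ∈ (F.erase 1).filter (fun l => ι l = i),
        (i : ℝ) ≤ η * Real.log l ∧ η * Real.log l < i + 1 := by
      intro l hl
      obtain ⟨hl1, hl2⟩ := Finset.mem_filter.1 hl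
      have h4 := hprop l hl1
      rw [← hl2]
      exact ⟨Nat.floor_le (by linarith), Nat.lt_floor_add_one _⟩
    have h4 : ∀ l ∈ (F.erase 1).filter (fun l => ι l = i),
        1 / (l : ℝ) * Real.exp (-|η * Real.log l - c|) ≤
        1 / (l : ℝ) * (Real.exp 1 * Real.exp (-|(i : ℝ) - c|)) := by
      intro l hl
      obtain ⟨h5, h6⟩ := h3 l hl
      refine mul_le_mul_of_nonneg_left ?_ (by positivity)
      rw [← Real.exp_add]
      refine Real.exp_le_exp.2 ?_
      have h7 : |(i : ℝ) - c| ≤ |η * Real.log l - c| + 1 := by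
        have h8 := abs_sub_le (i : ℝ) (η * Real.log l) c
        have h9 : |(i : ℝ) - η * Real.log l| ≤ 1 := by
          rw [abs_le]; constructor <;> linarith
        linarith
      linarith
    refine (Finset.sum_le_sum h4).trans ?_
    rw [← Finset.sum_mul]
    have h5 := hS η hη hη1 i hi1 ((F.erase 1).filter (fun l => ι l = i)) (fun l hl =>
      ⟨hF l (Finset.mem_erase.1 (Finset.mem_filter.1 hl).1).2, h3 l hl⟩)
    calc _ ≤ CS * (Real.exp 1 * Real.exp (-|(i : ℝ) - c|)) :=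
          mul_le_mul_of_nonneg_right h5 (by positivity)
      _ = _ := by ring
  refine (Finset.sum_le_sum h2).trans ?_
  rw [← Finset.mul_sum]
  exact mul_le_mul_of_nonneg_left (geo_sum c hc _) (by positivity)

end Pool.Agent.H7.PL
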