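import Pool.Agent.H7.PL.L8

set_option autoImplicit false
open MeasureTheory Metric Filter
open scoped ComplexConjugate ENNReal Topology

/-! All scales. -/

namespace Pool.Agent.H7.PL

open Pool.Agent.Helper873.OneVar Pool.Agent.Helper873.Product Pool.Agent.Helper873.Embed
  Pool.Agent.Helper873.Monomial Pool.Agent.H7.PM

lemma rpow_sum_le {k : ℝ} (hk : 0 < k) (hk1 : k ≤ 1) (a : ℕ → ℝ) (ha : ∀ j, 0 ≤ a j)
    (S : Finset ℕ) : (∑ j ∈ S, a j) ^ k ≤ ∑ j ∈ S, a j ^ k := by
  classical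
  induction S using Finset.induction_on with
  | empty => simp [Real.zero_rpow hk.ne']
  | insert j S hj ih =>
    rw [Finset.sum_insert hj, Finset.sum_insert hj]
    exact (rpow_add_le _ _ (ha j) (Finset.sum_nonneg fun i _ => ha i) hk.le hk1).trans
      (add_le_add le_rfl ih)

lemma rpow_tsum_le {k : ℝ} (hk : 0 < k) (hk1 : k ≤ 1) (a : ℕ → ℝ) (ha : ∀ j, 0 ≤ a j)
    (hs : Summable a) (hsk : Summable fun j => a j ^ k) :
    (∑' j, a j) ^ k ≤ ∑' j, a j ^ k := by
  have h1 := hs.hasSum.tendsto_sum_nat.rpow_const (p := k) (Or.inr hk.le)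
  refine le_of_tendsto' h1 fun n => ?_
  exact (rpow_sum_le hk hk1 a ha _).trans (hsk.sum_le_tsum _ fun j _ => by
    have := ha j
    positivity)

lemma two_pow_le (j : ℕ) : (2 : ℝ) ^ j ≤ 2 * (j.factorial : ℝ) := by
  have h : ∀ j : ℕ, 2 ^ j ≤ 2 * j.factorial := by
    intro j
    induction j with
    | zero => simp
    | succ j ih =>
      rcases Nat.eq_zero_or_pos j with rfl | hj
      · simp
      · rw [pow_succ, Nat.factorial_succ]
        have : 2 ≤ j + 1 := by omega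
        calc 2 ^ j * 2 ≤ 2 * j.factorial * (j + 1) := Nat.mul_le_mul ih this
          _ = _ := by ring
  exact_mod_cast h j

/-- the weights -/
noncomputable def w2 (k : ℝ) (j : ℕ) : ℝ := (2 * (1 / 2 : ℝ) ^ j) ^ k

lemma w2_nonneg (k : ℝ) (j : ℕ) : 0 ≤ w2 k j := by unfold w2; positivity

lemma summable_w2 {k : ℝ} (hk : 0 < k) : Summable (w2 k) := by
  have h : Summable fun j : ℕ => (2 : ℝ) ^ k * ((1 / 2 : ℝ) ^ k) ^ j := by
    refine Summable.mul_left _ (summable_geometric_of_lt_one (by positivity) ?_)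
    exact Real.rpow_lt_one (by norm_num) (by norm_num) hk
  refine h.congr fun j => ?_
  unfold w2
  rw [Real.mul_rpow (by norm_num) (by positivity), ← Real.rpow_natCast, ← Real.rpow_natCast,
    ← Real.rpow_mul (by norm_num), ← Real.rpow_mul (by norm_num), mul_comm k]

/-- the majorant for small arguments -/
noncomputable def GG (Q : Finset ℕ) (τ k : ℝ) (z : Tor) : ℝ :=
  ∑' j : ℕ, w2 k j * ‖EP Q (sp τ j) z‖ ^ k

lemma summable_GG (Q : Finset ℕ) {τ k : ℝ} (hτ : 0 ≤ τ) (hk : 0 < k) (z : Tor) :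
    Summable fun j : ℕ => w2 k j * ‖EP Q (sp τ j) z‖ ^ k := by
  refine Summable.of_nonneg_of_le (fun j => ?_) (fun j => ?_)
    ((summable_w2 hk).mul_right ((∑' n, ‖cq Q (1 / 2) n‖) ^ k))
  · have := w2_nonneg k j; positivity
  · exact mul_le_mul_of_nonneg_left (Real.rpow_le_rpow (norm_nonneg _) (norm_EP_sp Q hτ j z) hk.le)
      (w2_nonneg k j)

lemma GG_nonneg (Q : Finset ℕ) (τ k : ℝ) (z : Tor) : 0 ≤ GG Q τ k z :=
  tsum_nonneg fun j => by have := w2_nonneg k j; positivity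

lemma Ma_le_GG (Q : Finset ℕ) {τ k : ℝ} (hτ : 0 ≤ τ) (hk : 0 < k) (hk1 : k ≤ 1) (z : Tor) :
    Ma Q τ z ^ k ≤ GG Q τ k z := by
  set A : ℝ := ∑' n, ‖cq Q (1 / 2) n‖ with hA
  have hs : Summable fun j : ℕ => (2 * (1 / 2 : ℝ) ^ j) * ‖EP Q (sp τ j) z‖ := by
    refine Summable.of_nonneg_of_le (fun j => by positivity) (fun j => ?_)
      (((summable_geometric_two).mul_left 2).mul_right A)
    exact mul_le_mul_of_nonneg_left (norm_EP_sp Q hτ j z) (by positivity)
  have h1 : Ma Q τ z ≤ ∑' j : ℕ, (2 * (1 / 2 : ℝ) ^ j) * ‖EP Q (sp τ j) z‖ := by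
    unfold Ma
    refine Summable.tsum_le_tsum (fun j => ?_) (summable_Ma Q hτ z) hs
    refine mul_le_mul_of_nonneg_right ?_ (norm_nonneg _)
    have h2 := two_pow_le j
    rw [one_div_pow, div_le_iff₀ (by positivity)]
    field_simp
    exact h2
  have h0 : 0 ≤ Ma Q τ z := tsum_nonneg fun j => by positivity
  refine (Real.rpow_le_rpow h0 h1 hk.le).trans ?_
  have e : ∀ j : ℕ, ((2 * (1 / 2 : ℝ) ^ j) * ‖EP Q (sp τ j) z‖) ^ k =
      w2 k j * ‖EP Q (sp τ j) z‖ ^ k := by
    intro j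
    rw [Real.mul_rpow (by positivity) (norm_nonneg _)]
    rfl
  have h3 := rpow_tsum_le hk hk1 (fun j : ℕ => (2 * (1 / 2 : ℝ) ^ j) * ‖EP Q (sp τ j) z‖)
    (fun j => by positivity) hs (by simp_rw [e]; exact summable_GG Q hτ hk z)
  simp_rw [e] at h3
  exact h3

lemma continuous_GG (Q : Finset ℕ) {τ k : ℝ} (hτ : 0 ≤ τ) (hk : 0 < k) :
    Continuous (GG Q τ k) := by
  unfold GG
  refine continuous_tsum (fun j => continuous_const.mul (continuous_norm_rpow
    (continuous_EP Q _ (sp_pos hτ j)) hk.le))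
    ((summable_w2 hk).mul_right ((∑' n, ‖cq Q (1 / 2) n‖) ^ k)) fun j z => ?_
  rw [Real.norm_of_nonneg (by have := w2_nonneg k j; positivity)]
  exact mul_le_mul_of_nonneg_left (Real.rpow_le_rpow (norm_nonneg _) (norm_EP_sp Q hτ j z) hk.le)
    (w2_nonneg k j)

lemma int_GG (Q : Finset ℕ) {τ k : ℝ} (hτ : 0 ≤ τ) (hk : 0 < k) (B : ℝ)
    (hB : ∀ j, mo k (EP Q (sp τ j)) ≤ B) : ∫ z, GG Q τ k z ∂tor ≤ (∑' j, w2 k j) * B := by
  have hcont : ∀ j : ℕ, Continuous fun z => w2 k j * ‖EP Q (sp τ j) z‖ ^ k := fun j =>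
    continuous_const.mul (continuous_norm_rpow (continuous_EP Q _ (sp_pos hτ j)) hk.le)
  have hnn : ∀ j z, 0 ≤ w2 k j * ‖EP Q (sp τ j) z‖ ^ k := fun j z => by
    have := w2_nonneg k j
    positivity
  have hval : ∀ j : ℕ, ∫ z, w2 k j * ‖EP Q (sp τ j) z‖ ^ k ∂tor ≤ w2 k j * B := by
    intro j
    rw [integral_const_mul]
    exact mul_le_mul_of_nonneg_left (hB j) (w2_nonneg k j)
  have hsum : Summable fun j : ℕ => w2 k j * B := (summable_w2 hk).mul_right B
  have hsum2 : Summable fun j : ℕ => ∫ z, ‖w2 k j * ‖EP Q (sp τ j) z‖ ^ k‖ ∂tor := by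
    refine Summable.of_nonneg_of_le (fun j => integral_nonneg fun z => norm_nonneg _)
      (fun j => ?_) hsum
    refine le_trans (le_of_eq ?_) (hval j)
    refine integral_congr_ae (Eventually.of_forall fun z => ?_)
    simp only
    rw [Real.norm_of_nonneg (hnn j z)]
  have h := integral_tsum_of_summable_integral_norm (fun j => integrable_tor' (hcont j)) hsum2
  unfold GG
  rw [← h]
  have hs3 : Summable fun j : ℕ => ∫ z, w2 k j * ‖EP Q (sp τ j) z‖ ^ k ∂tor :=
    Summable.of_nonneg_of_le (fun j => integral_nonneg (hnn j)) hval hsum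
  refine (Summable.tsum_le_tsum hval hs3 hsum).trans (le_of_eq ?_)
  rw [tsum_mul_right]

/-- **one scale** -/
theorem one_scale {k : ℝ} (hk : 0 < k) (hk1 : k ≤ 1) : ∃ C : ℝ, 0 < C ∧
    ∀ (M K N : ℕ) (η β : ℝ), 0 < η → η ≤ 1 / 24 → Sc M η → M ≤ K → 1 ≤ N → 1 ≤ β → β ≤ 2 →
    mo k (fun z => W (Finset.range K) (β * η) ((N : ℝ) ^ (β * η)) z - BB M K N z) ≤
      C * (1 / η) ^ (k ^ 2 / 4) := by
  obtain ⟨CE, hCE, hE⟩ := mo_EP_bound k
  obtain ⟨C1, r, hC1, hT⟩ := tail_bound' k hk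
  obtain ⟨CR, hCR, hR⟩ := one_scale_z
  set C2 : ℝ := C1 * 4 * 3 ^ r with hC2
  have hC20 : 0 < C2 := by positivity
  set Z1 : ℝ := ∑' j, w2 k j with hZ1
  set Z2 : ℝ := ∑' j : ℤ, wj j with hZ2
  have hZ10 : 0 ≤ Z1 := tsum_nonneg fun j => w2_nonneg k j
  have hZ20 : 0 ≤ Z2 := tsum_nonneg fun j => (wj_pos j).le
  refine ⟨CR ^ (k / 2) * (Z1 * CE + C2 ^ k * (32 * (Z2 * CE))) + 1, by positivity, ?_⟩
  intro M K N η β hη hη1 hSc hMK hN hβ hβ2
  set τ : ℝ := β * η with hτ
  have hτ0 : 0 < τ := by positivity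
  set R : ℝ := (1 / η) ^ (k ^ 2 / 4) with hRdef
  have hR1 : 0 < R := by positivity
  have hEP : ∀ s : ℂ, 1 / 2 - η ≤ s.re → mo k (EP (Finset.range M) s) ≤ CE * R := fun s hs =>
    hE M η hη hη1 hSc.small s hs
  set H : Tor → ℝ := fun z => GG (Finset.range M) τ k z + C2 ^ k * VV M η k z with hH
  have hHc : Continuous H := (continuous_GG _ hτ0.le hk).add
    (continuous_const.mul (continuous_VV hη hη1 hk.le))
  have hH0 : ∀ z, 0 ≤ H z := fun z => by
    have h1 := GG_nonneg (Finset.range M) τ k z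
    have h2 := VV_nonneg (M := M) (η := η) (k := k) z
    simp only [hH]
    positivity
  set X : Tor → ℂ := fun z => W (Finset.range K) τ ((N : ℝ) ^ τ) z - BB M K N z with hX
  have hXc : Continuous X := (continuous_W _ (by positivity)).sub (continuous_BB M K N)
  have hpw : ∀ z, (CR * (H z ^ (1 / k)) ^ 2) ^ (k / 2) = CR ^ (k / 2) * H z := by
    intro z
    rw [Real.mul_rpow hCR.le (by have := hH0 z; positivity), ← Real.rpow_natCast,
      ← Real.rpow_mul (by have := hH0 z; positivity), ← Real.rpow_mul (hH0 z)]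
    have e : 1 / k * (((2 : ℕ) : ℝ) * (k / 2)) = 1 := by
      push_cast
      field_simp
    rw [e, Real.rpow_one]
  have h1 := cond hk (by linarith) M X hXc (fun z => CR * (H z ^ (1 / k)) ^ 2)
    (by simp_rw [hpw]; exact integrable_tor' (continuous_const.mul hHc)) (fun z => by
      refine hR M K N η β z (H z ^ (1 / k)) hη hη1 hSc hMK hN hβ
        (Real.rpow_nonneg (hH0 z) _) (fun U hU hU1 => ?_) fun U hU => ?_
      · have h2 := W_small (Finset.range M) hτ0.le hU.le hU1 z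
        have h3 : Ma (Finset.range M) τ z ≤ H z ^ (1 / k) := by
          have h4 := Ma_le_GG (Finset.range M) hτ0.le hk hk1 z
          have h5 : Ma (Finset.range M) τ z ^ k ≤ H z := by
            have h2 := VV_nonneg (M := M) (η := η) (k := k) z
            have : 0 ≤ C2 ^ k * VV M η k z := by positivity
            simp only [hH]
            linarith
          have hMa0 : 0 ≤ Ma (Finset.range M) τ z := tsum_nonneg fun j => by positivity
          have h6 := Real.rpow_le_rpow (by positivity) h5 (show 0 ≤ 1 / k by positivity)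
          rwa [← Real.rpow_mul hMa0, mul_one_div_cancel hk.ne', Real.rpow_one] at h6
        rw [mul_comm (H z ^ (1 / k))]
        exact h2.trans (mul_le_mul_of_nonneg_left h3 hU.le)
      · have hU0 : 0 < U := by linarith
        have h2 := hT M η τ (1 / (2 * β)) U z hη hη1 hτ0 (by positivity) (by
          rw [div_le_one (by positivity)]; linarith) (by
          rw [hτ]; field_simp) hU0
        refine h2.trans (mul_le_mul_of_nonneg_right ?_ (by positivity))
        have hV := VV_nonneg (M := M) (η := η) (k := k) z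
        have h3 : C1 / (1 / (2 * β)) * (1 + τ / η) ^ r ≤ C2 := by
          have e1 : C1 / (1 / (2 * β)) = C1 * (2 * β) := by field_simp
          have e2 : τ / η = β := by rw [hτ]; field_simp
          rw [e1, e2, hC2]
          have : (1 + β) ^ r ≤ 3 ^ r := by gcongr; linarith
          have h5 : C1 * (2 * β) ≤ C1 * 4 := mul_le_mul_of_nonneg_left (by linarith) hC1.le
          exact mul_le_mul h5 this (by positivity) (by positivity)
        have h4 : C2 * VV M η k z ^ (1 / k) ≤ H z ^ (1 / k) := by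
          have h5 : (C2 * VV M η k z ^ (1 / k)) ^ k ≤ H z := by
            rw [Real.mul_rpow hC20.le (by positivity), ← Real.rpow_mul hV,
              one_div_mul_cancel hk.ne', Real.rpow_one]
            have := GG_nonneg (Finset.range M) τ k z
            simp only [hH]
            linarith
          have h6 := Real.rpow_le_rpow (by positivity) h5 (show 0 ≤ 1 / k by positivity)
          rwa [← Real.rpow_mul (by positivity), mul_one_div_cancel hk.ne', Real.rpow_one] at h6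
        exact (mul_le_mul_of_nonneg_right h3 (by positivity)).trans h4)
  simp_rw [hpw] at h1
  refine h1.trans ?_
  rw [integral_const_mul]
  have h7 : ∫ z, H z ∂tor ≤ Z1 * (CE * R) + C2 ^ k * (32 * (Z2 * (CE * R))) := by
    have e3 : ∫ z, H z ∂tor = ∫ z, GG (Finset.range M) τ k z ∂tor +
        C2 ^ k * ∫ z, VV M η k z ∂tor := by
      rw [← integral_const_mul]
      exact integral_add (f := GG (Finset.range M) τ k) (g := fun z => C2 ^ k * VV M η k z)
        (integrable_tor' (continuous_GG _ hτ0.le hk))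
        (integrable_tor' (continuous_const.mul (continuous_VV hη hη1 hk.le)))
    rw [e3]
    refine add_le_add (int_GG _ hτ0.le hk _ fun j => hEP _ ?_)
      (mul_le_mul_of_nonneg_left (int_VV hη hη1 hk.le _ hEP) (by positivity))
    rw [sp_re]
    have : 0 ≤ (j : ℝ) * τ := by positivity
    linarith
  calc CR ^ (k / 2) * ∫ z, H z ∂tor ≤
      CR ^ (k / 2) * (Z1 * (CE * R) + C2 ^ k * (32 * (Z2 * (CE * R)))) :=
        mul_le_mul_of_nonneg_left h7 (by positivity)
    _ = CR ^ (k / 2) * (Z1 * CE + C2 ^ k * (32 * (Z2 * CE))) * R := by ring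
    _ ≤ _ := by nlinarith

/-- the sharp cut -/
noncomputable def SK (K N : ℕ) (z : Tor) : ℂ :=
  ∑ n ∈ Finset.Icc 1 N, cq (Finset.range K) (1 / 2) n * stf n z

lemma continuous_SK (K N : ℕ) : Continuous (SK K N) :=
  continuous_finsetSum _ fun l _ => continuous_const.mul (continuous_stf l)

lemma sum_up {a : ℝ} (ha : 0 < a) (ha1 : a ≤ 1) (N : ℕ) :
    ∑ n ∈ Finset.Icc 1 N, (n : ℝ) ^ (a - 1) ≤ (N : ℝ) ^ a / a := by
  induction N with
  | zero => simp [Real.zero_rpow ha.ne']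
  | succ N ih =>
    rw [Finset.sum_Icc_succ_top (by omega)]
    have hN : (0 : ℝ) < ((N + 1 : ℕ) : ℝ) := by positivity
    have hb := rpow_one_add_le_one_add_mul_self (s := -(1 / ((N + 1 : ℕ) : ℝ)))
      (by rw [neg_le_neg_iff, div_le_one hN]; push_cast; linarith [Nat.cast_nonneg (α := ℝ) N])
      ha.le ha1
    have e : (N : ℝ) = ((N + 1 : ℕ) : ℝ) * (1 + -(1 / ((N + 1 : ℕ) : ℝ))) := by
      push_cast
      field_simp
      ring
    have h0 : 0 ≤ 1 + -(1 / ((N + 1 : ℕ) : ℝ)) := by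
      rw [← sub_eq_add_neg, sub_nonneg, div_le_one hN]
      push_cast
      linarith [Nat.cast_nonneg (α := ℝ) N]
    have h1 : (N : ℝ) ^ a ≤ ((N + 1 : ℕ) : ℝ) ^ a * (1 + a * -(1 / ((N + 1 : ℕ) : ℝ))) := by
      conv_lhs => rw [e]
      rw [Real.mul_rpow hN.le h0]
      exact mul_le_mul_of_nonneg_left hb (by positivity)
    have h2 : ((N + 1 : ℕ) : ℝ) ^ (a - 1) = ((N + 1 : ℕ) : ℝ) ^ a / ((N + 1 : ℕ) : ℝ) :=
      Real.rpow_sub_one hN.ne' a
    have h3 : (N : ℝ) ^ a / a ≤ ((N + 1 : ℕ) : ℝ) ^ a / a - ((N + 1 : ℕ) : ℝ) ^ (a - 1) := by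
      rw [h2, div_le_iff₀ ha]
      refine h1.trans (le_of_eq ?_)
      field_simp
      ring
    linarith

lemma sum_down {a : ℝ} (ha : 0 < a) (ha1 : a ≤ 1) (N : ℕ) (hN : 1 ≤ N) (X : ℕ) (hX : N ≤ X) :
    ∑ n ∈ Finset.Ioc N X, (n : ℝ) ^ (-a - 1) ≤ ((N : ℝ) ^ (-a) - (X : ℝ) ^ (-a)) / a := by
  induction X, hX using Nat.le_induction with
  | base => simp
  | succ X hX ih =>
    rw [Finset.sum_Ioc_succ_top hX]
    have hX0 : (0 : ℝ) < ((X + 1 : ℕ) : ℝ) := by positivity
    have hX1 : (0 : ℝ) < X := by exact_mod_cast (by omega : 0 < X)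
    have hXn : (0 : ℝ) ≤ X := hX1.le
    have hb := rpow_one_add_le_one_add_mul_self (s := -(1 / ((X + 1 : ℕ) : ℝ)))
      (by rw [neg_le_neg_iff, div_le_one hX0]; push_cast; linarith) ha.le ha1
    have e : (X : ℝ) = ((X + 1 : ℕ) : ℝ) * (1 + -(1 / ((X + 1 : ℕ) : ℝ))) := by
      push_cast
      field_simp
      ring
    have h0 : 0 < 1 + -(1 / ((X + 1 : ℕ) : ℝ)) := by
      rw [← sub_eq_add_neg, sub_pos, div_lt_one hX0]
      push_cast
      linarith
    set s := 1 / ((X + 1 : ℕ) : ℝ) with hs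
    have hs0 : 0 < s := by positivity
    have hP : 0 < (1 + -s) ^ a := Real.rpow_pos_of_pos h0 _
    have h1 : ((X + 1 : ℕ) : ℝ) ^ (-a) * (1 + a * s) ≤ (X : ℝ) ^ (-a) := by
      conv_rhs => rw [e]
      rw [Real.mul_rpow hX0.le h0.le]
      refine mul_le_mul_of_nonneg_left ?_ (by positivity)
      rw [Real.rpow_neg h0.le, le_inv_comm₀ (by positivity) hP]
      refine hb.trans ?_
      rw [le_inv_comm₀ (lt_of_lt_of_le hP hb) (by positivity)]
      rw [inv_eq_one_div, le_div_iff₀ (lt_of_lt_of_le hP hb)]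
      nlinarith [sq_nonneg (a * s)]
    have h2 : ((X + 1 : ℕ) : ℝ) ^ (-a - 1) = ((X + 1 : ℕ) : ℝ) ^ (-a) * s := by
      rw [Real.rpow_sub_one hX0.ne', hs]
      ring
    have h3 : ((X + 1 : ℕ) : ℝ) ^ (-a - 1) ≤
        ((X : ℝ) ^ (-a) - ((X + 1 : ℕ) : ℝ) ^ (-a)) / a := by
      rw [h2, le_div_iff₀ ha]
      linarith
    calc _ ≤ ((N : ℝ) ^ (-a) - (X : ℝ) ^ (-a)) / a +
        ((X : ℝ) ^ (-a) - ((X + 1 : ℕ) : ℝ) ^ (-a)) / a := add_le_add ih h3
      _ = _ := by ring

/-- second moment of the difference -/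
lemma second_moment (K N : ℕ) (hN : 1 ≤ N) (η : ℝ) (hη : 0 < η) (hη1 : η ≤ 1 / 2) :
    ∫ z, ‖SK K N z - W (Finset.range K) η ((N : ℝ) ^ η) z‖ ^ 2 ∂tor ≤ 1 / η := by
  classical
  have hN0 : (0 : ℝ) < N := by exact_mod_cast hN
  set U : ℝ := (N : ℝ) ^ η with hU
  have hU0 : 0 < U := by positivity
  set b : ℕ → ℂ := fun n => (if n ∈ Finset.Icc 1 N then cq (Finset.range K) (1 / 2) n else 0) -
    wc (Finset.range K) η U n with hb
  have s1 : Summable fun n : ℕ =>
      ‖(if n ∈ Finset.Icc 1 N then cq (Finset.range K) (1 / 2) n else 0)‖ := by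
    refine summable_of_ne_finset_zero (s := Finset.Icc 1 N) fun n hn => ?_
    rw [if_neg hn, norm_zero]
  have hbs : Summable fun n => ‖b n‖ :=
    Summable.of_nonneg_of_le (fun _ => norm_nonneg _) (fun n => norm_sub_le _ _)
      (s1.add (summable_wc _ hU0.le))
  have hpt : ∀ z, SK K N z - W (Finset.range K) η U z = DSer b z := by
    intro z
    simp only [hb]
    rw [DSer_sub s1 (summable_wc _ hU0.le)]
    unfold W
    congr 1
    unfold SK DSer
    rw [tsum_eq_sum (s := Finset.Icc 1 N) (fun n hn => by simp only [if_neg hn, zero_mul])]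
    exact Finset.sum_congr rfl fun n hn => by simp only [if_pos hn]
  simp_rw [hpt]
  refine pars b (by simp [hb, cq_zero, wc]) hbs _ fun S => ?_
  have hterm : ∀ n ∈ S.erase 0, ‖b n‖ ^ 2 ≤ if n ≤ N then (N : ℝ) ^ (-(2 * η)) *
      (n : ℝ) ^ (2 * η - 1) else (N : ℝ) ^ (2 * η) * (n : ℝ) ^ (-(2 * η) - 1) := by
    intro n hn
    have hn0' : n ≠ 0 := Finset.ne_of_mem_erase hn
    have hn0 : (0 : ℝ) < n := by exact_mod_cast Nat.pos_of_ne_zero hn0'
    have hcq : ‖cq (Finset.range K) (1 / 2) n‖ ^ 2 ≤ (n : ℝ) ^ (-1 : ℝ) := by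
      rw [norm_cq_sq, Real.rpow_neg_one, ← one_div]
      split_ifs
      · exact le_rfl
      · positivity
    set x : ℝ := U * (n : ℝ) ^ (-η) with hx
    have hx0 : 0 < x := by positivity
    by_cases h : n ≤ N
    · rw [if_pos h]
      simp only [hb]
      rw [if_pos (Finset.mem_Icc.2 ⟨Nat.one_le_iff_ne_zero.2 hn0', h⟩)]
      have e1 : cq (Finset.range K) (1 / 2) n - wc (Finset.range K) η U n =
          ((Real.exp (-x) : ℝ) : ℂ) * cq (Finset.range K) (1 / 2) n := by
        unfold wc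
        rw [hx]
        push_cast
        ring
      rw [e1, norm_mul, mul_pow, Complex.norm_real, Real.norm_of_nonneg (Real.exp_pos _).le]
      have h2 : Real.exp (-x) ≤ x⁻¹ := by
        rw [Real.exp_neg]
        exact inv_anti₀ hx0 (by have := Real.add_one_le_exp x; linarith)
      have h3 : Real.exp (-x) ^ 2 ≤ (x⁻¹) ^ 2 := by gcongr
      have h4 : (x⁻¹) ^ 2 = (N : ℝ) ^ (-(2 * η)) * (n : ℝ) ^ (2 * η) := by
        rw [hx, hU, mul_inv, ← Real.rpow_neg hN0.le, ← Real.rpow_neg hn0.le, neg_neg, mul_pow,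
          ← Real.rpow_natCast, ← Real.rpow_natCast, ← Real.rpow_mul hN0.le,
          ← Real.rpow_mul hn0.le]
        congr 2 <;> push_cast <;> ring
      calc Real.exp (-x) ^ 2 * ‖cq (Finset.range K) (1 / 2) n‖ ^ 2 ≤
          (x⁻¹) ^ 2 * (n : ℝ) ^ (-1 : ℝ) := mul_le_mul h3 hcq (by positivity) (by positivity)
        _ = _ := by
          rw [h4, mul_assoc, ← Real.rpow_add hn0]
          rfl
    · rw [if_neg h]
      simp only [hb]
      rw [if_neg (fun h' => h (Finset.mem_Icc.1 h').2), zero_sub, norm_neg]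
      unfold wc
      rw [norm_mul, mul_pow, Complex.norm_real,
        Real.norm_of_nonneg (wgt_bd _ hx0.le).1]
      have h2 : 1 - Real.exp (-x) ≤ x := by have := Real.add_one_le_exp (-x); linarith
      have h3 : (1 - Real.exp (-x)) ^ 2 ≤ x ^ 2 := by
        have := (wgt_bd _ hx0.le).1
        gcongr
      have h4 : x ^ 2 = (N : ℝ) ^ (2 * η) * (n : ℝ) ^ (-(2 * η)) := by
        rw [hx, hU, mul_pow,
          ← Real.rpow_natCast, ← Real.rpow_natCast, ← Real.rpow_mul hN0.le,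
          ← Real.rpow_mul hn0.le]
        congr 2 <;> push_cast <;> ring
      calc (1 - Real.exp (-x)) ^ 2 * ‖cq (Finset.range K) (1 / 2) n‖ ^ 2 ≤
          x ^ 2 * (n : ℝ) ^ (-1 : ℝ) := mul_le_mul h3 hcq (by positivity) (by positivity)
        _ = _ := by
          rw [h4, mul_assoc, ← Real.rpow_add hn0]
          rfl
  have hb0 : b 0 = 0 := by simp [hb, cq_zero, wc]
  have hSe : ∑ n ∈ S, ‖b n‖ ^ 2 = ∑ n ∈ S.erase 0, ‖b n‖ ^ 2 := by
    by_cases h0 : 0 ∈ S
    · rw [← Finset.add_sum_erase S _ h0, hb0]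
      simp
    · rw [Finset.erase_eq_of_notMem h0]
  rw [hSe]
  refine (Finset.sum_le_sum hterm).trans ?_
  rw [Finset.sum_ite]
  have p1 : ∑ n ∈ S.erase 0 with n ≤ N, (N : ℝ) ^ (-(2 * η)) * (n : ℝ) ^ (2 * η - 1) ≤
      1 / (2 * η) := by
    calc _ ≤ ∑ n ∈ Finset.Icc 1 N, (N : ℝ) ^ (-(2 * η)) * (n : ℝ) ^ (2 * η - 1) := by
          refine Finset.sum_le_sum_of_subset_of_nonneg (fun n hn => ?_)
            fun n _ _ => by positivity
          obtain ⟨h1, h2⟩ := Finset.mem_filter.1 hn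
          exact Finset.mem_Icc.2 ⟨Nat.one_le_iff_ne_zero.2 (Finset.ne_of_mem_erase h1), h2⟩
      _ ≤ (N : ℝ) ^ (-(2 * η)) * ((N : ℝ) ^ (2 * η) / (2 * η)) := by
          rw [← Finset.mul_sum]
          exact mul_le_mul_of_nonneg_left (sum_up (by positivity) (by linarith) N) (by positivity)
      _ = 1 / (2 * η) := by
          rw [← mul_div_assoc, ← Real.rpow_add hN0]
          simp
  have p2 : ∑ n ∈ S.erase 0 with ¬ n ≤ N, (N : ℝ) ^ (2 * η) * (n : ℝ) ^ (-(2 * η) - 1) ≤
      1 / (2 * η) := by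
    set X := max N (S.sup id) with hX
    calc _ ≤ ∑ n ∈ Finset.Ioc N X, (N : ℝ) ^ (2 * η) * (n : ℝ) ^ (-(2 * η) - 1) := by
          refine Finset.sum_le_sum_of_subset_of_nonneg (fun n hn => ?_)
            fun n _ _ => by positivity
          obtain ⟨h1, h2⟩ := Finset.mem_filter.1 hn
          refine Finset.mem_Ioc.2 ⟨not_le.1 h2, ?_⟩
          exact (Finset.le_sup (f := id) (Finset.mem_of_mem_erase h1)).trans (le_max_right _ _)
      _ ≤ (N : ℝ) ^ (2 * η) * ((N : ℝ) ^ (-(2 * η)) / (2 * η)) := by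
          rw [← Finset.mul_sum]
          refine mul_le_mul_of_nonneg_left ((sum_down (by positivity) (by linarith) N hN X
            (le_max_left _ _)).trans ?_) (by positivity)
          have : 0 ≤ (X : ℝ) ^ (-(2 * η)) := by positivity
          gcongr
          linarith
      _ = 1 / (2 * η) := by
          rw [← mul_div_assoc, ← Real.rpow_add hN0]
          simp
  calc _ ≤ 1 / (2 * η) + 1 / (2 * η) := add_le_add p1 p2
    _ = 1 / η := by field_simp; norm_num

end Pool.Agent.H7.PL
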